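import Pool.Agent.P.MP_dcd5d0_pr.Prod

/-! Lower tail concentration from the Efron-Stein inequality. -/

set_option autoImplicit false

open MeasureTheory ProbabilityTheory Function
open scoped ENNReal

namespace Pool.Agent.P.MP_dcd5d0_pr

variable {ι : Type}

lemma exp_neg_le_quad (x : ℝ) (hx : 0 ≤ x) : Real.exp (-x) ≤ 1 - x + x ^ 2 := by
  have h1 : 1 + x ≤ Real.exp x := by linarith [Real.add_one_le_exp x]
  have h2 : 0 < 1 - x + x ^ 2 := by nlinarith [sq_nonneg (x - 1 / 2)]
  rw [Real.exp_neg, inv_le_iff_one_le_mul₀ (Real.exp_pos x)]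
  have h3 : (1 - x + x ^ 2) * (1 + x) ≤ (1 - x + x ^ 2) * Real.exp x :=
    mul_le_mul_of_nonneg_left h1 h2.le
  nlinarith [pow_nonneg hx 3]

lemma iter_bound (H : ℝ → ℝ) (m q V : ℝ) (hV : 0 ≤ V) (hpos : ∀ l, 0 ≤ l → 0 ≤ H l)
    (h0 : ∀ l, 0 ≤ l → H l ≤ Real.exp (-l * m + l ^ 2 * q))
    (hs : ∀ l, 0 ≤ l → H l ≤ H (l / 2) ^ 2 + l ^ 2 * V / 4 * H l) (k : ℕ) :
    ∀ l, 0 ≤ l → l ^ 2 * V ≤ 1 → H l ≤ Real.exp (-l * m + l ^ 2 * V + l ^ 2 * q / 2 ^ k) := by
  induction k with
  | zero =>
    intro l hl _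
    refine (h0 l hl).trans (Real.exp_le_exp.2 ?_)
    have : 0 ≤ l ^ 2 * V := by positivity
    simp only [pow_zero, div_one]; linarith
  | succ k ih =>
    intro l hl ha
    have ha0 : 0 ≤ l ^ 2 * V := by positivity
    have h1 := ih (l / 2) (by linarith) (by nlinarith)
    have h2 : H (l / 2) ^ 2 ≤ Real.exp (-l * m + l ^ 2 * V / 2 + l ^ 2 * q / 2 ^ (k + 1)) := by
      calc H (l / 2) ^ 2 ≤ Real.exp (-(l / 2) * m + (l / 2) ^ 2 * V + (l / 2) ^ 2 * q / 2 ^ k) ^ 2 :=
            pow_le_pow_left₀ (hpos _ (by linarith)) h1 2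
        _ = _ := by
            rw [← Real.exp_nat_mul]; congr 1; push_cast; field_simp; ring
    have h3 := hs l hl
    set a := l ^ 2 * V with ha'
    have h4 : Real.exp (-(a / 2)) ≤ 1 - a / 4 := by
      have := exp_neg_le_quad (a / 2) (by linarith)
      nlinarith
    have h5 : Real.exp (-(a / 2)) * H l ≤ H (l / 2) ^ 2 := by
      have := mul_le_mul_of_nonneg_right h4 (hpos l hl)
      nlinarith
    have h6 : H l = Real.exp (a / 2) * (Real.exp (-(a / 2)) * H l) := by
      rw [← mul_assoc, ← Real.exp_add]; simp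
    rw [h6]
    calc Real.exp (a / 2) * (Real.exp (-(a / 2)) * H l)
        ≤ Real.exp (a / 2) * Real.exp (-l * m + a / 2 + l ^ 2 * q / 2 ^ (k + 1)) :=
          mul_le_mul_of_nonneg_left (h5.trans h2) (Real.exp_pos _).le
      _ = _ := by rw [← Real.exp_add]; congr 1; ring

theorem conc [DecidableEq ι] (ν : Measure ℝ) [IsProbabilityMeasure ν]
    (hν : Integrable (fun y => y ^ 2) ν) (S : Finset ι) (Z : (ι → ℝ) → ℝ) (hZm : Measurable Z)
    (hZ0 : ∀ ω, 0 ≤ Z ω) (hZ2 : Integrable (fun ω => Z ω ^ 2) (PP ι ν))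
    (hdep : ∀ ω ω', (∀ e ∈ S, ω e = ω' e) → Z ω = Z ω') (K : ℕ)
    (hlip : ∀ ω, ∃ F : Finset ι, F.card ≤ K ∧
      ∀ e y, Z (update ω e y) ≤ Z ω + if e ∈ F then max y 0 else 0)
    (l s : ℝ) (hl : 0 ≤ l) (hlK : l ^ 2 * (K * ∫ y, y ^ 2 ∂ν) ≤ 1) :
    (PP ι ν).real {ω | Z ω ≤ ∫ ω, Z ω ∂(PP ι ν) - s} ≤ Real.exp (2 - l * s) := by
  set m2 := ∫ y, y ^ 2 ∂ν with hm2
  have hm20 : 0 ≤ m2 := integral_nonneg fun y => sq_nonneg y
  have hZ1 : Integrable Z (PP ι ν) := by
    refine Integrable.mono' (hZ2.add (integrable_const 1)) hZm.aestronglyMeasurable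
      (Filter.Eventually.of_forall fun ω => ?_)
    rw [Real.norm_eq_abs, abs_of_nonneg (hZ0 ω)]
    simp only [Pi.add_apply]; nlinarith [sq_nonneg (Z ω - 1)]
  have hint : ∀ l, 0 ≤ l → Integrable (fun ω => Real.exp (-(l * Z ω))) (PP ι ν) := by
    intro l hl
    refine Integrable.mono' (integrable_const 1) (by fun_prop)
      (Filter.Eventually.of_forall fun ω => ?_)
    rw [Real.norm_eq_abs, abs_of_nonneg (Real.exp_pos _).le, Real.exp_le_one_iff]
    have := mul_nonneg hl (hZ0 ω); linarith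
  set H : ℝ → ℝ := fun l => ∫ ω, Real.exp (-(l * Z ω)) ∂(PP ι ν) with hH
  have hpos : ∀ l, 0 ≤ l → 0 ≤ H l := fun l _ => integral_nonneg fun ω => (Real.exp_pos _).le
  have hof : ∀ l, 0 ≤ l →
      ∫⁻ ω, ENNReal.ofReal (Real.exp (-(l * Z ω))) ∂(PP ι ν) = ENNReal.ofReal (H l) :=
    fun l hl => (ofReal_integral_eq_lintegral_ofReal (hint l hl)
      (Filter.Eventually.of_forall fun ω => (Real.exp_pos _).le)).symm
  set m := ∫ ω, Z ω ∂(PP ι ν) with hm
  set q := ∫ ω, Z ω ^ 2 ∂(PP ι ν) with hq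
  have h0 : ∀ l, 0 ≤ l → H l ≤ Real.exp (-l * m + l ^ 2 * q) := by
    intro l hl
    have e1 : H l ≤ ∫ ω, (1 - l * Z ω + l ^ 2 * Z ω ^ 2) ∂(PP ι ν) := by
      refine integral_mono (hint l hl)
        (((integrable_const 1).sub (hZ1.const_mul l)).add (hZ2.const_mul _)) fun ω => ?_
      have := exp_neg_le_quad (l * Z ω) (mul_nonneg hl (hZ0 ω))
      simpa [mul_pow] using this
    have i1 : Integrable (fun ω => 1 - l * Z ω) (PP ι ν) :=
      (integrable_const 1).sub (hZ1.const_mul l)
    rw [integral_add i1 (hZ2.const_mul _),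
      integral_sub (integrable_const 1) (hZ1.const_mul l), integral_const_mul,
      integral_const_mul] at e1
    simp only [integral_const, probReal_univ, smul_eq_mul, mul_one] at e1
    have := Real.add_one_le_exp (-l * m + l ^ 2 * q)
    linarith
  have hs : ∀ l, 0 ≤ l → H l ≤ H (l / 2) ^ 2 + l ^ 2 * (K * m2) / 4 * H l := by
    intro l hl
    have hl2 : 0 ≤ l / 2 := by linarith
    have hFm : Measurable (fun ω => ENNReal.ofReal (Real.exp (-(l / 2 * Z ω)))) := by fun_prop
    have hES := efron_stein ν S (fun ω => ENNReal.ofReal (Real.exp (-(l / 2 * Z ω)))) hFm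
      (fun ω => by
        rw [ENNReal.ofReal_le_one, Real.exp_le_one_iff]
        have := mul_nonneg hl2 (hZ0 ω); linarith)
      (fun ω ω' h => by rw [hdep ω ω' h])
    have hsq : ∀ ω, ENNReal.ofReal (Real.exp (-(l / 2 * Z ω))) ^ 2
        = ENNReal.ofReal (Real.exp (-(l * Z ω))) := by
      intro ω
      rw [← ENNReal.ofReal_pow (Real.exp_pos _).le, ← Real.exp_nat_mul]
      congr 2; push_cast; ring
    simp_rw [hsq] at hES
    rw [hof l hl, hof (l / 2) hl2] at hES
    have hD : ∀ e', Measurable (fun ω => ∫⁻ y, (ENNReal.ofReal (Real.exp (-(l / 2 * Z ω)))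
        - ENNReal.ofReal (Real.exp (-(l / 2 * Z (update ω e' y))))) ^ 2 ∂ν) := by
      intro e'
      have : Measurable (fun p : (ι → ℝ) × ℝ => (ENNReal.ofReal (Real.exp (-(l / 2 * Z p.1)))
          - ENNReal.ofReal (Real.exp (-(l / 2 * Z (update p.1 e' p.2))))) ^ 2) :=
        ((hFm.comp measurable_fst).sub (hFm.comp (meas_update e'))).pow_const 2
      exact this.lintegral_prod_right'
    rw [← lintegral_finsetSum _ (fun e _ => hD e)] at hES
    have hpt : ∀ ω, ∑ e ∈ S, ∫⁻ y, (ENNReal.ofReal (Real.exp (-(l / 2 * Z ω)))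
        - ENNReal.ofReal (Real.exp (-(l / 2 * Z (update ω e y))))) ^ 2 ∂ν
        ≤ ENNReal.ofReal (l ^ 2 * (K * m2) / 4) * ENNReal.ofReal (Real.exp (-(l * Z ω))) := by
      intro ω
      obtain ⟨F, hFK, hF⟩ := hlip ω
      set c := l ^ 2 / 4 * Real.exp (-(l * Z ω)) with hc
      have hc0 : 0 ≤ c := by positivity
      have h1 : ∀ e, ∫⁻ y, (ENNReal.ofReal (Real.exp (-(l / 2 * Z ω)))
          - ENNReal.ofReal (Real.exp (-(l / 2 * Z (update ω e y))))) ^ 2 ∂ν
          ≤ if e ∈ F then ENNReal.ofReal (c * m2) else 0 := by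
        intro e
        have h2 : ∀ y, (ENNReal.ofReal (Real.exp (-(l / 2 * Z ω)))
            - ENNReal.ofReal (Real.exp (-(l / 2 * Z (update ω e y))))) ^ 2
            ≤ if e ∈ F then ENNReal.ofReal (c * y ^ 2) else 0 := by
          intro y
          have h3 := hF e y
          set d := (if e ∈ F then max y 0 else 0) with hd
          have hd0 : 0 ≤ d := by rw [hd]; split_ifs <;> simp
          have h4 : Real.exp (-(l / 2 * Z ω)) - Real.exp (-(l / 2 * Z (update ω e y)))
              ≤ Real.exp (-(l / 2 * Z ω)) * (l / 2 * d) := by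
            have h5 : Real.exp (-(l / 2 * Z ω)) * Real.exp (-(l / 2 * d))
                ≤ Real.exp (-(l / 2 * Z (update ω e y))) := by
              rw [← Real.exp_add, Real.exp_le_exp]; nlinarith
            have h6 := Real.add_one_le_exp (-(l / 2 * d))
            have h7 := Real.exp_pos (-(l / 2 * Z ω))
            nlinarith
          rw [← ENNReal.ofReal_sub _ (Real.exp_pos _).le]
          calc _ ≤ ENNReal.ofReal (Real.exp (-(l / 2 * Z ω)) * (l / 2 * d)) ^ 2 :=
                pow_le_pow_left' (ENNReal.ofReal_le_ofReal h4) 2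
            _ = ENNReal.ofReal (c * d ^ 2) := by
                rw [← ENNReal.ofReal_pow (by positivity), mul_pow, ← Real.exp_nat_mul, hc]
                congr 1
                have : ((2 : ℕ) : ℝ) * -(l / 2 * Z ω) = -(l * Z ω) := by push_cast; ring
                rw [this]; ring
            _ ≤ _ := by
                rw [hd]
                split_ifs
                · refine ENNReal.ofReal_le_ofReal (mul_le_mul_of_nonneg_left ?_ hc0)
                  rcases le_total y 0 with h | h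
                  · rw [max_eq_right h]; nlinarith [sq_nonneg y]
                  · rw [max_eq_left h]
                · simp
        refine (lintegral_mono h2).trans ?_
        split_ifs
        · rw [← ofReal_integral_eq_lintegral_ofReal (hν.const_mul c)
            (Filter.Eventually.of_forall fun y => by positivity), integral_const_mul]
        · simp
      calc _ ≤ ∑ e ∈ S, (if e ∈ F then ENNReal.ofReal (c * m2) else 0) :=
            Finset.sum_le_sum fun e _ => h1 e
        _ ≤ ∑ e ∈ F, ENNReal.ofReal (c * m2) := by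
            rw [← Finset.sum_filter]
            exact Finset.sum_le_sum_of_subset fun e he => (Finset.mem_filter.1 he).2
        _ ≤ K * ENNReal.ofReal (c * m2) := by
            rw [Finset.sum_const, nsmul_eq_mul]; gcongr
        _ = _ := by
            rw [← ENNReal.ofReal_mul (by positivity), ← ENNReal.ofReal_natCast,
              ← ENNReal.ofReal_mul (by positivity), hc]
            congr 1; ring
    have h8 := hES.trans (add_le_add le_rfl (lintegral_mono hpt))
    rw [lintegral_const_mul _ (by fun_prop), hof l hl, ← ENNReal.ofReal_pow (hpos _ hl2),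
      ← ENNReal.ofReal_mul (by positivity),
      ← ENNReal.ofReal_add (by positivity) (mul_nonneg (by positivity) (hpos l hl))] at h8
    exact (ENNReal.ofReal_le_ofReal_iff
      (add_nonneg (by positivity) (mul_nonneg (by positivity) (hpos l hl)))).1 h8
  obtain ⟨k, hk⟩ := pow_unbounded_of_one_lt (l ^ 2 * q) (by norm_num : (1 : ℝ) < 2)
  have hit := iter_bound H m q (K * m2) (by positivity) hpos h0 hs k l hl hlK
  have hk' : l ^ 2 * q / 2 ^ k ≤ 1 := by
    rw [div_le_one (by positivity)]; exact hk.le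
  have hmk := mul_meas_ge_le_integral_of_nonneg (μ := PP ι ν)
    (f := fun ω => Real.exp (-(l * Z ω))) (Filter.Eventually.of_forall fun ω => (Real.exp_pos _).le)
    (hint l hl) (Real.exp (-(l * (m - s))))
  have hsub : (PP ι ν).real {ω | Z ω ≤ m - s}
      ≤ (PP ι ν).real {ω | Real.exp (-(l * (m - s))) ≤ Real.exp (-(l * Z ω))} := by
    refine measureReal_mono (fun ω hω => ?_)
    simp only [Set.mem_ofPred_eq] at hω ⊢
    rw [Real.exp_le_exp]; nlinarith
  have h9 : Real.exp (-(l * (m - s))) * (PP ι ν).real {ω | Z ω ≤ m - s}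
      ≤ Real.exp (-(l * (m - s))) * Real.exp (2 - l * s) := by
    calc _ ≤ _ := mul_le_mul_of_nonneg_left hsub (Real.exp_pos _).le
      _ ≤ H l := hmk
      _ ≤ _ := hit
      _ ≤ _ := by rw [← Real.exp_add, Real.exp_le_exp]; linarith
  exact le_of_mul_le_mul_left h9 (Real.exp_pos _)

end Pool.Agent.P.MP_dcd5d0_pr
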