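import Pool.Agent.P.MP_dcd5d0_pr.Grid3

/-! Choice of the scales: two corner directions on one flat edge are impossible. -/

set_option autoImplicit false

open MeasureTheory ProbabilityTheory Finset Function Filter Topology
open scoped ENNReal

namespace Pool.Agent.P.MP_dcd5d0_pr

variable {ν : Measure ℝ} {A B : V →+ ℝ} {U U' : ℝ → V} {κ c : ℝ}

lemma fam_ok (G : Geo ν A B U κ c) (G' : Geo ν B A U' κ c) {W N : ℝ} {M K : ℕ} (hc : c ≤ W)
    (hN : N = (M + 1) * (10 * W))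
    (hne : ∀ j : ℕ, j ≤ M → (Cls K (LaneP A B (U' (j * (10 * W))) (U' (j * (10 * W)) + U N) W)).Nonempty) :
    Fam A B (fun j => U' (j * (10 * W))) (fun j => U' (j * (10 * W)) + U N)
      (fun j => Cls K (LaneP A B (U' (j * (10 * W))) (U' (j * (10 * W)) + U N) W)) M W := by
  intro j _ h2
  refine ⟨hne j h2, fun l hl => (mem_Cls.1 hl).2, (G'.hUB _).trans hc, (G'.hUA _).trans hc, ?_⟩
  have e1 := abs_le.1 (G'.hUB (j * (10 * W)))
  have e2 := abs_le.1 (G.hUA N)
  rw [map_add, ← hN, abs_le]; constructor <;> linarith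

lemma row_num (G : Geo ν A B U κ c) (G' : Geo ν B A U' κ c) {y N C C0 s z : ℝ}
    (h1 : z ≤ N + C * s) (h2 : hh ν (U' y) ≤ y + C0 * s) :
    z + hh ν (U' y) - hh ν (U' y + U N) ≤ C * s + C0 * s + 4 * c := by
  have e1 := abs_le.1 (G'.hUB y)
  have e2 := abs_le.1 (G'.hUA y)
  have e3 := abs_le.1 (G.hUA N)
  have e4 := abs_le.1 (G.hUB N)
  have e5 := G.low (U' y + U N)
  have e6 := mul_le_mul_of_nonneg_left (le_abs_self (B (U' y + U N))) G.k0.le
  simp only [map_add] at e5 e6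
  linarith

theorem core [IsProbabilityMeasure ν] (hν : Integrable (fun y => y ^ 2) ν) {r1 r2 : ℝ}
    (hr1 : 0 ≤ r1) (h12 : r1 < r2) (hp : 0 < ν.real (Set.Iic r1))
    (hr : ν.real (Set.Iic r2) ≤ 1 / 1024) (G : Geo ν A B U κ c) (G' : Geo ν B A U' κ c)
    (inj : ∃ u v : Fin 2 → ℝ, ∀ (z : V) (i : Fin 2), (z i : ℝ) = A z * u i + B z * v i) :
    False := by
  have hr0 : 0 < r2 := by linarith
  have hc := G.c1
  have hκ := G.k0
  set p := ν.real (Set.Iic r1) with hpd
  obtain ⟨C1, hC1, e1⟩ := lane_mean hν hr0 hr G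
  obtain ⟨C2, hC2, e2⟩ := lane_mean hν hr0 hr G'
  obtain ⟨C3, hC3, e3⟩ := corner_bound hν hr0 hr G
  obtain ⟨C4, hC4, e4⟩ := corner_bound hν hr0 hr G'
  obtain ⟨t0, ht0⟩ := eventually_atTop.1 (e1.and (e2.and (e3.and (e4.and
    ((BadT_small hν hr0 hr (21 * c) (by linarith) 4).and ((BadQ_small hr 4).and
    (small_exp 48 (1 / 2) 1 (by norm_num) one_pos 24)))))))
  set C := C1 + C2 + C3 + C4 with hC
  set C6 := (40 * C + 2 * c + 8) / κ + 1 with hC6
  have hC60 : 0 ≤ (40 * C + 2 * c + 8) / κ := by positivity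
  have hrr : 0 < r2 - r1 := by linarith
  have q1 : 0 < 48 / (r2 - r1) := by positivity
  have q2 : 0 < 2 / p := by positivity
  have q3 : 0 < 560 * c ^ 2 / p ^ 2 := by positivity
  have q4 : 0 < 46 * c / κ := by positivity
  have q5 : 0 ≤ 3 * c ^ 2 := by positivity
  obtain ⟨n, hn⟩ := exists_nat_ge (|t0| + 3200 + 3 * c ^ 2 + 48 / (r2 - r1) + 2 / p
    + 560 * c ^ 2 / p ^ 2 + 46 * c / κ + 4 * (110 * (80 * C + 4 * c) + 19 * C6))
  set x : ℝ := (n : ℝ) with hx
  have q0 := abs_nonneg t0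
  have x0 : t0 ≤ x := by linarith [le_abs_self t0]
  have x1 : 3200 ≤ x := by linarith
  have x2 : 3 * c ^ 2 ≤ x := by linarith
  have x3 : 48 / (r2 - r1) ≤ x := by linarith
  have x4 : 2 / p ≤ x := by linarith
  have x5 : 560 * c ^ 2 / p ^ 2 ≤ x := by linarith
  have x6 : 46 * c / κ ≤ x := by linarith
  have x7 : 4 * (110 * (80 * C + 4 * c) + 19 * C6) < x := by linarith
  have x8 : 40 * C ≤ x := by linarith
  have x9 : 2 * c ≤ x := by linarith
  clear hn
  have hx1 : 1 ≤ x := by linarith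
  have hx0 : 0 < x := by linarith
  have pw : ∀ a b : ℕ, a ≤ b → x ^ a ≤ x ^ b := fun a b h => pow_le_pow_right₀ hx1 h
  have pw1 : ∀ a : ℕ, 1 ≤ x ^ a := fun a => one_le_pow₀ hx1
  have pwx : ∀ a : ℕ, 1 ≤ a → x ≤ x ^ a := fun a h => le_self_pow₀ hx1 (by omega)
  have ab : ∀ (y : ℝ) (a b : ℕ), y ≤ x → a + 1 ≤ b → y * x ^ a ≤ x ^ b := by
    intro y a b h1 h2
    refine le_trans ?_ (pw _ _ h2)
    rw [pow_succ, mul_comm]
    exact mul_le_mul_of_nonneg_left h1 (by positivity)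
  set W := x ^ 100 with hW
  set N := (((n ^ 94 + 2 : ℕ) : ℝ) + 1) * (10 * W) with hN
  have hM : ((n ^ 94 + 2 : ℕ) : ℝ) + 1 ≤ 4 * x ^ 94 := by
    push_cast; linarith [pw1 94]
  have hM' : 1 ≤ ((n ^ 94 + 2 : ℕ) : ℝ) + 1 := by
    have : (0 : ℝ) ≤ ((n ^ 94 + 2 : ℕ) : ℝ) := by positivity
    linarith
  have hW0 : 0 < W := by positivity
  have hxW : x ≤ W := pwx 100 (by omega)
  have hN1 : N ≤ 40 * x ^ 194 := by
    calc N ≤ 4 * x ^ 94 * (10 * W) := by rw [hN]; gcongr
      _ = _ := by rw [hW]; ring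
  have hN2 : W ≤ N := by
    have := mul_le_mul_of_nonneg_right hM' (show 0 ≤ 10 * W by positivity)
    linarith
  have hN0 : 0 < N := by linarith
  set s := N ^ th with hs
  have hs0 : 0 ≤ s := by positivity
  have hs1 : s ≤ 40 * x ^ 99 := by
    refine rpow_th_le hN0.le (by positivity) ((pow_le_pow_left₀ hN0.le hN1 51).trans ?_)
    rw [mul_pow, mul_pow, ← pow_mul, ← pow_mul]
    exact mul_le_mul (by norm_num) (pw _ _ (by norm_num)) (by positivity) (by positivity)
  have hCs : C * s ≤ W := by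
    calc C * s ≤ C * (40 * x ^ 99) := by gcongr
      _ = 40 * C * x ^ 99 := by ring
      _ ≤ W := ab _ _ _ x8 (by norm_num)
  obtain ⟨⟨K1, hK1, l1⟩, ⟨K2, hK2, l2⟩, _⟩ := ht0 N (by linarith)
  have hy : ∀ j : ℕ, j ≤ n ^ 94 + 2 → 0 ≤ j * (10 * W) ∧ j * (10 * W) ≤ N := by
    intro j hj
    have : (j : ℝ) ≤ ((n ^ 94 + 2 : ℕ) : ℝ) := by exact_mod_cast hj
    exact ⟨by positivity, by rw [hN]; gcongr; linarith⟩
  have hnorm : ∀ y, 0 ≤ y → y ≤ N → c * (y + 2 * c) ≤ N ^ 2 := by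
    intro y _ h2
    have a1 : c * (y + 2 * c) ≤ c * (c * N + 2 * c * N) := by
      have : N ≤ c * N := le_mul_of_one_le_left hN0.le hc
      have : 2 * c ≤ 2 * c * N := le_mul_of_one_le_right (by linarith) (by linarith)
      gcongr; linarith
    have a2 : 3 * c ^ 2 * N ≤ N * N := mul_le_mul_of_nonneg_right (by linarith) hN0.le
    linarith
  have n1 : ∀ j : ℕ, j ≤ n ^ 94 + 2 → ‖U' (j * (10 * W))‖ ≤ N ^ 2 := fun j hj =>
    (G'.normU _ (hy j hj).1).trans (hnorm _ (hy j hj).1 (hy j hj).2)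
  have n2 : ∀ j : ℕ, j ≤ n ^ 94 + 2 → ‖U (j * (10 * W))‖ ≤ N ^ 2 := fun j hj =>
    (G.normU _ (hy j hj).1).trans (hnorm _ (hy j hj).1 (hy j hj).2)
  have w1 : C1 * s ≤ C * s := mul_le_mul_of_nonneg_right (by linarith) hs0
  have w2 : C2 * s ≤ C * s := mul_le_mul_of_nonneg_right (by linarith) hs0
  have L1 := fun j hj => l1 _ (n1 j hj) W (w1.trans hCs)
  have L2 := fun j hj => l2 _ (n2 j hj) W (w2.trans hCs)
  set g : GD := ⟨fun j => U' (j * (10 * W)), fun j => U' (j * (10 * W)) + U N,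
    fun j => U (j * (10 * W)), fun j => U (j * (10 * W)) + U' N,
    fun j => Cls K1 (LaneP A B (U' (j * (10 * W))) (U' (j * (10 * W)) + U N) W),
    fun j => Cls K2 (LaneP B A (U (j * (10 * W))) (U (j * (10 * W)) + U' N) W),
    n ^ 94 + 2, W⟩ with hg
  have o : g.Ok A B := ⟨hW0, fam_ok G G' (by linarith) hN (fun j hj => (L1 j hj).1),
    fam_ok G' G (by linarith) hN (fun j hj => (L2 j hj).1), inj⟩
  set R := ⌈2 * N ^ 2⌉₊ with hR
  have hR1 : 2 * N ^ 2 ≤ R := Nat.le_ceil _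
  have hR2 : (R : ℝ) ≤ x ^ 396 := by
    have a1 := Nat.ceil_lt_add_one (a := 2 * N ^ 2) (by positivity)
    have a2 : N ^ 2 ≤ (40 * x ^ 194) ^ 2 := pow_le_pow_left₀ hN0.le hN1 2
    have a3 : (40 * x ^ 194) ^ 2 = 1600 * x ^ 388 := by ring
    have a4 := ab 3200 388 389 x1 le_rfl
    have a5 := ab 2 389 396 (by linarith) (by norm_num)
    have a6 := pw1 389
    linarith
  set D := ⌈20 * c * W⌉₊ with hD
  have hD1 : 20 * c * W ≤ D := Nat.le_ceil _
  have hD2 : (D : ℝ) ≤ 21 * c * W := by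
    have a1 := Nat.ceil_lt_add_one (a := 20 * c * W) (by positivity)
    have : 1 ≤ c * W := one_le_mul_of_one_le_of_one_le hc (by linarith)
    linarith
  have bT := (ht0 W (by linarith)).2.2.2.2.1 R D
    (hR2.trans (by rw [hW, ← pow_mul]; exact pw _ _ (by norm_num))) hD2
  have bQ := (ht0 (x ^ 99) (x0.trans (pwx 99 (by omega)))).2.2.2.2.2.1 R (n ^ 99)
    (hR2.trans (by rw [← pow_mul])) (by push_cast; exact le_rfl)
  have bE := (ht0 x x0).2.2.2.2.2.2
  have sL : W ^ th ≤ x ^ 51 :=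
    rpow_th_le hW0.le (by positivity) (by rw [hW, ← pow_mul, ← pow_mul])
  have hRl : ∀ j, j ≤ n ^ 94 + 2 → ∀ l ∈ g.CH j, ‖g.xH j‖ + l.length ≤ R := by
    intro j hj l hl
    have a1 : (l.length : ℝ) ≤ K1 := by exact_mod_cast (mem_Cls.1 hl).1
    have a2 := n1 j hj
    show ‖U' (j * (10 * W))‖ + l.length ≤ R
    linarith
  have cor : ∀ j : ℕ, 1 ≤ j → j ≤ n ^ 94 + 2 →
      hh ν (U (j * (10 * W))) ≤ j * (10 * W) + C * s ∧
      hh ν (U' (j * (10 * W))) ≤ j * (10 * W) + C * s := by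
    intro j h1 h2
    have a0 : (1 : ℝ) ≤ j := by exact_mod_cast h1
    have a1 : t0 ≤ j * (10 * W) := by
      have := mul_le_mul_of_nonneg_right a0 (show 0 ≤ 10 * W by positivity)
      linarith
    obtain ⟨_, _, b1, b2, _⟩ := ht0 _ a1
    have a2 : (j * (10 * W)) ^ th ≤ s :=
      Real.rpow_le_rpow (hy j h2).1 (hy j h2).2 (by unfold th; norm_num)
    have a3 : C3 * (j * (10 * W)) ^ th ≤ C * s :=
      mul_le_mul (by linarith) a2 (Real.rpow_nonneg (hy j h2).1 _) (by linarith)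
    have a4 : C4 * (j * (10 * W)) ^ th ≤ C * s :=
      mul_le_mul (by linarith) a2 (Real.rpow_nonneg (hy j h2).1 _) (by linarith)
    constructor <;> linarith
  have hnum : (C * s + C * s + 4 * c) / x ^ 6 ≤ (80 * C + 4 * c) * x ^ 93 := by
    rw [div_le_iff₀ (by positivity)]
    have a1 : C * s ≤ C * (40 * x ^ 99) := by gcongr
    have a2 : 4 * c ≤ 4 * c * x ^ 99 := le_mul_of_one_le_right (by linarith) (pw1 99)
    have a3 : (80 * C + 4 * c) * x ^ 93 * x ^ 6 = 2 * (C * (40 * x ^ 99)) + 4 * c * x ^ 99 := by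
      ring
    linarith
  have fin := grid_sum (fun i j => (PP Ed ν).real (g.EH (x ^ 6) i j))
    (fun i j => (PP Ed ν).real (g.EV (x ^ 6) i j))
    (fun i j => (PP Ed ν).real (g.EX B (x ^ 76) i j)) (fun _ _ => measureReal_nonneg)
    (fun _ _ => measureReal_nonneg) (fun _ _ => measureReal_nonneg) (n ^ 94)
    ((80 * C + 4 * c) * x ^ 93) (C6 * x ^ 69) (3 * (6 * x ^ 24) + 1) (by positivity)
    (fun j j1 j2 => by
      obtain ⟨f1, f2, _⟩ := o.fH j j1 j2
      refine (row_exc hν hW0 f1 f2 (fun i => g.kH_DM j i) (o.marksH j1 j2)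
        (by positivity)).trans (le_trans ?_ hnum)
      refine div_le_div_of_nonneg_right ?_ (by positivity)
      exact row_num G G' ((L1 j j2).2.trans (by linarith)) (cor j j1 j2).2)
    (fun j j1 j2 => by
      obtain ⟨f1, f2, _⟩ := o.fV j j1 j2
      refine (row_exc hν hW0 f1 f2 (fun i => g.kV_DM j i) (o.marksV j1 j2)
        (by positivity)).trans (le_trans ?_ hnum)
      refine div_le_div_of_nonneg_right ?_ (by positivity)
      exact row_num G' G ((L2 j j2).2.trans (by linarith)) (cor j j1 j2).1)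
    (fun j j1 j2 => by
      obtain ⟨f1, f2, _⟩ := o.fH j j1 j2
      refine (row_ext hν G hW0 f1 f2 (fun i => g.kH_DM j i) (o.marksH j1 j2)
        (h := x ^ 76) (by positivity) (hRl j j2) hD1 (s := W ^ th) (by positivity)).trans ?_
      have a0 : g.yH j - g.xH j = U N := add_sub_cancel_left _ _
      rw [a0]
      have a1 := abs_le.1 (G.phiU N)
      have a2 : ∫ ω, Zc (g.CH j) (g.xH j) ω ∂(PP Ed ν) ≤ N + C1 * s := (L1 j j2).2
      have a3 : ((g.M : ℝ) + 1) ≤ 4 * x ^ 94 := hM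
      have a4 : 2 * ((g.M : ℝ) + 1) * W ^ th ≤ 2 * (4 * x ^ 94) * x ^ 51 := by gcongr
      have a5 : C * s ≤ C * (40 * x ^ 145) := by gcongr; linarith [pw 99 145 (by norm_num)]
      have a6 : 2 * c ≤ 2 * c * x ^ 145 := le_mul_of_one_le_right (by linarith) (pw1 145)
      have b1 : (∫ ω, Zc (g.CH j) (g.xH j) ω ∂(PP Ed ν) - (A (U N) + (1 - κ) * B (U N))
          + 2 * (g.M + 1) * W ^ th) / (κ * x ^ 76) ≤ (40 * C + 2 * c + 8) / κ * x ^ 69 := by
        rw [div_le_iff₀ (by positivity)]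
        have : (40 * C + 2 * c + 8) / κ * x ^ 69 * (κ * x ^ 76)
            = C * (40 * x ^ 145) + 2 * c * x ^ 145 + 2 * (4 * x ^ 94) * x ^ 51 := by
          field_simp; ring
        linarith
      have b2 : (A (U N) + (1 - κ) * B (U N)) / (κ * x ^ 76) + (g.M + 1) ≤ W ^ 4 := by
        have c1 : (A (U N) + (1 - κ) * B (U N)) / (κ * x ^ 76) ≤ 42 * c / κ * x ^ 194 := by
          rw [div_le_iff₀ (by positivity)]
          have d1 : 42 * c / κ * x ^ 194 * (κ * x ^ 76) = 42 * (c * x ^ 194) * x ^ 76 := by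
            field_simp
          have d2 : 42 * (c * x ^ 194) ≤ 42 * (c * x ^ 194) * x ^ 76 :=
            le_mul_of_one_le_right (by positivity) (pw1 76)
          have d3 : x ^ 194 ≤ c * x ^ 194 := le_mul_of_one_le_left (by positivity) hc
          have d4 : c ≤ c * x ^ 194 := le_mul_of_one_le_right (by linarith) (pw1 194)
          linarith
        have c2 : 4 * x ^ 94 ≤ 4 * c / κ * x ^ 194 := by
          refine mul_le_mul ?_ (pw _ _ (by norm_num)) (by positivity) (by positivity)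
          rw [le_div_iff₀ hκ]; linarith [G.k1]
        have c3 := ab _ 194 400 x6 (by norm_num)
        have c4 : 46 * c / κ * x ^ 194 = 42 * c / κ * x ^ 194 + 4 * c / κ * x ^ 194 := by ring
        rw [hW, ← pow_mul]
        linarith
      have b3 := mul_le_mul_of_nonneg_right b2
        (measureReal_nonneg (μ := PP Ed ν) (s := BadT ν R D (W ^ th)))
      have b4 := pw1 69
      rw [hC6]
      linarith)
    (fun i j i1 i2 j1 j2 => by
      have hε : (x ^ 89)⁻¹ * (((n ^ 99 : ℕ) : ℝ) / 2) / 4 = x ^ 10 / 8 := by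
        push_cast; rw [← hx]; field_simp; norm_num
      refine block_prob G o (ε := (x ^ 89)⁻¹) (m := n) (n := n ^ 99) (R := R)
        (η := Real.exp (-(1 / 2 * x))) hr1 h12 hp (by positivity) ?_ (by positivity) ?_ ?_
        (by positivity) (pw _ _ (by norm_num)) ?_ ?_ ?_ ?_ i1 i2 j1 j2 (hRl _ (by omega))
      · rw [← hx, ← div_eq_mul_inv, div_le_iff₀ (by positivity), ← hpd]
        rw [div_le_iff₀ hp] at x4
        have a1 : p * (x * x ^ 1) ≤ p * x ^ 89 :=
          mul_le_mul_of_nonneg_left (ab x 1 89 le_rfl (by norm_num)) hp.le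
        have a2 := mul_le_mul_of_nonneg_right x4 hx0.le
        rw [pow_one] at a1
        linarith
      · rw [hε]
        rw [div_le_iff₀ hrr] at x3
        have a1 : (r2 - r1) * (x * x ^ 6) ≤ (r2 - r1) * x ^ 10 :=
          mul_le_mul_of_nonneg_left (ab x 6 10 le_rfl (by norm_num)) hrr.le
        have a2 := mul_le_mul_of_nonneg_right x3 (show 0 ≤ x ^ 6 by positivity)
        linarith
      · rw [hε]; linarith [pwx 10 (by norm_num)]
      · push_cast
        rw [← hx]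
        have a1 := ab _ 99 100 x9 le_rfl
        have a2 : c ≤ c * x ^ 99 := le_mul_of_one_le_right (by linarith) (pw1 99)
        show c * (x ^ 99 + 1) ≤ x ^ 100
        linarith
      · rw [Real.exp_le_exp, ← hx, ← hpd]
        have a1 : 4 * c * W + 1 ≤ 5 * c * W := by
          have : 1 ≤ c * W := one_le_mul_of_one_le_of_one_le hc (by linarith)
          linarith
        have a2 : 6 * c * x ^ 76 + 1 ≤ 7 * c * x ^ 76 := by
          have : 1 ≤ c * x ^ 76 := one_le_mul_of_one_le_of_one_le hc (pw1 76)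
          linarith
        have a3 : x + 1 ≤ 2 * x := by linarith
        have a4 : 2 * ((4 * c * W + 1) * (6 * c * x ^ 76 + 1)) * ((x + 1) * (x ^ 89)⁻¹ / p) ^ 2
            ≤ 2 * ((5 * c * W) * (7 * c * x ^ 76)) * ((2 * x) * (x ^ 89)⁻¹ / p) ^ 2 := by
          gcongr
        have a5 : 2 * ((5 * c * W) * (7 * c * x ^ 76)) * ((2 * x) * (x ^ 89)⁻¹ / p) ^ 2
            = 560 * c ^ 2 / p ^ 2 / 2 := by
          rw [hW]; field_simp; norm_num
        show 2 * ((4 * c * W + 1) * (6 * c * x ^ 76 + 1)) * ((x + 1) * (x ^ 89)⁻¹ / p) ^ 2 - x ≤ _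
        linarith
      · show 4 * W / x ^ 76 + 2 ≤ 6 * x ^ 24
        have : 4 * W / x ^ 76 = 4 * x ^ 24 := by rw [hW]; field_simp
        linarith [pw1 24]
      · rw [Real.rpow_one] at bE
        have a1 : 4 ≤ (x ^ 99) ^ 4 := by
          rw [← pow_mul]; linarith [pwx (99 * 4) (by norm_num)]
        have a2 := mul_le_mul_of_nonneg_left a1
          (measureReal_nonneg (μ := PP Ed ν) (s := BadQ r2 R (n ^ 99)))
        linarith)
    (Nat.one_le_pow _ _ (by
      have : (0 : ℝ) < n := hx0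
      exact_mod_cast this))
  push_cast at fin
  rw [← hx] at fin
  have f1 : (3 * (6 * x ^ 24) + 1) * (C6 * x ^ 69) ≤ (19 * x ^ 24) * (C6 * x ^ 69) := by
    refine mul_le_mul_of_nonneg_right (by linarith [pw1 24]) (by positivity)
  have f2 := mul_lt_mul_of_pos_right x7 (show 0 < x ^ 93 by positivity)
  have f3 : x * x ^ 93 = x ^ 94 := by ring
  have f4 : (19 * x ^ 24) * (C6 * x ^ 69) = 19 * C6 * x ^ 93 := by ring
  linarith

end Pool.Agent.P.MP_dcd5d0_pr
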