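import Mathlib

/-! Convex geometry of a sublinear function on the plane. -/

set_option autoImplicit false

open Filter Topology

namespace Pool.Agent.P.MP_dcd5d0_pr

/-- subadditive and positively homogeneous -/
structure Sub (g : (Fin 2 → ℝ) → ℝ) : Prop where
  add : ∀ x y, g (x + y) ≤ g x + g y
  smul : ∀ a : ℝ, 0 < a → ∀ x, g (a • x) = a * g x

variable {g : (Fin 2 → ℝ) → ℝ}

lemma Sub.zero (S : Sub g) : g 0 = 0 := by
  have := S.smul 2 two_pos 0
  rw [smul_zero] at this; linarith

lemma Sub.smul' (S : Sub g) {a : ℝ} (ha : 0 ≤ a) (x : Fin 2 → ℝ) : g (a • x) = a * g x := by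
  rcases eq_or_lt_of_le ha with h | h
  · rw [← h, zero_smul, zero_mul, S.zero]
  · exact S.smul a h x

lemma Sub.comb (S : Sub g) {a b : ℝ} (ha : 0 ≤ a) (hb : 0 ≤ b) (x y : Fin 2 → ℝ) :
    g (a • x + b • y) ≤ a * g x + b * g y := by
  rw [← S.smul' ha, ← S.smul' hb]; exact S.add _ _

lemma Sub.cone (S : Sub g) {u v : Fin 2 → ℝ} (h : ∀ z ∈ segment ℝ u v, g z = 1) {a b : ℝ}
    (ha : 0 ≤ a) (hb : 0 ≤ b) : g (a • u + b • v) = a + b := by
  rcases eq_or_lt_of_le (add_nonneg ha hb) with h0 | h0
  · have h1 : a = 0 := by linarith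
    have h2 : b = 0 := by linarith
    simp [h1, h2, S.zero]
  · have e : a • u + b • v = (a + b) • ((a / (a + b)) • u + (b / (a + b)) • v) := by
      rw [smul_add, smul_smul, smul_smul, mul_div_cancel₀ _ h0.ne', mul_div_cancel₀ _ h0.ne']
    rw [e, S.smul _ h0, h _ ⟨_, _, by positivity, by positivity, by field_simp, rfl⟩, mul_one]

lemma Sub.det (S : Sub g) {u v : Fin 2 → ℝ} (huv : u ≠ v) (h : ∀ z ∈ segment ℝ u v, g z = 1) :
    u 0 * v 1 - u 1 * v 0 ≠ 0 := by
  intro hd
  have hu := h u (left_mem_segment ℝ u v)
  have hv := h v (right_mem_segment ℝ u v)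
  have : ∃ a : ℝ, v = a • u := by
    by_cases h0 : u 0 = 0
    · by_cases h1 : u 1 = 0
      · have : u = 0 := by ext i; fin_cases i <;> simp [h0, h1]
        rw [this, S.zero] at hu; norm_num at hu
      · refine ⟨v 1 / u 1, ?_⟩
        ext i; fin_cases i
        · simp; field_simp; linarith
        · simp; field_simp
    · refine ⟨v 0 / u 0, ?_⟩
      ext i; fin_cases i
      · simp; field_simp
      · simp; field_simp; linarith
  obtain ⟨a, rfl⟩ := this
  rcases lt_or_ge 0 a with ha | ha
  · rw [S.smul a ha, hu, mul_one] at hv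
    exact huv (by rw [hv, one_smul])
  · have := S.cone h (a := -a) (b := 1) (by linarith) zero_le_one
    rw [one_smul, ← add_smul, neg_add_cancel, zero_smul, S.zero] at this
    linarith

lemma Sub.corner (S : Sub g) {u v : Fin 2 → ℝ} (h : ∀ z ∈ segment ℝ u v, g z = 1)
    (α β : (Fin 2 → ℝ) →L[ℝ] ℝ) (hz : ∀ z, z = α z • u + β z • v) (αu : α u = 1) (βu : β u = 0)
    (hd : ¬ DifferentiableAt ℝ g u) :
    ∃ κ : ℝ, 0 < κ ∧ κ ≤ 1 ∧ ∀ z, α z + (1 - κ) * β z + κ * |β z| ≤ g z := by
  have hu := h u (left_mem_segment ℝ u v)
  have low : ∀ z, α z + β z ≤ g z := by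
    intro z
    set R := |α z| + |β z| with hR
    have a1 := neg_abs_le (α z)
    have a2 := neg_abs_le (β z)
    have a3 := abs_nonneg (α z)
    have a4 := abs_nonneg (β z)
    have e1 := S.cone h (a := α z + R) (b := β z + R) (by linarith) (by linarith)
    have e2 := S.cone h (a := R) (b := R) (by linarith) (by linarith)
    have e3 : (α z + R) • u + (β z + R) • v = z + (R • u + R • v) := by
      conv_rhs => rw [hz z]
      module
    have e4 := S.add z (R • u + R • v)
    rw [e3] at e1
    linarith
  have hex : ∃ k : ℝ, 0 < k ∧ ∀ t : ℝ, 0 < t → 1 + k * t ≤ g (u + t • (u - v)) := by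
    by_contra hc
    push Not at hc
    refine hd (HasFDerivAt.differentiableAt (f' := α + β) ?_)
    rw [hasFDerivAt_iff_isLittleO, Asymptotics.isLittleO_iff]
    intro η hη
    set k := η / (‖β‖ + 1) with hk
    have hk0 : 0 < k := by positivity
    obtain ⟨t0, ht0, h0⟩ := hc k hk0
    have c1 : ∀ᶠ z in 𝓝 u, 0 < α z :=
      α.continuous.continuousAt.eventually (lt_mem_nhds (by rw [αu]; norm_num))
    have c2 : ∀ᶠ z in 𝓝 u, 0 < α z + β z :=
      (α.continuous.add β.continuous).continuousAt.eventually
        (lt_mem_nhds (by simp [αu, βu]))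
    have c3 : ∀ᶠ z in 𝓝 u, 0 < t0 * (α z + β z) + β z :=
      (((α.continuous.add β.continuous).const_mul t0).add β.continuous).continuousAt.eventually
        (lt_mem_nhds (by simp [αu, βu, ht0]))
    filter_upwards [c1, c2, c3] with z z1 z2 z3
    have up : g z ≤ α z + β z + k * |β z| := by
      rcases le_or_gt 0 (β z) with hb | hb
      · have := S.cone h z1.le hb
        rw [← hz z] at this
        have : 0 ≤ k * |β z| := by positivity
        linarith
      · have e1 : z = (α z + β z + β z / t0) • u + (-β z / t0) • (u + t0 • (u - v)) := by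
          conv_lhs => rw [hz z]
          rw [smul_add, smul_smul, div_mul_cancel₀ _ ht0.ne']
          module
        have e2 : 0 ≤ α z + β z + β z / t0 := by
          have : α z + β z + β z / t0 = (t0 * (α z + β z) + β z) / t0 := by field_simp
          rw [this]; positivity
        have e3 : 0 ≤ -β z / t0 := div_nonneg (by linarith) ht0.le
        have e4 := S.comb e2 e3 u (u + t0 • (u - v))
        rw [← e1, hu] at e4
        have e5 := mul_le_mul_of_nonneg_left h0.le e3
        have e6 : -β z / t0 * (1 + k * t0) = -(β z / t0) + k * -β z := by field_simp; ring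
        rw [abs_of_neg hb]
        linarith
    have e7 : |β z| ≤ ‖β‖ * ‖z - u‖ := by
      have := β.le_opNorm (z - u)
      rwa [map_sub, βu, sub_zero] at this
    have e8 : k * |β z| ≤ η * ‖z - u‖ := by
      calc k * |β z| ≤ k * ((‖β‖ + 1) * ‖z - u‖) := by
            refine mul_le_mul_of_nonneg_left (e7.trans ?_) hk0.le
            exact mul_le_mul_of_nonneg_right (by linarith) (norm_nonneg _)
        _ = η * ‖z - u‖ := by rw [hk]; field_simp
    have e9 := low z
    simp only [add_apply, map_sub, αu, βu, hu, Real.norm_eq_abs]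
    rw [abs_le]
    have : 0 ≤ η * ‖z - u‖ := by positivity
    constructor <;> linarith
  obtain ⟨k, hk, hk'⟩ := hex
  refine ⟨min (k / 2) 1, by positivity, min_le_right _ _, fun z => ?_⟩
  rcases le_or_gt 0 (β z) with hb | hb
  · rw [abs_of_nonneg hb]; linarith [low z]
  · set R := |α z + β z| + 1 with hR
    have a1 := neg_abs_le (α z + β z)
    have a2 := abs_nonneg (α z + β z)
    have hr : 0 < α z + β z + R := by linarith
    have e1 : z + R • u = (α z + β z + R) • (u + (-β z / (α z + β z + R)) • (u - v)) := by
      conv_lhs => rw [hz z]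
      rw [smul_add, smul_smul, mul_div_cancel₀ _ hr.ne']
      module
    have e2 := hk' (-β z / (α z + β z + R)) (div_pos (by linarith) hr)
    have e3 := S.add z (R • u)
    rw [e1, S.smul _ hr, S.smul R (by linarith), hu] at e3
    have e4 := mul_le_mul_of_nonneg_left e2 hr.le
    have e5 : (α z + β z + R) * (1 + k * (-β z / (α z + β z + R)))
        = α z + β z + R + k * -β z := by field_simp
    have e6 := mul_le_mul_of_nonneg_right (min_le_left (k / 2) 1) (show 0 ≤ -β z by linarith)
    rw [abs_of_neg hb]
    linarith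

lemma Sub.continuous (S : Sub g) {m : ℝ} (hm : ∀ x, g x ≤ m * ‖x‖) : Continuous g := by
  have key : ∀ x y, g x - g y ≤ |m| * ‖x - y‖ := by
    intro x y
    have h1 := S.add y (x - y)
    rw [add_sub_cancel] at h1
    have h2 := mul_le_mul_of_nonneg_right (le_abs_self m) (norm_nonneg (x - y))
    linarith [hm (x - y)]
  refine (LipschitzWith.of_dist_le_mul (K := ⟨|m|, abs_nonneg m⟩) fun x y => ?_).continuous
  rw [Real.dist_eq, dist_eq_norm, abs_le]
  have h1 := key x y
  have h2 := key y x
  rw [norm_sub_rev] at h2
  exact ⟨show -(|m| * ‖x - y‖) ≤ _ by linarith, h1⟩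

lemma Sub.mem_frontier (S : Sub g) {x : Fin 2 → ℝ} (hx : g x = 1) : x ∈ frontier {x | g x ≤ 1} := by
  refine ⟨subset_closure hx.le, fun hi => ?_⟩
  have h1 : Tendsto (fun t : ℝ => t • x) (𝓝[>] 1) (𝓝 x) := by
    have : Tendsto (fun t : ℝ => t • x) (𝓝 1) (𝓝 ((1 : ℝ) • x)) :=
      (continuous_id.smul continuous_const).tendsto 1
    rw [one_smul] at this
    exact this.mono_left nhdsWithin_le_nhds
  obtain ⟨t, h2, h3⟩ := ((h1.eventually (mem_interior_iff_mem_nhds.1 hi)).and
    self_mem_nhdsWithin).exists
  replace h3 : 1 < t := h3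
  have h4 : g (t • x) ≤ 1 := h2
  rw [S.smul t (by linarith), hx] at h4
  linarith

/-- If no boundary segment has two corners, the unit ball is not a polygon. -/
theorem Sub.infinite_extreme (S : Sub g) {m c : ℝ} (hm : ∀ x, g x ≤ m * ‖x‖) (hc : 0 < c)
    (hco : ∀ x, c * ‖x‖ ≤ g x)
    (H : ∀ u v, u ≠ v → segment ℝ u v ⊆ frontier {x | g x ≤ 1} →
      DifferentiableAt ℝ g u ∨ DifferentiableAt ℝ g v) :
    (Set.extremePoints ℝ {x | g x ≤ 1}).Infinite := by
  intro hF
  set F := Set.extremePoints ℝ {x | g x ≤ 1} with hFd
  have cont := S.continuous hm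
  have hconv : Convex ℝ {x | g x ≤ 1} := by
    intro x hx y hy a b ha hb hab
    have := S.comb ha hb x y
    have h1 := mul_le_mul_of_nonneg_left (show g x ≤ 1 from hx) ha
    have h2 := mul_le_mul_of_nonneg_left (show g y ≤ 1 from hy) hb
    show g _ ≤ 1
    linarith
  have hcomp : IsCompact {x | g x ≤ 1} := by
    refine Metric.isCompact_of_isClosed_isBounded (isClosed_le cont continuous_const) ?_
    refine (Metric.isBounded_closedBall (x := 0) (r := 1 / c)).subset fun x hx => ?_
    rw [mem_closedBall_zero_iff, le_div_iff₀ hc]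
    linarith [hco x, show g x ≤ 1 from hx]
  have hull : convexHull ℝ F = {x | g x ≤ 1} := by
    rw [← closure_convexHull_extremePoints hcomp hconv, (hF.isClosed_convexHull ℝ).closure_eq]
  have hF1 : ∀ x ∈ F, g x ≤ 1 := fun x hx => hx.1
  have nd : ∀ u ∈ F, g u = 1 → ¬ DifferentiableAt ℝ g u := by
    intro u hu hu1 hd
    set l := fderiv ℝ g u with hl
    have hder : ∀ w, Tendsto (fun t : ℝ => (g (u + t • w) - 1) / t) (𝓝[>] 0) (𝓝 (l w)) := by
      intro w
      have h1 : HasDerivAt (fun t : ℝ => u + t • w) w 0 := by
        simpa using ((hasDerivAt_id (0 : ℝ)).smul_const w).const_add u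
      have h2 : HasFDerivAt g l (u + (0 : ℝ) • w) := by simpa using hd.hasFDerivAt
      have h3 := (h2.comp_hasDerivAt (0 : ℝ) h1).tendsto_slope_zero_right
      refine h3.congr fun t => ?_
      simp [hu1, div_eq_inv_mul]
    have lg : ∀ w, l w ≤ g w := by
      intro w
      refine le_of_tendsto (hder w) ?_
      filter_upwards [self_mem_nhdsWithin] with t ht
      have ht : 0 < t := ht
      rw [div_le_iff₀ ht]
      have := S.add u (t • w)
      rw [S.smul t ht] at this
      linarith
    have lu : l u = 1 := by
      refine tendsto_nhds_unique (hder u) (tendsto_const_nhds.congr' ?_)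
      filter_upwards [self_mem_nhdsWithin] with t ht
      have ht : 0 < t := ht
      have : u + t • u = (1 + t) • u := by module
      rw [this, S.smul _ (by linarith), hu1]; field_simp; ring
    have side : ∀ w, l w = 0 → ∀ n : (Fin 2 → ℝ) →L[ℝ] ℝ, n w = 1 → n u = 0 →
        ∃ f ∈ F, l f = 1 ∧ 0 < n f := by
      intro w hw n n1 n2
      by_contra hcon
      push Not at hcon
      obtain ⟨K, hK⟩ := (hF.image (fun f => n f / (1 - l f))).bddAbove
      have hall : ∀ y ∈ convexHull ℝ F, n y + |K| * l y ≤ |K| := by
        refine convexHull_min (fun f hf => ?_)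
          (convex_halfSpace_le (f := fun y => n y + |K| * l y) ⟨fun x y => by simp; ring,
            fun a x => by simp; ring⟩ |K|)
        show n f + |K| * l f ≤ |K|
        have a1 : l f ≤ 1 := (lg f).trans (hF1 f hf)
        rcases eq_or_lt_of_le a1 with h | h
        · have := hcon f hf h
          rw [h]; linarith
        · have a2 : n f / (1 - l f) ≤ |K| := (hK ⟨f, hf, rfl⟩).trans (le_abs_self K)
          rw [div_le_iff₀ (by linarith)] at a2
          linarith
      have := ge_of_tendsto ((hder w).const_mul |K|) (b := 1) (by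
        filter_upwards [self_mem_nhdsWithin] with t ht
        have ht : 0 < t := ht
        have a1 : 1 ≤ g (u + t • w) := by
          have := lg (u + t • w)
          simpa [lu, hw] using this
        have a2 := hall ((g (u + t • w))⁻¹ • (u + t • w)) (by
          rw [hull]
          show g _ ≤ 1
          rw [S.smul _ (by positivity), inv_mul_cancel₀ (by positivity)])
        simp only [map_smul, map_add, n1, n2, lu, hw, smul_eq_mul, mul_one, mul_zero, add_zero,
          zero_add] at a2
        rw [← mul_div_assoc, le_div_iff₀ ht]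
        have a3 := mul_le_mul_of_nonneg_left a2 (show 0 ≤ g (u + t • w) by positivity)
        have a4 : g (u + t • w) * ((g (u + t • w))⁻¹ * t + |K| * (g (u + t • w))⁻¹) = t + |K| := by
          field_simp
        linarith)
      rw [hw] at this
      norm_num at this
    set p := l (Pi.single 0 1) with hp
    set q := l (Pi.single 1 1) with hq
    have lz : ∀ z : Fin 2 → ℝ, l z = z 0 * p + z 1 * q := by
      intro z
      have : z = z 0 • Pi.single 0 1 + z 1 • Pi.single 1 1 := by
        ext i; fin_cases i <;> simp
      conv_lhs => rw [this]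
      simp [hp, hq]
    set n : (Fin 2 → ℝ) →L[ℝ] ℝ := u 0 • ContinuousLinearMap.proj 1 - u 1 • ContinuousLinearMap.proj 0
      with hn
    have nz : ∀ z : Fin 2 → ℝ, n z = u 0 * z 1 - u 1 * z 0 := fun z => by simp [hn]
    have lu' := lz u
    rw [lu] at lu'
    obtain ⟨f1, hf1, a1, b1⟩ := side ![-q, p] (by rw [lz]; simp; ring) n
      (by rw [nz]; simp; linarith) (by rw [nz]; ring)
    obtain ⟨f2, hf2, a2, b2⟩ := side ![q, -p] (by rw [lz]; simp; ring) (-n)
      (by rw [neg_apply, nz]; simp; linarith)
      (by rw [neg_apply, nz]; ring)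
    rw [neg_apply] at b2
    have hs : 0 < n f1 - n f2 := by linarith
    have hseg : u ∈ openSegment ℝ f1 f2 := by
      refine ⟨-n f2 / (n f1 - n f2), n f1 / (n f1 - n f2), by positivity, by positivity,
        by field_simp; ring, ?_⟩
      rw [lz] at a1 a2
      have key : ∀ i, -n f2 * f1 i + n f1 * f2 i = (n f1 - n f2) * u i := by
        intro i
        rw [nz, nz]
        fin_cases i
        · simp only [Fin.zero_eta]
          linear_combination (u 0 * f2 1 - u 1 * f2 0) * (u 0 * a1 + f1 0 * lu') * (-1)
            + (u 0 * f1 1 - u 1 * f1 0) * (u 0 * a2 + f2 0 * lu')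
        · simp only [Fin.mk_one]
          linear_combination (u 0 * f2 1 - u 1 * f2 0) * (u 1 * a1 + f1 1 * lu') * (-1)
            + (u 0 * f1 1 - u 1 * f1 0) * (u 1 * a2 + f2 1 * lu')
      ext i
      simp only [Pi.add_apply, Pi.smul_apply, smul_eq_mul]
      field_simp
      linarith [key i]
    have := (hu.2 hf1.1 hf2.1 hseg)
    rw [this, nz] at b1
    linarith
  have hall : convexHull ℝ F ⊆ {y | g y < 1 ∨ (y ∈ F ∧ g y = 1)} := by
    refine convexHull_min (fun f hf => ?_) ?_
    · rcases eq_or_lt_of_le (hF1 f hf) with h | h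
      · exact Or.inr ⟨hf, h⟩
      · exact Or.inl h
    · intro x hx y hy a b ha hb hab
      rcases eq_or_lt_of_le ha with ha | ha'
      · have : b = 1 := by linarith
        simpa [← ha, this] using hy
      rcases eq_or_lt_of_le hb with hb | hb'
      · have : a = 1 := by linarith
        simpa [← hb, this] using hx
      have x1 : g x ≤ 1 := by rcases hx with h | h; exacts [h.le, h.2.le]
      have y1 : g y ≤ 1 := by rcases hy with h | h; exacts [h.le, h.2.le]
      have cb := S.comb ha hb x y
      rcases hx with hx | hx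
      · left; show g _ < 1; nlinarith
      rcases hy with hy | hy
      · left; show g _ < 1; nlinarith
      by_cases hxy : x = y
      · right; subst hxy; rw [← add_smul, hab, one_smul]; exact hx
      left
      by_contra hcon
      have h1 : 1 ≤ g (a • x + b • y) := not_lt.1 hcon
      refine (H x y hxy ?_).elim (nd x hx.1 hx.2) (nd y hy.1 hy.2)
      rintro z ⟨a', b', ha', hb', hab', rfl⟩
      refine S.mem_frontier (le_antisymm ?_ ?_)
      · have := S.comb ha' hb' x y
        rw [hx.2, hy.2] at this; linarith
      · rcases le_total b' b with h | h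
        · have a0 : 0 < a' := by linarith
          have e : a • x + b • y = (a / a') • (a' • x + b' • y) + (1 - a / a') • y := by
            have : b = a / a' * b' + (1 - a / a') := by
              have : b' = 1 - a' := by linarith
              rw [this]; field_simp; linear_combination a' * hab
            rw [smul_add, smul_smul, smul_smul, div_mul_cancel₀ _ a0.ne', add_assoc, ← add_smul,
              ← this]
          have e1 : a / a' ≤ 1 := (div_le_one a0).2 (by linarith)
          have e2 := S.comb (show 0 ≤ a / a' by positivity) (sub_nonneg.2 e1) (a' • x + b' • y) y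
          rw [← e, hy.2] at e2
          have e3 : a / a' * 1 ≤ a / a' * g (a' • x + b' • y) := by linarith
          exact le_of_mul_le_mul_left e3 (by positivity)
        · have a0 : 0 < b' := by linarith
          have e : a • x + b • y = (b / b') • (a' • x + b' • y) + (1 - b / b') • x := by
            have : a = b / b' * a' + (1 - b / b') := by
              have : a' = 1 - b' := by linarith
              rw [this]; field_simp; linear_combination b' * hab
            rw [smul_add, smul_smul, smul_smul, div_mul_cancel₀ _ a0.ne', add_right_comm,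
              ← add_smul, ← this]
          have e1 : b / b' ≤ 1 := (div_le_one a0).2 h
          have e2 := S.comb (show 0 ≤ b / b' by positivity) (sub_nonneg.2 e1) (a' • x + b' • y) x
          rw [← e, hx.2] at e2
          have e3 : b / b' * 1 ≤ b / b' * g (a' • x + b' • y) := by linarith
          exact le_of_mul_le_mul_left e3 (by positivity)
  have pos : ∀ t : ℝ, 0 < g ![1, t] := by
    intro t
    have h1 := norm_le_pi_norm ![1, t] 0
    simp only [Matrix.cons_val_zero, norm_one] at h1
    have := hco ![1, t]
    nlinarith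
  refine Set.infinite_of_injective_forall_mem
    (f := fun t : ℝ => (g ![1, t])⁻¹ • (![1, t] : Fin 2 → ℝ)) ?_ ?_ hF
  · intro t t' h
    have h0 := congrFun h 0
    have h1 := congrFun h 1
    simp only [Pi.smul_apply, Matrix.cons_val_zero, smul_eq_mul, mul_one, Matrix.cons_val_one]
      at h0 h1
    rw [h0] at h1
    exact mul_left_cancel₀ (inv_ne_zero (pos t').ne') h1
  · intro t
    have h1 : g ((g ![1, t])⁻¹ • (![1, t] : Fin 2 → ℝ)) = 1 := by
      rw [S.smul _ (inv_pos.2 (pos t)), inv_mul_cancel₀ (pos t).ne']
    rcases hall (by rw [hull]; exact h1.le) with h | h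
    · linarith
    · exact h.1

end Pool.Agent.P.MP_dcd5d0_pr
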