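import Pool.Agent.P.MP_dcd5d0_pr.Path

/-! Two lattice paths crossing a parallelogram in the two directions share a vertex. -/

set_option autoImplicit false

open Finset

namespace Pool.Agent.P.MP_dcd5d0_pr

lemma stp_cases (a : Dir) : (stp a 0 = 1 ∧ stp a 1 = 0) ∨ (stp a 0 = -1 ∧ stp a 1 = 0)
    ∨ (stp a 0 = 0 ∧ stp a 1 = 1) ∨ (stp a 0 = 0 ∧ stp a 1 = -1) := by
  obtain ⟨i, b⟩ := a
  fin_cases i <;> cases b <;> simp [stp]

lemma int_pos (x y w0 w1 : ℤ) (h : x ≠ 0 ∨ y ≠ 0) (hw : w0.natAbs + w1.natAbs ≤ 2)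
    (hm : 2 * x + w0 ≠ 0 ∨ 2 * y + w1 ≠ 0) : 0 < x * (2 * x + w0) + y * (2 * y + w1) := by
  have key : ∀ x w : ℤ, w.natAbs ≤ 2 → 0 ≤ x * (2 * x + w) := by
    intro x w hw
    rcases lt_trichotomy x 0 with h | h | h
    · exact mul_nonneg_of_nonpos_of_nonpos h.le (by omega)
    · simp [h]
    · exact mul_nonneg h.le (by omega)
  have h1 := key x w0 (by omega)
  have h2 := key y w1 (by omega)
  by_contra hc
  have h3 : x * (2 * x + w0) = 0 := by omega
  have h4 : y * (2 * y + w1) = 0 := by omega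
  rw [mul_eq_zero] at h3 h4
  omega

open Classical in
noncomputable def cw (A B : V → ℝ) (a a' : V) : ℤ :=
  if B a ≤ 0 ∧ 0 < B a' ∧ 0 < A a * B a' - A a' * B a then 1 else 0

noncomputable def ww (A B : V → ℝ) (a a' : V) : ℤ := cw A B a a' - cw A B a' a

open Classical in
noncomputable def Hs (B : V → ℝ) (a : V) : ℤ := if 0 < B a then 1 else 0

open Classical in
lemma ww_half (A B : V → ℝ) (l m : ℝ) (a a' : V) (h : 0 < l * A a + m * B a)
    (h' : 0 < l * A a' + m * B a') :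
    ww A B a a' = (if 0 < l then 1 else 0) * (Hs B a' - Hs B a) := by
  have key : ∀ a a' : V, 0 < l * A a + m * B a → 0 < l * A a' + m * B a' → B a ≤ 0 → 0 < B a' →
      (0 < A a * B a' - A a' * B a ↔ 0 < l) := by
    intro a a' h h' h1 h2
    have : 0 < l * (A a * B a' - A a' * B a) := by
      have e : l * (A a * B a' - A a' * B a)
          = (l * A a + m * B a) * B a' + (l * A a' + m * B a') * (-B a) := by ring
      rw [e]
      have := mul_pos h h2
      have := mul_nonneg h'.le (neg_nonneg.2 h1)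
      linarith
    constructor
    · intro h3; exact (pos_iff_pos_of_mul_pos this).2 h3
    · intro h3; exact (pos_iff_pos_of_mul_pos this).1 h3
  unfold ww cw Hs
  by_cases h1 : 0 < B a <;> by_cases h2 : 0 < B a'
  · simp [h1, h2, not_le.2 h1, not_le.2 h2]
  · have := key a' a h' h (not_lt.1 h2) h1
    simp only [h1, h2, not_le.2 h1, not_lt.1 h2, this]
    split_ifs <;> simp_all
  · have := key a a' h h' (not_lt.1 h1) h2
    simp only [h1, h2, not_le.2 h2, not_lt.1 h1, this]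
    split_ifs <;> simp_all
  · simp [h1, h2]

lemma sq_int (a0 a1 e0 e1 f0 f1 : ℤ)
    (he : (e0 = 1 ∧ e1 = 0) ∨ (e0 = -1 ∧ e1 = 0) ∨ (e0 = 0 ∧ e1 = 1) ∨ (e0 = 0 ∧ e1 = -1))
    (hf : (f0 = 1 ∧ f1 = 0) ∨ (f0 = -1 ∧ f1 = 0) ∨ (f0 = 0 ∧ f1 = 1) ∨ (f0 = 0 ∧ f1 = -1))
    (n1 : a0 ≠ 0 ∨ a1 ≠ 0) (n2 : a0 + e0 ≠ 0 ∨ a1 + e1 ≠ 0) :
    (2 * a0 + e0 - f0 ≠ 0 ∨ 2 * a1 + e1 - f1 ≠ 0) ∧ (e0 - f0).natAbs + (e1 - f1).natAbs ≤ 2
      ∧ (-e0 - f0).natAbs + (-e1 - f1).natAbs ≤ 2 ∧ (e0 + f0).natAbs + (e1 + f1).natAbs ≤ 2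
      ∧ (-e0 + f0).natAbs + (-e1 + f1).natAbs ≤ 2 := by
  rcases he with ⟨rfl, rfl⟩ | ⟨rfl, rfl⟩ | ⟨rfl, rfl⟩ | ⟨rfl, rfl⟩ <;>
  rcases hf with ⟨rfl, rfl⟩ | ⟨rfl, rfl⟩ | ⟨rfl, rfl⟩ | ⟨rfl, rfl⟩ <;>
  exact ⟨by omega, by decide, by decide, by decide, by decide⟩

lemma ww_square (A B : V →+ ℝ) (u v : Fin 2 → ℝ)
    (huv : ∀ (z : V) (i : Fin 2), (z i : ℝ) = A z * u i + B z * v i) (a : V) (e f : Dir)
    (h1 : a ≠ 0) (h2 : a + stp e ≠ 0) (h3 : a - stp f ≠ 0) (h4 : a + stp e - stp f ≠ 0) :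
    ww A B (a + stp e) (a + stp e - stp f) - ww A B a (a - stp f)
      = ww A B (a - stp f) (a + stp e - stp f) - ww A B a (a + stp e) := by
  set m : V := 2 • a + stp e - stp f with hm
  set l := u 0 * m 0 + u 1 * m 1 with hl
  set l' := v 0 * m 0 + v 1 * m 1 with hl'
  have ne : ∀ z : V, z ≠ 0 → z 0 ≠ 0 ∨ z 1 ≠ 0 := by
    intro z hz
    by_contra hc
    push Not at hc
    exact hz (by ext i; fin_cases i <;> simp [hc.1, hc.2])
  have n1 := ne _ h1
  have n2 := ne _ h2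
  simp only [Pi.add_apply] at n2
  obtain ⟨s1, s2, s3, s4, s5⟩ := sq_int (a 0) (a 1) _ _ _ _ (stp_cases e) (stp_cases f) n1 n2
  have m0 : m 0 = 2 * a 0 + stp e 0 - stp f 0 := by simp [hm]
  have m1 : m 1 = 2 * a 1 + stp e 1 - stp f 1 := by simp [hm]
  have key : ∀ z : V, z ≠ 0 → ∀ w0 w1 : ℤ, w0.natAbs + w1.natAbs ≤ 2 →
      m 0 = 2 * z 0 + w0 → m 1 = 2 * z 1 + w1 → 0 < l * A z + l' * B z := by
    intro z hz w0 w1 hw e0 e1
    have := int_pos (z 0) (z 1) w0 w1 (ne z hz) hw (by rw [← e0, ← e1, m0, m1]; exact s1)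
    rw [← e0, ← e1] at this
    have e1 : l * A z + l' * B z = (z 0 : ℝ) * m 0 + z 1 * m 1 := by
      rw [huv z 0, huv z 1, hl, hl']; ring
    rw [e1]
    exact_mod_cast this
  have k1 := key _ h1 _ _ s2 (by rw [m0]; ring) (by rw [m1]; ring)
  have k2 := key _ h2 _ _ s3 (by rw [m0, Pi.add_apply]; ring) (by rw [m1, Pi.add_apply]; ring)
  have k3 := key _ h3 _ _ s4 (by rw [m0, Pi.sub_apply]; ring) (by rw [m1, Pi.sub_apply]; ring)
  have k4 := key _ h4 _ _ s5 (by rw [m0, Pi.sub_apply, Pi.add_apply]; ring)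
    (by rw [m1, Pi.sub_apply, Pi.add_apply]; ring)
  rw [ww_half A B l l' _ _ k2 k4, ww_half A B l l' _ _ k1 k3, ww_half A B l l' _ _ k3 k4,
    ww_half A B l l' _ _ k1 k2]
  ring

theorem crossing (A B : V →+ ℝ) (u v : Fin 2 → ℝ)
    (huv : ∀ (z : V) (i : Fin 2), (z i : ℝ) = A z * u i + B z * v i)
    (x x' : V) (σ σ' : ℕ → Dir) (m n : ℕ)
    (ha : ∀ l ≤ n, A x < A (pos x' σ' l)) (hb : ∀ l ≤ n, A (pos x' σ' l) < A (pos x σ m))
    (hc : ∀ k ≤ m, B x' < B (pos x σ k)) (hd : ∀ k ≤ m, B (pos x σ k) < B (pos x' σ' n)) :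
    ∃ k ≤ m, ∃ l ≤ n, pos x σ k = pos x' σ' l := by
  by_contra hne
  push Not at hne
  set D : ℕ → ℕ → V := fun k l => pos x σ k - pos x' σ' l with hD
  have hD0 : ∀ k ≤ m, ∀ l ≤ n, D k l ≠ 0 := fun k hk l hl h => hne k hk l hl (sub_eq_zero.1 h)
  have hAD : ∀ k l, A (D k l) = A (pos x σ k) - A (pos x' σ' l) := fun k l => map_sub A _ _
  have hBD : ∀ k l, B (D k l) = B (pos x σ k) - B (pos x' σ' l) := fun k l => map_sub B _ _
  have hsq : ∀ k < m, ∀ l < n, ww A B (D (k + 1) l) (D (k + 1) (l + 1)) - ww A B (D k l) (D k (l + 1))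
      = ww A B (D k (l + 1)) (D (k + 1) (l + 1)) - ww A B (D k l) (D (k + 1) l) := by
    intro k hk l hl
    have e1 : D (k + 1) l = D k l + stp (σ k) := by simp only [hD, pos_succ]; abel
    have e2 : D k (l + 1) = D k l - stp (σ' l) := by simp only [hD, pos_succ]; abel
    have e3 : D (k + 1) (l + 1) = D k l + stp (σ k) - stp (σ' l) := by
      simp only [hD, pos_succ]; abel
    have := ww_square A B u v huv (D k l) (σ k) (σ' l) (hD0 k hk.le l hl.le)
      (e1 ▸ hD0 (k + 1) hk l hl.le) (e2 ▸ hD0 k hk.le (l + 1) hl) (e3 ▸ hD0 (k + 1) hk (l + 1) hl)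
    rw [e1, e2, e3]; exact this
  have hconst : ∀ k ≤ m, ∑ l ∈ range n, ww A B (D k l) (D k (l + 1)) = 0 := by
    intro k hk
    induction k with
    | zero =>
      refine sum_eq_zero fun l hl => ?_
      have hl' := mem_range.1 hl
      rw [ww_half A B (-1) 0]
      · norm_num
      · have := ha l hl'.le; rw [hAD, pos_zero]; linarith
      · have := ha (l + 1) hl'; rw [hAD, pos_zero]; linarith
    | succ k ih =>
      have h1 := ih (by omega)
      have h2 : ∑ l ∈ range n, ww A B (D (k + 1) l) (D (k + 1) (l + 1))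
          - ∑ l ∈ range n, ww A B (D k l) (D k (l + 1))
          = ww A B (D k n) (D (k + 1) n) - ww A B (D k 0) (D (k + 1) 0) := by
        rw [← sum_sub_distrib, sum_congr rfl fun l hl => hsq k hk l (mem_range.1 hl)]
        exact sum_range_sub (fun l => ww A B (D k l) (D (k + 1) l)) n
      rw [h1, ww_half A B 0 (-1), ww_half A B 0 1] at h2
      · simpa using h2
      · have := hc k (by omega); rw [hBD, pos_zero]; linarith
      · have := hc (k + 1) hk; rw [hBD, pos_zero]; linarith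
      · have := hd k (by omega); rw [hBD]; linarith
      · have := hd (k + 1) hk; rw [hBD]; linarith
  have h1 := hconst m le_rfl
  have h2 : ∑ l ∈ range n, ww A B (D m l) (D m (l + 1)) = Hs B (D m n) - Hs B (D m 0) := by
    rw [← sum_range_sub (fun l => Hs B (D m l)) n]
    refine sum_congr rfl fun l hl => ?_
    have hl' := mem_range.1 hl
    rw [ww_half A B 1 0]
    · norm_num
    · have := hb l hl'.le; rw [hAD]; linarith
    · have := hb (l + 1) hl'; rw [hAD]; linarith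
  have h3 : Hs B (D m n) = 0 := by
    unfold Hs; rw [if_neg]; have := hd m le_rfl; rw [hBD]; linarith
  have h4 : Hs B (D m 0) = 1 := by
    unfold Hs; rw [if_pos]; have := hc m le_rfl; rw [hBD, pos_zero]; linarith
  omega

end Pool.Agent.P.MP_dcd5d0_pr
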