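import Pool.Agent.P.MP_dcd5d0_pr.Tail

/-! Non-random fluctuations in a corner direction. -/

set_option autoImplicit false

open MeasureTheory ProbabilityTheory Finset Function Filter Topology
open scoped ENNReal

namespace Pool.Agent.P.MP_dcd5d0_pr

noncomputable def th : ℝ := 51 / 100

lemma rpow_th_le {x y : ℝ} (hx : 0 ≤ x) (hy : 0 ≤ y) (h : x ^ 51 ≤ y ^ 100) : x ^ th ≤ y := by
  refine le_of_pow_le_pow_left₀ (n := 100) (by norm_num) hy ?_
  rw [← Real.rpow_natCast (x ^ th), ← Real.rpow_mul hx]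
  have : th * ((100 : ℕ) : ℝ) = ((51 : ℕ) : ℝ) := by unfold th; norm_num
  rw [this, Real.rpow_natCast]; exact h

lemma one_le_rpow_th {t : ℝ} (ht : 1 ≤ t) : 1 ≤ t ^ th :=
  Real.one_le_rpow ht (by unfold th; norm_num)

lemma small_exp (C b δ : ℝ) (hb : 0 < b) (hδ : 0 < δ) (p : ℕ) :
    ∀ᶠ t : ℝ in atTop, C * t ^ p * Real.exp (-(b * t ^ δ)) ≤ 1 := by
  have h1 := (tendsto_rpow_mul_exp_neg_mul_atTop_nhds_zero (p / δ) b hb).comp
    (tendsto_rpow_atTop hδ)
  have h2 := h1.const_mul C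
  rw [mul_zero] at h2
  filter_upwards [h2.eventually (ge_mem_nhds zero_lt_one), eventually_ge_atTop 0] with t ht h0
  simp only [Function.comp] at ht
  rw [← Real.rpow_mul h0, mul_div_cancel₀ _ hδ.ne', Real.rpow_natCast] at ht
  rw [mul_assoc, ← neg_mul]; exact ht

lemma BadT_small {ν : Measure ℝ} [IsProbabilityMeasure ν] (hν : Integrable (fun y => y ^ 2) ν)
    {r : ℝ} (hr0 : 0 < r) (hr : ν.real (Set.Iic r) ≤ 1 / 1024) (C : ℝ) (hC : 1 ≤ C) (q : ℕ) :
    ∀ᶠ t : ℝ in atTop, ∀ R D : ℕ, (R : ℝ) ≤ t ^ q → (D : ℝ) ≤ C * t →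
      (PP Ed ν).real (BadT ν R D (t ^ th)) * t ^ q ≤ 1 := by
  have hm1 := m1_pos ν
  have hm2 := m2_nonneg ν
  set C1 := 1 + 2 * m1 ν * C / r with hC1
  have hC1' : 1 ≤ C1 := by rw [hC1]; have : 0 ≤ 2 * m1 ν * C / r := by positivity
                           linarith
  set C2 := 1 + 2 * C1 * m2 ν with hC2
  have hC2' : 1 ≤ C2 := by rw [hC2]; have : 0 ≤ 2 * C1 * m2 ν := by positivity
                           linarith
  have hs : 1 ≤ √C2 := Real.one_le_sqrt.2 hC2'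
  filter_upwards [small_exp (81 * C ^ 2 * (Real.exp 2 + 1)) (√C2)⁻¹ (1 / 100) (by positivity)
    (by norm_num) (3 * q + 2), eventually_ge_atTop 1] with t ht h1 R D hR hD
  have h0 : 0 < t := by linarith
  set K := ⌈C1 * t⌉₊ with hK
  have hK1 : C1 * t ≤ K := Nat.le_ceil _
  have hK2 : (K : ℝ) ≤ 2 * C1 * t := by
    have := Nat.ceil_lt_add_one (a := C1 * t) (by positivity)
    nlinarith
  have hst : 0 < √t := Real.sqrt_pos.2 h0
  have hb := BadT_le hν hr0.le hr R D K (√C2 * √t)⁻¹ (t ^ th) (by positivity) (by positivity)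
    (by
      rw [inv_pow, mul_pow, Real.sq_sqrt (by linarith), Real.sq_sqrt h0.le,
        inv_mul_le_iff₀ (by positivity)]
      nlinarith)
    (by
      have e1 : m1 ν * D ≤ m1 ν * (C * t) := mul_le_mul_of_nonneg_left hD hm1.le
      have e2 : r * (C1 * t) = r * t + 2 * (m1 ν * (C * t)) := by rw [hC1]; field_simp
      have e3 : r * (C1 * t) ≤ r * K := mul_le_mul_of_nonneg_left hK1 hr0.le
      have e4 : 0 ≤ r * t := by positivity
      linarith)
  have e1 : (√C2 * √t)⁻¹ * t ^ th = (√C2)⁻¹ * t ^ (1 / 100 : ℝ) := by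
    have : t ^ th = √t * t ^ (1 / 100 : ℝ) := by
      rw [Real.sqrt_eq_rpow, ← Real.rpow_add h0]; unfold th; norm_num
    rw [this]; field_simp
  rw [e1] at hb
  set E := Real.exp (-((√C2)⁻¹ * t ^ (1 / 100 : ℝ))) with hE
  have e2 : Real.exp (2 - (√C2)⁻¹ * t ^ (1 / 100 : ℝ)) = Real.exp 2 * E := by
    rw [hE, ← Real.exp_add]; rfl
  have e3 : Real.exp (-K) ≤ E := by
    rw [hE, Real.exp_le_exp, neg_le_neg_iff]
    have a1 : t ^ (1 / 100 : ℝ) ≤ t := by
      conv_rhs => rw [← Real.rpow_one t]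
      exact Real.rpow_le_rpow_of_exponent_le h1 (by norm_num)
    have a2 : (√C2)⁻¹ ≤ 1 := inv_le_one_of_one_le₀ hs
    have a3 : 0 ≤ t ^ (1 / 100 : ℝ) := by positivity
    nlinarith
  have hq : 1 ≤ t ^ q := one_le_pow₀ h1
  have e4 : (2 * (R : ℝ) + 1) ^ 2 ≤ (3 * t ^ q) ^ 2 := pow_le_pow_left₀ (by positivity) (by linarith) 2
  have e5 : (2 * (D : ℝ) + 1) ^ 2 ≤ (3 * (C * t)) ^ 2 :=
    pow_le_pow_left₀ (by positivity) (by nlinarith) 2
  have hE0 : 0 < E := Real.exp_pos _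
  calc _ ≤ (2 * R + 1) ^ 2 * (2 * D + 1) ^ 2 * (Real.exp 2 * E + E) * t ^ q := by
        refine mul_le_mul_of_nonneg_right (hb.trans ?_) (by positivity)
        rw [e2]; gcongr
    _ ≤ (3 * t ^ q) ^ 2 * (3 * (C * t)) ^ 2 * (Real.exp 2 * E + E) * t ^ q := by gcongr
    _ = 81 * C ^ 2 * (Real.exp 2 + 1) * t ^ (3 * q + 2) * E := by ring
    _ ≤ 1 := ht

lemma BadQ_small {ν : Measure ℝ} [IsProbabilityMeasure ν]
    {r : ℝ} (hr : ν.real (Set.Iic r) ≤ 1 / 1024) (q : ℕ) :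
    ∀ᶠ t : ℝ in atTop, ∀ R n : ℕ, (R : ℝ) ≤ t ^ q → t ≤ n →
      (PP Ed ν).real (BadQ r R n) * t ^ q ≤ 1 := by
  filter_upwards [small_exp 9 1 1 one_pos one_pos (3 * q), eventually_ge_atTop 1]
    with t ht h1 R n hR hn
  have hq : 1 ≤ t ^ q := one_le_pow₀ h1
  have e4 : (2 * (R : ℝ) + 1) ^ 2 ≤ (3 * t ^ q) ^ 2 := pow_le_pow_left₀ (by positivity) (by linarith) 2
  have e3 : Real.exp (-n) ≤ Real.exp (-(1 * t ^ (1 : ℝ))) := by
    rw [Real.exp_le_exp]; simp [hn]
  calc _ ≤ (3 * t ^ q) ^ 2 * Real.exp (-(1 * t ^ (1 : ℝ))) * t ^ q := by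
        refine mul_le_mul_of_nonneg_right ((BadQ_le hr R n).trans ?_) (by positivity)
        gcongr
    _ = 9 * t ^ (3 * q) * Real.exp (-(1 * t ^ (1 : ℝ))) := by ring
    _ ≤ 1 := ht

/-- Coordinates `A, B` adapted to a corner direction `U`. -/
structure Geo (ν : Measure ℝ) (A B : V →+ ℝ) (U : ℝ → V) (κ c : ℝ) : Prop where
  k0 : 0 < κ
  k1 : κ ≤ 1
  c1 : 1 ≤ c
  hA : ∀ z, |A z| ≤ c * ‖z‖
  hB : ∀ z, |B z| ≤ c * ‖z‖
  hN : ∀ z, ‖z‖ ≤ c * (|A z| + |B z|)
  hUA : ∀ t, |A (U t) - t| ≤ c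
  hUB : ∀ t, |B (U t)| ≤ c
  low : ∀ z, A z + (1 - κ) * B z + κ * |B z| ≤ hh ν z
  lim : Tendsto (fun t => hh ν (U t) / t) atTop (𝓝 1)

section
variable {ν : Measure ℝ} {A B : V →+ ℝ} {U : ℝ → V} {κ c : ℝ}

lemma Geo.absB (G : Geo ν A B U κ c) (z : V) : |(1 - κ) * B z| ≤ |B z| := by
  rw [abs_mul, abs_of_nonneg (by linarith [G.k1])]
  exact mul_le_of_le_one_left (abs_nonneg _) (by linarith [G.k0])

lemma Geo.phiU (G : Geo ν A B U κ c) (t : ℝ) : |A (U t) + (1 - κ) * B (U t) - t| ≤ 2 * c := by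
  have h1 := abs_le.1 (G.hUA t)
  have h2 := abs_le.1 ((G.absB (U t)).trans (G.hUB t))
  rw [abs_le]; constructor <;> linarith

lemma Geo.low' (G : Geo ν A B U κ c) (z : V) : A z + (1 - κ) * B z ≤ hh ν z := by
  have := G.low z
  have := mul_nonneg G.k0.le (abs_nonneg (B z))
  linarith

lemma Geo.stepA (G : Geo ν A B U κ c) (a : Dir) : |A (stp a)| ≤ c :=
  (G.hA _).trans (mul_le_of_le_one_right (by linarith [G.c1]) (norm_stp a))

lemma Geo.stepB (G : Geo ν A B U κ c) (a : Dir) : |B (stp a)| ≤ c :=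
  (G.hB _).trans (mul_le_of_le_one_right (by linarith [G.c1]) (norm_stp a))

lemma Geo.normU (G : Geo ν A B U κ c) (t : ℝ) (ht : 0 ≤ t) : ‖U t‖ ≤ c * (t + 2 * c) := by
  refine (G.hN _).trans (mul_le_mul_of_nonneg_left ?_ (by linarith [G.c1]))
  have h1 := abs_le.1 (G.hUA t)
  have : |A (U t)| ≤ t + c := abs_le.2 ⟨by linarith, by linarith⟩
  linarith [G.hUB t]

variable [IsProbabilityMeasure ν]

lemma dbl_step (hν : Integrable (fun y => y ^ 2) ν) {r : ℝ} (hr0 : 0 < r)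
    (hr : ν.real (Set.Iic r) ≤ 1 / 1024) (G : Geo ν A B U κ c) :
    ∀ᶠ t : ℝ in atTop, ∀ a : ℝ, (∀ y, t - 2 * c ≤ A y + (1 - κ) * B y → a ≤ hh ν y) →
      ∀ z, 2 * t - 2 * c ≤ A z + (1 - κ) * B z → 2 * a - 3 * t ^ th ≤ hh ν z := by
  have hm1 := m1_pos ν
  have hc := G.c1
  have hκ := G.k0
  set C1 := 2 * m1 ν * c with hC1
  have hC10 : 0 < C1 := by positivity
  set C3 := 1 + 4 * C1 / r + c * (2 * C1 + 4 * C1 / κ) with hC3
  have p1 : 0 ≤ 4 * C1 / r := by positivity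
  have p2 : 0 ≤ c * (2 * C1 + 4 * C1 / κ) := by positivity
  have hC31 : 1 ≤ C3 := by linarith
  filter_upwards [BadT_small hν hr0 hr (4 * C3) (by linarith) 2, BadQ_small hr 2,
    eventually_ge_atTop (2 * c), eventually_ge_atTop (2 * C3), eventually_ge_atTop (4 * C1)]
    with t hT hQ h1 h2 h3 a ha z hz
  have ht1 : 1 ≤ t := by linarith
  have hs1 := one_le_rpow_th ht1
  set s := t ^ th with hs
  have haC : a ≤ C1 * t := by
    have e1 := ha (U t) (by linarith [(abs_le.1 (G.phiU t)).1])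
    have e2 := hh_le hν (U t)
    have e3 := mul_le_mul_of_nonneg_left (G.normU t (by linarith)) hm1.le
    have e4 : m1 ν * (c * (t + 2 * c)) ≤ m1 ν * (c * (2 * t)) := by gcongr; linarith
    rw [hC1]; linarith
  by_cases hz2 : 2 * a ≤ hh ν z
  · linarith
  by_cases has : 2 * a - 2 * s ≤ 0
  · linarith [hh_nonneg (ν := ν) z]
  have hzn : ‖z‖ ≤ C3 * t := by
    have e1 := G.low z
    have e2 : |B z| ≤ 2 * C1 / κ * t := by
      rw [div_mul_eq_mul_div, le_div_iff₀ hκ]; linarith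
    have e3 := abs_le.1 (G.absB z)
    have e4 := G.low' z
    have e5 : |A z| ≤ 2 * C1 * t + 2 * C1 / κ * t := by
      have : 0 ≤ 2 * C1 * t := by positivity
      rw [abs_le]; constructor <;> linarith
    calc ‖z‖ ≤ c * (|A z| + |B z|) := G.hN z
      _ ≤ c * ((2 * C1 * t + 2 * C1 / κ * t) + 2 * C1 / κ * t) := by gcongr
      _ = c * (2 * C1 + 4 * C1 / κ) * t := by ring
      _ ≤ C3 * t := by gcongr; linarith
  set K := ⌈C3 * t⌉₊ with hK
  have hK1 : C3 * t ≤ K := Nat.le_ceil _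
  have hK2 : (K : ℝ) ≤ 2 * C3 * t := by
    have := Nat.ceil_lt_add_one (a := C3 * t) (by positivity)
    nlinarith
  have hKt : (K : ℝ) ≤ t ^ 2 := by nlinarith
  have b1 := hT K (2 * K) hKt (by push_cast; linarith)
  have b2 := hQ K K hKt (by nlinarith)
  have hrK : 2 * a ≤ r * K / 2 := by
    have e2 : r * (4 * C1 / r * t) = 4 * C1 * t := by field_simp
    have e3 : r * (4 * C1 / r * t) ≤ r * K := by
      refine mul_le_mul_of_nonneg_left (le_trans ?_ hK1) hr0.le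
      gcongr; linarith
    linarith
  have key := markov1 (P := PP Ed ν) (T_int hν 0 z) (fun ω => T_nonneg ω 0 z)
    (a := 2 * a - 2 * s) (by linarith) (Bad := BadT ν K (2 * K) s ∪ BadQ r K K) (by
      intro ω hω
      rw [Set.mem_union, not_or] at hω
      obtain ⟨g1, g2⟩ := hω
      by_contra hlt
      obtain ⟨k, σ, e1, e2, e3⟩ := exists_trail_lt (not_le.1 hlt)
      have hk : k ≤ K := by
        by_contra hc
        have := long_trail hr0.le (fun h => g2 ⟨0, by simp, h⟩) e2 (not_le.1 hc).le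
        linarith
      obtain ⟨j, _, hj, e4, e5⟩ := ivt (fun j => A (pos 0 σ j) + (1 - κ) * B (pos 0 σ j)) (2 * c)
        (t - 2 * c) (fun j => by
          simp only [pos_succ, map_add]
          have := (abs_le.1 (G.stepA (σ j))).2
          have := (abs_le.1 ((G.absB (stp (σ j))).trans (G.stepB (σ j)))).2
          linarith) (by linarith) 0 k (by simp; linarith) (by rw [zero_add, e1]; linarith)
      rw [zero_add] at hj
      set y := pos 0 σ j with hy
      have hyn : ‖y‖ ≤ K := by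
        have := norm_pos_sub0 0 σ j
        rw [sub_zero] at this
        exact this.trans (by exact_mod_cast hj.trans hk)
      have f1 : hh ν y - s ≤ T ω 0 y := by
        by_contra h
        exact g1 ⟨0, y, by simp, by push_cast; rw [sub_zero]; linarith [norm_nonneg y],
          by rw [sub_zero]; exact not_le.1 h⟩
      have f2 : hh ν (z - y) - s ≤ T ω y z := by
        by_contra h
        exact g1 ⟨y, z, hyn, by push_cast; linarith [norm_sub_le z y], not_le.1 h⟩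
      have f3 := ha y e4
      have f4 := ha (z - y) (by simp only [map_sub]; linarith)
      have f5 := T_le0 ω hy.symm
      have f6 := T_le ω 0 σ hj
      rw [e1, ← hy] at f6
      have f7 := tm_add ω 0 σ (Nat.zero_le j) hj
      linarith)
  have b3 := measureReal_union_le (μ := PP Ed ν) (BadT ν K (2 * K) s) (BadQ r K K)
  set p := (PP Ed ν).real (BadT ν K (2 * K) s ∪ BadQ r K K) with hp
  have hp0 : 0 ≤ p := measureReal_nonneg
  have b4 : p * t ^ 2 ≤ 2 := by nlinarith [sq_nonneg t]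
  have b5 : (2 * a - 2 * s) * p ≤ 1 := by
    have : (2 * a - 2 * s) * p ≤ (t * t / 2) * p := by
      refine mul_le_mul_of_nonneg_right ?_ hp0
      nlinarith
    nlinarith
  unfold hh
  nlinarith

theorem corner_bound (hν : Integrable (fun y => y ^ 2) ν) {r : ℝ} (hr0 : 0 < r)
    (hr : ν.real (Set.Iic r) ≤ 1 / 1024) (G : Geo ν A B U κ c) :
    ∃ C : ℝ, 1 ≤ C ∧ ∀ᶠ t : ℝ in atTop, hh ν (U t) ≤ t + C * t ^ th := by
  have hm1 := m1_pos ν
  have hc := G.c1
  have hκ := G.k0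
  obtain ⟨t0, ht0⟩ := eventually_atTop.1 (dbl_step hν hr0 hr G)
  refine ⟨7 + m1 ν * (c * (4 * (7 + 2 * c) / κ)), by
    have : 0 ≤ m1 ν * (c * (4 * (7 + 2 * c) / κ)) := by positivity
    linarith, ?_⟩
  filter_upwards [eventually_ge_atTop t0, eventually_ge_atTop 1] with t h1 h2
  have hs1 := one_le_rpow_th h2
  have hex : ∃ y, t - 2 * c ≤ A y + (1 - κ) * B y ∧ hh ν y < t + 6 * t ^ th + 1 := by
    by_contra hc
    push Not at hc
    have key : ∀ k : ℕ, ∀ y, 2 ^ k * t - 2 * c ≤ A y + (1 - κ) * B y →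
        2 ^ k * t + 6 * (2 ^ k * t) ^ th + 2 ^ k ≤ hh ν y := by
      intro k
      induction k with
      | zero => simpa using hc
      | succ k ih =>
        intro y hy
        have h3 : (1 : ℝ) ≤ 2 ^ k := one_le_pow₀ (by norm_num)
        have := ht0 (2 ^ k * t) (by nlinarith) _ ih y (by rw [pow_succ] at hy; linarith)
        have e1 : (2 ^ (k + 1) * t) ^ th = 2 ^ th * (2 ^ k * t) ^ th := by
          rw [← Real.mul_rpow (by norm_num) (by positivity)]; congr 1; ring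
        have e2 : (2 : ℝ) ^ th ≤ 3 / 2 := rpow_th_le (by norm_num) (by norm_num) (by norm_num)
        have e3 : 0 ≤ (2 ^ k * t) ^ th := by positivity
        rw [e1, pow_succ]; nlinarith
    have hl : Tendsto (fun k : ℕ => (2 : ℝ) ^ k * t) atTop atTop :=
      (tendsto_pow_atTop_atTop_of_one_lt (by norm_num)).atTop_mul_const (by linarith)
    have := ge_of_tendsto' (G.lim.comp hl) (b := 1 + 1 / t) (fun k => by
      have e1 := key k (U (2 ^ k * t)) (by linarith [(abs_le.1 (G.phiU (2 ^ k * t))).1])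
      have e3 : 0 ≤ (2 ^ k * t) ^ th := by positivity
      simp only [Function.comp]
      rw [le_div_iff₀ (by positivity)]
      have : (1 + 1 / t) * (2 ^ k * t) = 2 ^ k * t + 2 ^ k := by field_simp
      linarith)
    have : 0 < 1 / t := by positivity
    linarith
  obtain ⟨y, e1, e2⟩ := hex
  set s := t ^ th with hs
  set E := (7 + 2 * c) * s / κ with hE
  have hE1 : (7 + 2 * c) * s ≤ E := by
    rw [hE, le_div_iff₀ hκ]
    exact mul_le_of_le_one_right (by positivity) G.k1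
  have hE2 : 7 * s + 2 * c ≤ (7 + 2 * c) * s := by nlinarith
  have e3 : |B y| ≤ E := by
    rw [hE, le_div_iff₀ hκ]; linarith [G.low y]
  have e4 := abs_le.1 ((G.absB y).trans e3)
  have e5 := G.low' y
  have e6 := abs_le.1 (G.hUA t)
  have e7 := abs_le.1 (G.hUB t)
  have e8 := abs_le.1 e3
  have e9 : |A (U t - y)| + |B (U t - y)| ≤ 4 * E := by
    have a1 : |A (U t - y)| ≤ c + 2 * E := by
      rw [map_sub, abs_le]; constructor <;> linarith
    have a2 : |B (U t - y)| ≤ c + E := by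
      rw [map_sub, abs_le]; constructor <;> linarith
    linarith
  have e10 : ‖U t - y‖ ≤ c * (4 * E) :=
    (G.hN _).trans (mul_le_mul_of_nonneg_left e9 (by linarith))
  have e11 := hh_lip hν (U t) y
  have e12 := mul_le_mul_of_nonneg_left e10 hm1.le
  have e13 : m1 ν * (c * (4 * E)) = m1 ν * (c * (4 * (7 + 2 * c) / κ)) * s := by rw [hE]; ring
  linarith

end

end Pool.Agent.P.MP_dcd5d0_pr
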