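import Pool.Agent.P.MP_dcd5d0_pr.Lane
import Pool.Agent.P.MP_dcd5d0_pr.Cross

/-! Estimates along one lane. -/

set_option autoImplicit false

open MeasureTheory ProbabilityTheory Finset Function Filter Topology
open scoped ENNReal

namespace Pool.Agent.P.MP_dcd5d0_pr

/-- excess of a piece of a path over the passage times from the origin -/
noncomputable def exc (ω : Om) (x : V) (l : List Dir) (a b : ℕ) : ℝ :=
  tm ω x (st l) a b - T ω 0 (pos x (st l) b) + T ω 0 (pos x (st l) a)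

lemma exc_nonneg (ω : Om) (x : V) (l : List Dir) {a b : ℕ} (h : a ≤ b) : 0 ≤ exc ω x l a b := by
  have h1 := T_le ω x (st l) h
  have h2 := T_tri ω 0 (pos x (st l) a) (pos x (st l) b)
  unfold exc; linarith

lemma exc_meas (x : V) (l : List Dir) (a b : ℕ) : Measurable (fun ω => exc ω x l a b) :=
  ((tm_meas _ _ _ _).sub (T_meas _ _)).add (T_meas _ _)

def Marks (A : V →+ ℝ) (x : V) (l : List Dir) (W : ℝ) (M : ℕ) (kk : ℕ → ℕ) : Prop :=
  kk 0 = 0 ∧ kk (M + 1) = l.length ∧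
    ∀ i ≤ M + 1, kk i ≤ l.length ∧ |A (pos x (st l) (kk i)) - i * (10 * W)| ≤ 2 * W

def Ext (B : V →+ ℝ) (x : V) (l : List Dir) (a b : ℕ) (h : ℝ) : Prop :=
  ∃ k, a ≤ k ∧ k ≤ b ∧ h < |B (pos x (st l) k) - B (pos x (st l) a)|

variable {ν : Measure ℝ} {A B : V →+ ℝ} {U : ℝ → V} {κ c : ℝ}

lemma marks_mono {x y : V} {l : List Dir} {W : ℝ} {M : ℕ} {kk : ℕ → ℕ} (hW : 0 < W)
    (hl : LaneP A B x y W l) (hm : Marks A x l W M kk) {i : ℕ} (hi : i ≤ M) :
    kk i ≤ kk (i + 1) := by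
  by_contra hc
  have h1 := hl.2.2.2 _ _ (not_le.1 hc).le (hm.2.2 i (by omega)).1
  have h2 := abs_le.1 (hm.2.2 i (by omega)).2
  have h3 := abs_le.1 (hm.2.2 (i + 1) (by omega)).2
  push_cast at h3
  linarith

lemma sum_tm {x y : V} {l : List Dir} {W : ℝ} {M : ℕ} {kk : ℕ → ℕ} (hW : 0 < W)
    (hl : LaneP A B x y W l) (hm : Marks A x l W M kk) (ω : Om) :
    ∑ i ∈ range (M + 1), tm ω x (st l) (kk i) (kk (i + 1)) = tt ω x l := by
  have : ∀ n ≤ M + 1, ∑ i ∈ range n, tm ω x (st l) (kk i) (kk (i + 1)) = tm ω x (st l) 0 (kk n) := by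
    intro n hn
    induction n with
    | zero => simp [hm.1, tm]
    | succ n ih =>
      rw [sum_range_succ, ih (by omega),
        tm_add ω x _ (Nat.zero_le _) (marks_mono hW hl hm (by omega))]
  rw [this _ le_rfl, hm.2.1]; rfl

lemma sum_exc {x y : V} {l : List Dir} {W : ℝ} {M : ℕ} {kk : ℕ → ℕ} (hW : 0 < W)
    (hl : LaneP A B x y W l) (hm : Marks A x l W M kk) (ω : Om) :
    ∑ i ∈ range (M + 1), exc ω x l (kk i) (kk (i + 1)) = tt ω x l + T ω 0 x - T ω 0 y := by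
  unfold exc
  have h := sum_range_sub (fun i => T ω 0 (pos x (st l) (kk i))) (M + 1)
  rw [sum_sub_distrib] at h
  rw [sum_add_distrib, sum_sub_distrib, sum_tm hW hl hm]
  rw [hm.1, hm.2.1, hl.1, pos_zero] at h
  linarith

lemma piece_low (G : Geo ν A B U κ c) {x y : V} {l : List Dir} {W s : ℝ} {M R D : ℕ}
    {kk : ℕ → ℕ} (hW : 0 < W) (hl : LaneP A B x y W l) (hm : Marks A x l W M kk)
    (hR : ‖x‖ + l.length ≤ R) (hD : 20 * c * W ≤ D) {ω : Om} (g : ω ∉ BadT ν R D s)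
    {i : ℕ} (hi : i ≤ M) {k : ℕ} (h1 : kk i ≤ k) (h2 : k ≤ kk (i + 1)) :
    (A (pos x (st l) (kk (i + 1))) + (1 - κ) * B (pos x (st l) (kk (i + 1))))
      - (A (pos x (st l) (kk i)) + (1 - κ) * B (pos x (st l) (kk i)))
      + κ * |B (pos x (st l) k) - B (pos x (st l) (kk i))| - 2 * s
      ≤ tm ω x (st l) (kk i) (kk (i + 1)) := by
  have hc := G.c1
  have l2 := (hm.2.2 (i + 1) (by omega)).1
  have a1 := abs_le.1 (hm.2.2 i (by omega)).2
  have a2 := abs_le.1 (hm.2.2 (i + 1) (by omega)).2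
  push_cast at a2
  have nb : ∀ j ≤ l.length, ‖pos x (st l) j‖ ≤ R := by
    intro j hj
    have := norm_add_le (pos x (st l) j - x) x
    rw [sub_add_cancel] at this
    have e1 := norm_pos_sub0 x (st l) j
    have e2 : (j : ℝ) ≤ l.length := by exact_mod_cast hj
    linarith
  have nd : ∀ j j', kk i ≤ j → j ≤ j' → j' ≤ kk (i + 1) →
      ‖pos x (st l) j' - pos x (st l) j‖ ≤ D := by
    intro j j' e1 e2 e3
    have b1 := hl.2.2.2 _ _ e1 (by omega)
    have b2 := hl.2.2.2 _ _ e3 l2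
    have b3 := hl.2.2.2 _ _ e2 (by omega)
    have b4 := abs_le.1 (hl.2.2.1 j (by omega))
    have b5 := abs_le.1 (hl.2.2.1 j' (by omega))
    have b6 : |A (pos x (st l) j' - pos x (st l) j)| ≤ 16 * W := by
      rw [map_sub, abs_le]; constructor <;> linarith
    have b7 : |B (pos x (st l) j' - pos x (st l) j)| ≤ 2 * W := by
      rw [map_sub, abs_le]; constructor <;> linarith
    refine (G.hN _).trans (le_trans ?_ hD)
    have : c * (|A (pos x (st l) j' - pos x (st l) j)| + |B (pos x (st l) j' - pos x (st l) j)|)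
        ≤ c * (20 * W) := mul_le_mul_of_nonneg_left (by linarith) (by linarith)
    linarith
  have f1 := (not_BadT g (nb (kk i) (by omega)) (nd _ _ le_rfl h1 h2)).trans (T_le ω x _ h1)
  have f2 := (not_BadT g (nb k (by omega)) (nd _ _ h1 h2 le_rfl)).trans (T_le ω x _ h2)
  have f3 := G.low (pos x (st l) k - pos x (st l) (kk i))
  have f4 := G.low' (pos x (st l) (kk (i + 1)) - pos x (st l) k)
  have f5 := tm_add ω x (st l) h1 h2
  simp only [map_sub] at f3 f4
  linarith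

open Classical in
lemma sum_ext (G : Geo ν A B U κ c) {x y : V} {l : List Dir} {W h s : ℝ} {M R D : ℕ}
    {kk : ℕ → ℕ} (hW : 0 < W) (hl : LaneP A B x y W l) (hm : Marks A x l W M kk)
    (hR : ‖x‖ + l.length ≤ R) (hD : 20 * c * W ≤ D) {ω : Om} (g : ω ∉ BadT ν R D s) :
    κ * h * ∑ i ∈ range (M + 1), (if Ext B x l (kk i) (kk (i + 1)) h then (1 : ℝ) else 0)
      ≤ tt ω x l - (A (y - x) + (1 - κ) * B (y - x)) + 2 * (M + 1) * s := by
  have h0 := sum_range_sub
    (fun i => A (pos x (st l) (kk i)) + (1 - κ) * B (pos x (st l) (kk i))) (M + 1)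
  rw [hm.1, hm.2.1, hl.1, pos_zero] at h0
  have h1 : ∑ i ∈ range (M + 1), (κ * h * (if Ext B x l (kk i) (kk (i + 1)) h then (1 : ℝ) else 0)
      + ((A (pos x (st l) (kk (i + 1))) + (1 - κ) * B (pos x (st l) (kk (i + 1))))
      - (A (pos x (st l) (kk i)) + (1 - κ) * B (pos x (st l) (kk i)))) - 2 * s)
      ≤ ∑ i ∈ range (M + 1), tm ω x (st l) (kk i) (kk (i + 1)) := by
    refine sum_le_sum fun i hi => ?_
    have hi' : i ≤ M := by have := mem_range.1 hi; omega
    split_ifs with hE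
    · obtain ⟨k, e1, e2, e3⟩ := hE
      have := piece_low G hW hl hm hR hD g hi' e1 e2
      have := mul_le_mul_of_nonneg_left e3.le G.k0.le
      linarith
    · have := piece_low G hW hl hm hR hD g hi' le_rfl (marks_mono hW hl hm hi')
      simp only [sub_self, abs_zero, mul_zero, add_zero] at this
      linarith
  rw [sum_tm hW hl hm, sum_sub_distrib, sum_add_distrib, h0, ← mul_sum] at h1
  simp only [sum_const, card_range, nsmul_eq_mul, map_sub] at h1 ⊢
  push_cast at h1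
  linarith

section rand
variable [IsProbabilityMeasure ν] {C : Finset (List Dir)} {x y : V} {W : ℝ} {M : ℕ}
  {kk : Om → ℕ → ℕ}

omit [IsProbabilityMeasure ν] in
lemma excE_meas (hk : ∀ i, DM (fun ω => kk ω i)) (t : ℝ) (i i' : ℕ) :
    MeasurableSet {ω | t ≤ exc ω x (sel C x ω) (kk ω i) (kk ω i')} :=
  measurableSet_le measurable_const
    (((sel_DM C x).prod ((hk i).prod (hk i'))).sel (fun p ω => exc ω x p.1 p.2.1 p.2.2)
      fun _ => exc_meas _ _ _ _)

omit [IsProbabilityMeasure ν] in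
lemma extE_meas (hk : ∀ i, DM (fun ω => kk ω i)) (h : ℝ) (i i' : ℕ) :
    MeasurableSet {ω | Ext B x (sel C x ω) (kk ω i) (kk ω i') h} :=
  ((sel_DM C x).prod ((hk i).prod (hk i'))).set (fun p => Ext B x p.1 p.2.1 p.2.2 h)

lemma row_exc (hν : Integrable (fun y => y ^ 2) ν) (hW : 0 < W) (hC : C.Nonempty)
    (hCl : ∀ l ∈ C, LaneP A B x y W l) (hk : ∀ i, DM (fun ω => kk ω i))
    (hm : ∀ ω, Marks A x (sel C x ω) W M (kk ω)) {t : ℝ} (ht : 0 < t) :
    ∑ i ∈ range (M + 1), (PP Ed ν).real {ω | t ≤ exc ω x (sel C x ω) (kk ω i) (kk ω (i + 1))}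
      ≤ (∫ ω, Zc C x ω ∂(PP Ed ν) + hh ν x - hh ν y) / t := by
  have i1 : Integrable (fun ω => Zc C x ω + T ω 0 x) (PP Ed ν) :=
    (Zc_int hν hC x).2.add (T_int hν 0 x)
  have i2 : Integrable (fun ω => Zc C x ω + T ω 0 x - T ω 0 y) (PP Ed ν) := i1.sub (T_int hν 0 y)
  refine (count_le (range (M + 1)) _ (fun i _ => excE_meas hk t i (i + 1)) (i2.div_const t)
    fun ω => ?_).trans (le_of_eq ?_)
  · have hl := hCl _ (sel_spec hC x ω).1
    have := sum_exc hW hl (hm ω) ω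
    unfold Zc
    rw [← this, sum_div]
    refine sum_le_sum fun i hi => ?_
    have hi' : i ≤ M := by have := mem_range.1 hi; omega
    have h0 := exc_nonneg ω x (sel C x ω) (marks_mono hW hl (hm ω) hi')
    simp only [Set.indicator, Set.mem_ofPred_eq]
    split_ifs with h
    · rw [le_div_iff₀ ht]; linarith
    · positivity
  · rw [integral_div, integral_sub i1 (T_int hν 0 y),
      integral_add (Zc_int hν hC x).2 (T_int hν 0 x)]
    rfl

lemma row_ext (hν : Integrable (fun y => y ^ 2) ν) (G : Geo ν A B U κ c) (hW : 0 < W)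
    (hC : C.Nonempty) (hCl : ∀ l ∈ C, LaneP A B x y W l) (hk : ∀ i, DM (fun ω => kk ω i))
    (hm : ∀ ω, Marks A x (sel C x ω) W M (kk ω)) {h s : ℝ} (hh0 : 0 < h) {R D : ℕ}
    (hR : ∀ l ∈ C, ‖x‖ + l.length ≤ R) (hD : 20 * c * W ≤ D) (hs : 0 ≤ s) :
    ∑ i ∈ range (M + 1), (PP Ed ν).real {ω | Ext B x (sel C x ω) (kk ω i) (kk ω (i + 1)) h}
      ≤ (∫ ω, Zc C x ω ∂(PP Ed ν) - (A (y - x) + (1 - κ) * B (y - x)) + 2 * (M + 1) * s) / (κ * h)
        + ((A (y - x) + (1 - κ) * B (y - x)) / (κ * h) + (M + 1))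
          * (PP Ed ν).real (BadT ν R D s) := by
  classical
  set φ := A (y - x) + (1 - κ) * B (y - x) with hφd
  have hκh : 0 < κ * h := mul_pos G.k0 hh0
  have i1 : Integrable (fun ω => Zc C x ω - φ) (PP Ed ν) :=
    (Zc_int hν hC x).2.sub (integrable_const _)
  have i2 : Integrable (fun ω => (Zc C x ω - φ + 2 * (M + 1) * s) / (κ * h)) (PP Ed ν) :=
    (i1.add (integrable_const _)).div_const _
  have i3 : Integrable ((BadT ν R D s).indicator (fun _ => φ / (κ * h) + (M + 1))) (PP Ed ν) :=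
    (integrable_const _).indicator (BadT_meas ν R D s)
  refine (count_le (range (M + 1)) _ (fun i _ => extE_meas hk h i (i + 1)) (i2.add i3)
    fun ω => ?_).trans (le_of_eq ?_)
  · simp only [Pi.add_apply]
    by_cases g : ω ∈ BadT ν R D s
    · rw [Set.indicator_of_mem g]
      have e1 : ∑ i ∈ range (M + 1), {ω | Ext B x (sel C x ω) (kk ω i) (kk ω (i + 1)) h}.indicator
          (fun _ => (1 : ℝ)) ω ≤ M + 1 := by
        refine (sum_le_card_nsmul _ _ 1 fun i _ => ?_).trans (by simp)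
        simp only [Set.indicator]; split_ifs <;> norm_num
      have e2 : 0 ≤ (Zc C x ω - φ + 2 * (M + 1) * s) / (κ * h) + φ / (κ * h) := by
        rw [← add_div]
        refine div_nonneg ?_ hκh.le
        have : 0 ≤ Zc C x ω := tm_nonneg _ _ _ _ _
        have : 0 ≤ 2 * ((M : ℝ) + 1) * s := by positivity
        linarith
      linarith
    · rw [Set.indicator_of_notMem g, add_zero, le_div_iff₀ hκh, mul_comm]
      have hl := (sel_spec hC x ω).1
      have := sum_ext (h := h) G hW (hCl _ hl) (hm ω) (hR _ hl) hD g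
      simp only [Set.indicator, Set.mem_ofPred_eq]
      refine le_trans (le_of_eq ?_) this
      congr
  · simp only [Pi.add_apply]
    rw [integral_add i2 i3, integral_div, integral_add i1 (integrable_const _),
      integral_sub (Zc_int hν hC x).2 (integrable_const _),
      integral_indicator_const _ (BadT_meas ν R D s)]
    simp [mul_comm]

end rand

lemma card_par (G : Geo ν A B U κ c) (S : Finset V) {a b p q : ℝ} (hp : 0 ≤ p) (hq : 0 ≤ q)
    (h : ∀ z ∈ S, a ≤ A z ∧ A z ≤ a + p ∧ b ≤ B z ∧ B z ≤ b + q) :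
    (S.card : ℝ) ≤ (2 * c * p + 1) * (2 * c * q + 1) := by
  have hc := G.c1
  have h1 : S.card ≤ ((Icc 0 ⌊2 * c * p⌋) ×ˢ (Icc 0 ⌊2 * c * q⌋)).card := by
    refine card_le_card_of_injOn (fun z => (⌊2 * c * (A z - a)⌋, ⌊2 * c * (B z - b)⌋)) ?_ ?_
    · intro z hz
      obtain ⟨e1, e2, e3, e4⟩ := h z hz
      simp only [coe_product, coe_Icc, Set.mem_prod, Set.mem_Icc]
      refine ⟨⟨Int.floor_nonneg.2 ?_, Int.floor_mono ?_⟩, Int.floor_nonneg.2 ?_, Int.floor_mono ?_⟩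
      · exact mul_nonneg (by linarith) (by linarith)
      · exact mul_le_mul_of_nonneg_left (by linarith) (by linarith)
      · exact mul_nonneg (by linarith) (by linarith)
      · exact mul_le_mul_of_nonneg_left (by linarith) (by linarith)
    · intro z _ z' _ hzz
      simp only [Prod.mk.injEq] at hzz
      have e1 := Int.abs_sub_lt_one_of_floor_eq_floor hzz.1
      have e2 := Int.abs_sub_lt_one_of_floor_eq_floor hzz.2
      have e3 : 2 * c * (A z - a) - 2 * c * (A z' - a) = 2 * c * A (z - z') := by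
        rw [map_sub]; ring
      have e4 : 2 * c * (B z - b) - 2 * c * (B z' - b) = 2 * c * B (z - z') := by
        rw [map_sub]; ring
      rw [e3, abs_mul, abs_of_nonneg (by linarith : 0 ≤ 2 * c)] at e1
      rw [e4, abs_mul, abs_of_nonneg (by linarith : 0 ≤ 2 * c)] at e2
      have e5 : ‖z - z'‖ < 1 := by linarith [G.hN (z - z')]
      ext i
      have e6 := (norm_le_pi_norm (z - z') i).trans_lt e5
      rw [Int.norm_eq_abs] at e6
      have e7 : |(z - z') i| < 1 := by exact_mod_cast e6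
      rw [Int.abs_lt_one_iff, Pi.sub_apply] at e7
      omega
  rw [card_product, Int.card_Icc, Int.card_Icc] at h1
  have key : ∀ x : ℝ, 0 ≤ x → (((⌊x⌋ + 1 - 0).toNat : ℕ) : ℝ) ≤ x + 1 := by
    intro x hx
    have e1 : (0 : ℤ) ≤ ⌊x⌋ := Int.floor_nonneg.2 hx
    have e2 : (((⌊x⌋ + 1 - 0).toNat : ℕ) : ℤ) = ⌊x⌋ + 1 := by omega
    have e3 : (((⌊x⌋ + 1 - 0).toNat : ℕ) : ℝ) = ⌊x⌋ + 1 := by exact_mod_cast e2
    rw [e3]; linarith [Int.floor_le x]
  calc (S.card : ℝ) ≤ (((⌊2 * c * p⌋ + 1 - 0).toNat : ℕ) : ℝ) * (((⌊2 * c * q⌋ + 1 - 0).toNat : ℕ) : ℝ) := by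
        exact_mod_cast h1
    _ ≤ _ := mul_le_mul (key _ (by positivity)) (key _ (by positivity)) (by positivity)
        (by positivity)

lemma tm_gain {ω ω' : Om} (hle : ∀ e, ω' e ≤ ω e) {r1 r2 : ℝ} (h1 : 0 ≤ r1)
    (x : V) (σ : ℕ → Dir) {a b : ℕ} (J : Finset ℕ) (hJ : J ⊆ Ico a b)
    (hr : ∀ k ∈ J, r2 < ω (ed x σ k) ∧ ω' (ed x σ k) ≤ r1) :
    tm ω' x σ a b + (r2 - r1) * J.card ≤ tm ω x σ a b := by
  have e1 : (J.card : ℝ) * (r2 - r1)
      ≤ ∑ k ∈ J, (max (ω (ed x σ k)) 0 - max (ω' (ed x σ k)) 0) := by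
    rw [← nsmul_eq_mul]
    refine card_nsmul_le_sum _ _ _ fun k hk => ?_
    have := le_max_left (ω (ed x σ k)) 0
    have := max_le (hr k hk).2 h1
    linarith [(hr k hk).1]
  have e2 : ∑ k ∈ J, (max (ω (ed x σ k)) 0 - max (ω' (ed x σ k)) 0)
      ≤ ∑ k ∈ Ico a b, (max (ω (ed x σ k)) 0 - max (ω' (ed x σ k)) 0) :=
    sum_le_sum_of_subset_of_nonneg hJ fun k _ _ => sub_nonneg.2 (max_le_max (hle _) le_rfl)
  have e3 := e1.trans e2
  rw [sum_sub_distrib] at e3
  unfold tm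
  linarith

lemma tm_mono {ω ω' : Om} (hle : ∀ e, ω' e ≤ ω e) (x : V) (σ : ℕ → Dir) (a b : ℕ) :
    tm ω' x σ a b ≤ tm ω x σ a b :=
  sum_le_sum fun _ _ => max_le_max (hle _) le_rfl

lemma tm_local {ω ω' : Om} {S : Finset Ed} (h : ∀ e, e ∉ S → ω' e = ω e) (x : V) (σ : ℕ → Dir)
    {a b k : ℕ} (hb : b ≤ k) (hS : ∀ j < k, ed x σ j ∉ S) : tm ω' x σ a b = tm ω x σ a b :=
  sum_congr rfl fun j hj => by rw [h _ (hS j (lt_of_lt_of_le (mem_Ico.1 hj).2 hb))]

end Pool.Agent.P.MP_dcd5d0_pr
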