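import Pool.Agent.P.MP_dcd5d0_pr.Grid1

/-! The grid of lanes and the effect of lowering weights in one band. -/

set_option autoImplicit false

open MeasureTheory ProbabilityTheory Finset Function Filter Topology
open scoped ENNReal

namespace Pool.Agent.P.MP_dcd5d0_pr

open Classical in
noncomputable def cr (x : V) (l : List Dir) (x' : V) (l' : List Dir) : ℕ × ℕ :=
  if h : ∃ p : ℕ × ℕ, p.1 ≤ l.length ∧ p.2 ≤ l'.length ∧ pos x (st l) p.1 = pos x' (st l') p.2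
  then h.choose else (0, 0)

structure GD where
  xH : ℕ → V
  yH : ℕ → V
  xV : ℕ → V
  yV : ℕ → V
  CH : ℕ → Finset (List Dir)
  CV : ℕ → Finset (List Dir)
  M : ℕ
  W : ℝ

noncomputable def GD.H (g : GD) (j : ℕ) (ω : Om) : List Dir := sel (g.CH j) (g.xH j) ω
noncomputable def GD.L (g : GD) (i : ℕ) (ω : Om) : List Dir := sel (g.CV i) (g.xV i) ω

noncomputable def GD.kH (g : GD) (j : ℕ) (ω : Om) (i : ℕ) : ℕ :=
  if i = 0 then 0 else if i ≤ g.M then (cr (g.xH j) (g.H j ω) (g.xV i) (g.L i ω)).1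
  else (g.H j ω).length

noncomputable def GD.kV (g : GD) (i : ℕ) (ω : Om) (j : ℕ) : ℕ :=
  if j = 0 then 0 else if j ≤ g.M then (cr (g.xH j) (g.H j ω) (g.xV i) (g.L i ω)).2
  else (g.L i ω).length

def Fam (A B : V →+ ℝ) (x y : ℕ → V) (C : ℕ → Finset (List Dir)) (M : ℕ) (W : ℝ) : Prop :=
  ∀ j, 1 ≤ j → j ≤ M → (C j).Nonempty ∧ (∀ l ∈ C j, LaneP A B (x j) (y j) W l) ∧
    |A (x j)| ≤ W ∧ |B (x j) - j * (10 * W)| ≤ W ∧ |A (y j) - (M + 1) * (10 * W)| ≤ 2 * W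

structure GD.Ok (g : GD) (A B : V →+ ℝ) : Prop where
  W0 : 0 < g.W
  fH : Fam A B g.xH g.yH g.CH g.M g.W
  fV : Fam B A g.xV g.yV g.CV g.M g.W
  inj : ∃ u v : Fin 2 → ℝ, ∀ (z : V) (i : Fin 2), (z i : ℝ) = A z * u i + B z * v i

lemma Fam.tube {A B : V →+ ℝ} {x y : ℕ → V} {C : ℕ → Finset (List Dir)} {M : ℕ} {W : ℝ}
    (F : Fam A B x y C M W) {j : ℕ} (h1 : 1 ≤ j) (h2 : j ≤ M) {l : List Dir} (hl : l ∈ C j)
    {k : ℕ} (hk : k ≤ l.length) : |B (pos (x j) (st l) k) - j * (10 * W)| ≤ 2 * W := by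
  obtain ⟨_, a, _, b, _⟩ := F j h1 h2
  have e1 := abs_le.1 ((a l hl).2.2.1 k hk)
  have e2 := abs_le.1 b
  rw [abs_le]; constructor <;> linarith

variable {g : GD} {A B : V →+ ℝ}

lemma GD.Ok.memH (o : g.Ok A B) {j : ℕ} (h1 : 1 ≤ j) (h2 : j ≤ g.M) (ω : Om) :
    g.H j ω ∈ g.CH j := (sel_spec (o.fH j h1 h2).1 _ ω).1

lemma GD.Ok.memV (o : g.Ok A B) {i : ℕ} (h1 : 1 ≤ i) (h2 : i ≤ g.M) (ω : Om) :
    g.L i ω ∈ g.CV i := (sel_spec (o.fV i h1 h2).1 _ ω).1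

lemma GD.Ok.cr_spec (o : g.Ok A B) {i j : ℕ} (i1 : 1 ≤ i) (i2 : i ≤ g.M) (j1 : 1 ≤ j)
    (j2 : j ≤ g.M) (ω : Om) :
    g.kH j ω i ≤ (g.H j ω).length ∧ g.kV i ω j ≤ (g.L i ω).length ∧
      pos (g.xH j) (st (g.H j ω)) (g.kH j ω i) = pos (g.xV i) (st (g.L i ω)) (g.kV i ω j) := by
  obtain ⟨u, v, huv⟩ := o.inj
  have hW := o.W0
  have mH := o.memH j1 j2 ω
  have mV := o.memV i1 i2 ω
  obtain ⟨_, a1, a2, _, a4⟩ := o.fH j j1 j2
  obtain ⟨_, b1, b2, _, b4⟩ := o.fV i i1 i2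
  have i1' : (1 : ℝ) ≤ i := by exact_mod_cast i1
  have i2' : (i : ℝ) ≤ g.M := by exact_mod_cast i2
  have j1' : (1 : ℝ) ≤ j := by exact_mod_cast j1
  have j2' : (j : ℝ) ≤ g.M := by exact_mod_cast j2
  have hex := crossing A B u v huv (g.xH j) (g.xV i) (st (g.H j ω)) (st (g.L i ω))
    (g.H j ω).length (g.L i ω).length
    (fun l hl => by
      have := (abs_le.1 (o.fV.tube i1 i2 mV hl)).1
      have := (abs_le.1 a2).2
      nlinarith)
    (fun l hl => by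
      have := (abs_le.1 (o.fV.tube i1 i2 mV hl)).2
      have := (abs_le.1 a4).1
      rw [(a1 _ mH).1]
      nlinarith)
    (fun l hl => by
      have := (abs_le.1 (o.fH.tube j1 j2 mH hl)).1
      have := (abs_le.1 b2).2
      nlinarith)
    (fun l hl => by
      have := (abs_le.1 (o.fH.tube j1 j2 mH hl)).2
      have := (abs_le.1 b4).1
      rw [(b1 _ mV).1]
      nlinarith)
  have hex' : ∃ p : ℕ × ℕ, p.1 ≤ (g.H j ω).length ∧ p.2 ≤ (g.L i ω).length ∧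
      pos (g.xH j) (st (g.H j ω)) p.1 = pos (g.xV i) (st (g.L i ω)) p.2 := by
    obtain ⟨k, hk, l, hl, h⟩ := hex
    exact ⟨(k, l), hk, hl, h⟩
  unfold GD.kH GD.kV cr
  rw [if_neg (by omega), if_pos i2, if_neg (by omega), if_pos j2, dif_pos hex']
  exact hex'.choose_spec

lemma GD.Ok.marksH (o : g.Ok A B) {j : ℕ} (j1 : 1 ≤ j) (j2 : j ≤ g.M) (ω : Om) :
    Marks A (g.xH j) (g.H j ω) g.W g.M (g.kH j ω) := by
  have hW := o.W0
  obtain ⟨_, a1, a2, _, a4⟩ := o.fH j j1 j2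
  refine ⟨by simp [GD.kH], by simp [GD.kH], fun i hi => ?_⟩
  by_cases h0 : i = 0
  · subst h0; simp [GD.kH]; linarith
  by_cases h1 : i ≤ g.M
  · obtain ⟨e1, e2, e3⟩ := o.cr_spec (by omega) h1 j1 j2 ω
    refine ⟨e1, ?_⟩
    rw [e3]; exact o.fV.tube (by omega) h1 (o.memV (by omega) h1 ω) e2
  · have : i = g.M + 1 := by omega
    subst this
    have : g.kH j ω (g.M + 1) = (g.H j ω).length := by simp [GD.kH]
    rw [this, (a1 _ (o.memH j1 j2 ω)).1]
    exact ⟨le_rfl, by push_cast; exact a4⟩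

lemma GD.Ok.marksV (o : g.Ok A B) {i : ℕ} (i1 : 1 ≤ i) (i2 : i ≤ g.M) (ω : Om) :
    Marks B (g.xV i) (g.L i ω) g.W g.M (g.kV i ω) := by
  have hW := o.W0
  obtain ⟨_, a1, a2, _, a4⟩ := o.fV i i1 i2
  refine ⟨by simp [GD.kV], by simp [GD.kV], fun j hj => ?_⟩
  by_cases h0 : j = 0
  · subst h0; simp [GD.kV]; linarith
  by_cases h1 : j ≤ g.M
  · obtain ⟨e1, e2, e3⟩ := o.cr_spec i1 i2 (by omega) h1 ω
    refine ⟨e2, ?_⟩
    rw [← e3]; exact o.fH.tube (by omega) h1 (o.memH (by omega) h1 ω) e1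
  · have : j = g.M + 1 := by omega
    subst this
    have : g.kV i ω (g.M + 1) = (g.L i ω).length := by simp [GD.kV]
    rw [this, (a1 _ (o.memV i1 i2 ω)).1]
    exact ⟨le_rfl, by push_cast; exact a4⟩

lemma GD.kH_DM (g : GD) (j i : ℕ) : DM (fun ω => g.kH j ω i) :=
  ((sel_DM (g.CH j) (g.xH j)).prod (sel_DM (g.CV i) (g.xV i))).comp
    (fun p => if i = 0 then 0 else if i ≤ g.M then (cr (g.xH j) p.1 (g.xV i) p.2).1 else p.1.length)

lemma GD.kV_DM (g : GD) (i j : ℕ) : DM (fun ω => g.kV i ω j) :=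
  ((sel_DM (g.CH j) (g.xH j)).prod (sel_DM (g.CV i) (g.xV i))).comp
    (fun p => if j = 0 then 0 else if j ≤ g.M then (cr (g.xH j) p.1 (g.xV i) p.2).2 else p.2.length)

def GD.EH (g : GD) (t : ℝ) (i j : ℕ) : Set Om :=
  {ω | t ≤ exc ω (g.xH j) (g.H j ω) (g.kH j ω i) (g.kH j ω (i + 1))}

def GD.EV (g : GD) (t : ℝ) (i j : ℕ) : Set Om :=
  {ω | t ≤ exc ω (g.xV i) (g.L i ω) (g.kV i ω j) (g.kV i ω (j + 1))}

def GD.EX (g : GD) (B : V →+ ℝ) (h : ℝ) (i j : ℕ) : Set Om :=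
  {ω | Ext B (g.xH j) (g.H j ω) (g.kH j ω i) (g.kH j ω (i + 1)) h}

def GD.Vis (g : GD) (S : Finset Ed) (j : ℕ) : Set Om :=
  {ω | ∃ k < (g.H j ω).length, ed (g.xH j) (st (g.H j ω)) k ∈ S}

open Classical in
/-- base points of a band -/
noncomputable def band (A B : V →+ ℝ) (R : ℕ) (W h : ℝ) (i : ℕ) (b : ℤ) : Finset V :=
  (box R).filter (fun z => i * (10 * W) + 4 * W ≤ A z ∧ A z ≤ i * (10 * W) + 6 * W ∧
    (b - 1) * h ≤ B z ∧ B z ≤ (b + 2) * h)

lemma mem_band {R : ℕ} {W h : ℝ} {i : ℕ} {b : ℤ} {e : Ed} :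
    e ∈ band A B R W h i b ×ˢ (univ : Finset (Fin 2)) ↔ ‖e.1‖ ≤ R ∧ i * (10 * W) + 4 * W ≤ A e.1 ∧
      A e.1 ≤ i * (10 * W) + 6 * W ∧ (b - 1) * h ≤ B e.1 ∧ B e.1 ≤ (b + 2) * h := by
  unfold band
  simp [mem_box]

lemma sel_local {C : Finset (List Dir)} {x : V} {S : Finset Ed} {ω ω' : Om}
    (h : ∀ e, e ∉ S → ω' e = ω e) (hS : ∀ l ∈ C, ∀ k < l.length, ed x (st l) k ∉ S) :
    sel C x ω' = sel C x ω :=
  sel_congr fun l hl => tm_local h x _ le_rfl (hS l hl)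

lemma ed_avoid {x : V} {l : List Dir} {S : Finset Ed} {p : V → Prop}
    (h1 : ∀ k ≤ l.length, p (pos x (st l) k)) (h2 : ∀ e ∈ S, ¬ p e.1) :
    ∀ k < l.length, ed x (st l) k ∉ S := by
  intro k hk hS
  refine h2 _ hS ?_
  rcases ed_base x (st l) k with h | h <;> rw [h]
  · exact h1 k hk.le
  · exact h1 (k + 1) hk

lemma lip_pos {c : ℝ} (hc : 0 ≤ c) (hA : ∀ z, |A z| ≤ c * ‖z‖) (x : V) (σ : ℕ → Dir) (k d : ℕ) :
    |A (pos x σ (k + d)) - A (pos x σ k)| ≤ c * d := by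
  rw [← map_sub]
  exact (hA _).trans (mul_le_mul_of_nonneg_left (norm_pos_sub x σ k d) hc)

lemma block_det (o : g.Ok A B) {c : ℝ} (hc : 0 ≤ c) (hA : ∀ z, |A z| ≤ c * ‖z‖)
    {r1 r2 t h q : ℝ} {R n i j : ℕ} {b : ℤ} (hr1 : 0 ≤ r1) (h12 : r1 ≤ r2) (ht : 0 < t)
    (hq : 6 * t ≤ (r2 - r1) * q) (hhW : h ≤ g.W) (hn : c * (n + 1) ≤ g.W)
    (i1 : 1 ≤ i) (i2 : i + 1 ≤ g.M) (j1 : 1 ≤ j) (j2 : j + 2 ≤ g.M)
    (hR : ∀ l ∈ g.CH (j + 1), ‖g.xH (j + 1)‖ + l.length ≤ R) {ω : Om}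
    (g1 : ω ∉ g.EV t i j) (g2 : ω ∉ g.EH t i (j + 1)) (g3 : ω ∉ g.EV t (i + 1) (j + 1))
    (g4 : ω ∉ g.EX B h i (j + 1)) (g5 : ω ∉ BadQ r2 R n)
    (hb1 : b * h ≤ B (pos (g.xH (j + 1)) (st (g.H (j + 1) ω)) (g.kH (j + 1) ω i)))
    (hb2 : B (pos (g.xH (j + 1)) (st (g.H (j + 1) ω)) (g.kH (j + 1) ω i)) ≤ (b + 1) * h) :
    ∃ F : Finset Ed, F ⊆ band A B R g.W h i b ×ˢ univ ∧ (n : ℝ) / 2 ≤ F.card ∧
      (∀ e ∈ F, r2 < ω e) ∧ ∀ ω' : Om, (∀ e, e ∉ band A B R g.W h i b ×ˢ univ → ω' e = ω e) →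
        (∀ e, ω' e ≤ ω e) → q ≤ ((F.filter (fun e => ω' e ≤ r1)).card : ℝ) →
        ω' ∈ (g.EV t i j ∪ g.EV t i (j + 1) ∪ g.EH t i (j + 2))
          ∩ g.Vis (band A B R g.W h i b ×ˢ univ) (j + 1) := by
  have hW := o.W0
  set S := band A B R g.W h i b ×ˢ (univ : Finset (Fin 2)) with hS
  set x := g.xH (j + 1) with hx
  set lH := g.H (j + 1) ω with hlH
  set a := g.kH (j + 1) ω i with ha
  set a' := g.kH (j + 1) ω (i + 1) with ha'
  have mH : lH ∈ g.CH (j + 1) := o.memH (by omega) (by omega) ω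
  have pH := (o.fH (j + 1) (by omega) (by omega)).2.1 _ mH
  have mk := o.marksH (j := j + 1) (by omega) (by omega) ω
  have haa : a ≤ a' := marks_mono hW pH mk (by omega)
  obtain ⟨_, Aa⟩ := mk.2.2 i (by omega)
  obtain ⟨la', Aa'⟩ := mk.2.2 (i + 1) (by omega)
  rw [← ha, ← hx, ← hlH] at Aa
  rw [← ha', ← hx, ← hlH] at Aa'
  rw [← ha', ← hlH] at la'
  push_cast at Aa'
  have Aa1 := abs_le.1 Aa
  have Aa2 := abs_le.1 Aa'
  have hn0 : (0 : ℝ) ≤ n := by positivity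
  obtain ⟨k, k1, k2, k3, k4⟩ := ivt (fun m => A (pos x (st lH) m)) c (i * (10 * g.W) + 5 * g.W)
    (fun m => by
      have := (abs_le.1 (lip_pos hc hA x (st lH) m 1)).2
      push_cast at this; linarith) hc a (a' - a) (by linarith)
    (by rw [Nat.add_sub_cancel' haa]; linarith)
  rw [Nat.add_sub_cancel' haa] at k2
  have hcol : ∀ m ≤ n, i * (10 * g.W) + 4 * g.W ≤ A (pos x (st lH) (k + m)) ∧
      A (pos x (st lH) (k + m)) ≤ i * (10 * g.W) + 6 * g.W := by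
    intro m hm
    have e1 := abs_le.1 (lip_pos hc hA x (st lH) k m)
    have e2 : c * m ≤ c * n := mul_le_mul_of_nonneg_left (by exact_mod_cast hm) hc
    constructor <;> linarith
  have hkn : k + n ≤ a' := by
    by_contra hcon
    have := (hcol (a' - k) (by omega)).2
    rw [Nat.add_sub_cancel' k2] at this
    linarith
  have hnorm : ∀ m ≤ lH.length, ‖pos x (st lH) m‖ ≤ R := by
    intro m hm
    have := norm_add_le (pos x (st lH) m - x) x
    rw [sub_add_cancel] at this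
    have e1 := norm_pos_sub0 x (st lH) m
    have e2 : (m : ℝ) ≤ lH.length := by exact_mod_cast hm
    linarith [hR _ mH]
  have hin : ∀ m ≤ n, ∀ e : Ed, e.1 = pos x (st lH) (k + m) → e ∈ S := by
    intro m hm e he
    rw [hS, mem_band, he]
    have e1 : |B (pos x (st lH) (k + m)) - B (pos x (st lH) a)| ≤ h := by
      by_contra hcon
      exact g4 ⟨k + m, by omega, by omega, not_le.1 hcon⟩
    have e2 := abs_le.1 e1
    exact ⟨hnorm _ (by omega), (hcol m hm).1, (hcol m hm).2, by linarith, by linarith⟩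
  have hinj : Set.InjOn (fun m => ed x (st lH) (k + m)) (Set.Iio n) := by
    intro m hm m' hm' hmm
    have := pH.2.1 (show k + m ∈ Set.Iio lH.length from by simp only [Set.mem_Iio] at hm ⊢; omega)
      (show k + m' ∈ Set.Iio lH.length from by simp only [Set.mem_Iio] at hm' ⊢; omega) hmm
    omega
  set J0 := (range n).filter (fun m => r2 < ω (ed x (st lH) (k + m))) with hJ0
  have hJ0c : n < 2 * J0.card := by
    by_contra hcon
    refine g5 ⟨pos x (st lH) k, hnorm _ (by omega), fun m => st lH (k + m), ?_, ?_⟩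
    · intro m hm m' hm' hmm
      rw [ed_shift, ed_shift] at hmm
      exact hinj hm hm' hmm
    · simp only [ed_shift]; exact not_lt.1 hcon
  refine ⟨J0.image (fun m => ed x (st lH) (k + m)), ?_, ?_, ?_, ?_⟩
  · intro e he
    obtain ⟨m, hm, rfl⟩ := mem_image.1 he
    have hm' := mem_range.1 (mem_filter.1 hm).1
    rcases ed_base x (st lH) (k + m) with h | h
    · exact hin m hm'.le _ h
    · exact hin (m + 1) hm' _ h
  · rw [card_image_of_injOn (hinj.mono fun m hm => mem_range.1 (mem_filter.1 hm).1)]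
    have : (n : ℝ) ≤ 2 * J0.card := by exact_mod_cast hJ0c.le
    linarith
  · intro e he
    obtain ⟨m, hm, rfl⟩ := mem_image.1 he
    exact (mem_filter.1 hm).2
  intro ω' hloc hle hcard
  set J := (J0.filter (fun m => ω' (ed x (st lH) (k + m)) ≤ r1)).image (fun m => k + m) with hJ
  have hJc : q ≤ J.card := by
    refine hcard.trans ?_
    have : ((J0.image (fun m => ed x (st lH) (k + m))).filter (fun e => ω' e ≤ r1)).card
        ≤ J.card := by
      refine le_trans (card_le_card ?_) (card_image_le (f := ed x (st lH)))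
      intro e he
      obtain ⟨he1, he2⟩ := mem_filter.1 he
      obtain ⟨m, hm, rfl⟩ := mem_image.1 he1
      exact mem_image.2 ⟨k + m, mem_image.2 ⟨m, mem_filter.2 ⟨hm, he2⟩, rfl⟩, rfl⟩
    exact_mod_cast this
  have hJp : ∀ m ∈ J, (a ≤ m ∧ m < a') ∧ r2 < ω (ed x (st lH) m) ∧ ω' (ed x (st lH) m) ≤ r1 := by
    intro m hm
    obtain ⟨m', hm', rfl⟩ := mem_image.1 hm
    obtain ⟨e1, e2⟩ := mem_filter.1 hm'
    obtain ⟨e3, e4⟩ := mem_filter.1 e1
    have := mem_range.1 e3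
    exact ⟨⟨by omega, by omega⟩, e4, e2⟩
  have hΔ : 6 * t ≤ (r2 - r1) * J.card :=
    hq.trans (mul_le_mul_of_nonneg_left hJc (by linarith))
  have gain1 := tm_gain hle hr1 x (st lH) (a := a) (b := a') J
    (fun m hm => mem_Ico.2 (hJp m hm).1) (fun m hm => (hJp m hm).2)
  have gain2 := tm_gain hle hr1 x (st lH) (a := 0) (b := lH.length) J
    (fun m hm => mem_Ico.2 ⟨Nat.zero_le _, by have := (hJp m hm).1.2; omega⟩)
    (fun m hm => (hJp m hm).2)
  have tb := abs_le.1 (o.fH.tube (j := j + 1) (by omega) (by omega) mH (haa.trans la'))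
  rw [← hx] at tb
  push_cast at tb
  have avV : ∀ i', i' = i ∨ i' = i + 1 → ∀ l ∈ g.CV i', ∀ k < l.length,
      ed (g.xV i') (st l) k ∉ S := by
    intro i' hi' l hl
    refine ed_avoid (p := fun z => |A z - i' * (10 * g.W)| ≤ 2 * g.W)
      (fun k hk => o.fV.tube (by omega) (by omega) hl hk) fun e he hp => ?_
    rw [hS, mem_band] at he
    have := abs_le.1 hp
    rcases hi' with rfl | rfl
    · linarith [he.2.1]
    · push_cast at this; linarith [he.2.2.1]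
  have avH : ∀ j', j' = j ∨ j' = j + 2 → ∀ l ∈ g.CH j', ∀ k < l.length,
      ed (g.xH j') (st l) k ∉ S := by
    intro j' hj' l hl
    refine ed_avoid (p := fun z => |B z - j' * (10 * g.W)| ≤ 2 * g.W)
      (fun k hk => o.fH.tube (by omega) (by omega) hl hk) fun e he hp => ?_
    rw [hS, mem_band] at he
    have := abs_le.1 hp
    rcases hj' with rfl | rfl
    · linarith [he.2.2.2.1]
    · push_cast at this; linarith [he.2.2.2.2]
  have sV0 : g.L i ω' = g.L i ω := sel_local hloc (avV i (Or.inl rfl))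
  have sV1 : g.L (i + 1) ω' = g.L (i + 1) ω := sel_local hloc (avV _ (Or.inr rfl))
  have sH0 : g.H j ω' = g.H j ω := sel_local hloc (avH j (Or.inl rfl))
  have sH2 : g.H (j + 2) ω' = g.H (j + 2) ω := sel_local hloc (avH _ (Or.inr rfl))
  constructor
  · by_contra hcon
    simp only [Set.mem_union, not_or, GD.EV, GD.EH, Set.mem_ofPred_eq, not_le] at hcon g1 g2 g3
    obtain ⟨⟨c1, c2⟩, c3⟩ := hcon
    have q1 : g.kV i ω' j = g.kV i ω j := by unfold GD.kV; rw [sV0, sH0]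
    have q2 : g.kV i ω' (j + 1 + 1) = g.kV i ω (j + 2) := by unfold GD.kV; rw [sV0, sH2]
    have q3 : g.kH (j + 2) ω' i = g.kH (j + 2) ω i := by unfold GD.kH; rw [sV0, sH2]
    have q4 : g.kH (j + 2) ω' (i + 1) = g.kH (j + 2) ω (i + 1) := by unfold GD.kH; rw [sV1, sH2]
    have mV0 := o.memV i1 (by omega) ω
    have pV0 := (o.fV i i1 (by omega)).2.1 _ mV0
    have mV1 := o.memV (i := i + 1) (by omega) i2 ω
    have pV1 := (o.fV (i + 1) (by omega) i2).2.1 _ mV1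
    have mH2 := o.memH (j := j + 2) (by omega) j2 ω
    have pH2 := (o.fH (j + 2) (by omega) j2).2.1 _ mH2
    have mk' := o.marksV i1 (by omega) ω'
    have o1 := marks_mono hW (sV0 ▸ pV0) mk' (i := j) (by omega)
    have o2 := marks_mono hW (sV0 ▸ pV0) mk' (i := j + 1) (by omega)
    have o3 := marks_mono hW pV0 (o.marksV i1 (by omega) ω) (i := j) (by omega)
    have o4 := marks_mono hW pV1 (o.marksV (by omega) i2 ω) (i := j + 1) (by omega)
    have o5 := marks_mono hW pH2 (o.marksH (by omega) j2 ω) (i := i) (by omega)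
    obtain ⟨_, _, z1⟩ := o.cr_spec (j := j + 1) i1 (by omega) (by omega) (by omega) ω
    obtain ⟨_, _, z2⟩ := o.cr_spec (i := i + 1) (j := j + 1) (by omega) i2 (by omega) (by omega) ω
    obtain ⟨_, w3, z3⟩ := o.cr_spec (j := j + 2) i1 (by omega) (by omega) j2 ω
    obtain ⟨w4, _, z4⟩ := o.cr_spec (i := i + 1) (j := j + 2) (by omega) i2 (by omega) j2 ω
    rw [sV0, q1] at c1
    rw [sV0, q2] at c2
    rw [sH2, q3, q4] at c3
    rw [q1] at o1
    rw [q2] at o2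
    unfold exc at c1 c2 c3 g1 g2 g3
    rw [← hx, ← hlH, ← ha] at z1
    rw [← hx, ← hlH, ← ha'] at z2
    rw [← hx, ← hlH, ← ha, ← ha'] at g2
    have y1 := tm_add ω' (g.xV i) (st (g.L i ω)) o1 o2
    have y2 := tm_local hloc (g.xV i) (st (g.L i ω)) (a := g.kV i ω j) w3 (avV i (Or.inl rfl) _ mV0)
    have y3 := tm_local hloc (g.xH (j + 2)) (st (g.H (j + 2) ω)) (a := g.kH (j + 2) ω i) w4
      (avH _ (Or.inr rfl) _ mH2)
    have y4 := T_le ω (g.xV i) (st (g.L i ω)) (o1.trans o2)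
    have y5 := T_le ω (g.xH (j + 2)) (st (g.H (j + 2) ω)) o5
    have y6 := T_le ω' (g.xV i) (st (g.L i ω)) o3
    have y7 := T_le ω' x (st lH) haa
    have y8 := T_le ω' (g.xV (i + 1)) (st (g.L (i + 1) ω)) o4
    have y9 := tm_mono hle (g.xV i) (st (g.L i ω)) (g.kV i ω j) (g.kV i ω (j + 1))
    have y10 := tm_mono hle (g.xV (i + 1)) (st (g.L (i + 1) ω)) (g.kV (i + 1) ω (j + 1))
      (g.kV (i + 1) ω (j + 1 + 1))
    rw [z3, z4] at c3 y5
    rw [z1, z2] at g2 y7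
    set pa := pos (g.xV i) (st (g.L i ω)) (g.kV i ω j)
    set pz := pos (g.xV i) (st (g.L i ω)) (g.kV i ω (j + 1))
    set pd := pos (g.xV i) (st (g.L i ω)) (g.kV i ω (j + 2))
    set pz' := pos (g.xV (i + 1)) (st (g.L (i + 1) ω)) (g.kV (i + 1) ω (j + 1))
    set pb := pos (g.xV (i + 1)) (st (g.L (i + 1) ω)) (g.kV (i + 1) ω (j + 2))
    have t1 := T_tri ω 0 pa pd
    have t2 := T_tri ω 0 pd pb
    have t3 := T_tri ω' 0 pa pz
    have t4 := T_tri ω' 0 pz pz'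
    have t5 := T_tri ω' 0 pz' pb
    linarith
  · by_contra hcon
    simp only [GD.Vis, Set.mem_ofPred_eq, not_exists, not_and] at hcon
    have ne := (o.fH (j + 1) (by omega) (by omega)).1
    have y1 := tm_local hloc x (st (g.H (j + 1) ω')) (a := 0) le_rfl hcon
    have y2 := (sel_spec ne x ω).2 _ (sel_spec ne x ω').1
    have y3 := (sel_spec ne x ω').2 _ (sel_spec ne x ω).1
    change tt ω x lH ≤ tt ω x (g.H (j + 1) ω') at y2
    change tt ω' x (g.H (j + 1) ω') ≤ tt ω' x lH at y3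
    unfold tt at y2 y3
    linarith

end Pool.Agent.P.MP_dcd5d0_pr
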