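import Pool.Agent.P.MP_dcd5d0_pr.Grid2

/-! The probability inequality for one block, and its sum over the grid. -/

set_option autoImplicit false

open MeasureTheory ProbabilityTheory Finset Function Filter Topology
open scoped ENNReal

namespace Pool.Agent.P.MP_dcd5d0_pr

variable {g : GD} {A B : V →+ ℝ}

lemma vis_range (o : g.Ok A B) {h : ℝ} (h0 : 0 < h) {R i j : ℕ} {b : ℤ} (i2 : i ≤ g.M)
    (j1 : 1 ≤ j) (j2 : j ≤ g.M) {ω : Om} (g4 : ω ∉ g.EX B h i j)
    (hv : ω ∈ g.Vis (band A B R g.W h i b ×ˢ univ) j) :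
    b ∈ Icc (⌊B (pos (g.xH j) (st (g.H j ω)) (g.kH j ω i)) / h⌋ - 3)
      (⌊B (pos (g.xH j) (st (g.H j ω)) (g.kH j ω i)) / h⌋ + 3) := by
  have hW := o.W0
  obtain ⟨k, hk, he⟩ := hv
  rw [mem_band] at he
  obtain ⟨k', hk', e⟩ : ∃ k' ≤ (g.H j ω).length,
      (ed (g.xH j) (st (g.H j ω)) k).1 = pos (g.xH j) (st (g.H j ω)) k' := by
    rcases ed_base (g.xH j) (st (g.H j ω)) k with h | h
    · exact ⟨k, hk.le, h⟩
    · exact ⟨k + 1, hk, h⟩
  rw [e] at he
  obtain ⟨_, e1, e2, e3, e4⟩ := he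
  have pH := (o.fH j j1 j2).2.1 _ (o.memH j1 j2 ω)
  have mk := o.marksH j1 j2 ω
  obtain ⟨l1, a1⟩ := mk.2.2 i (by omega)
  obtain ⟨l2, a2⟩ := mk.2.2 (i + 1) (by omega)
  push_cast at a2
  have k1 : g.kH j ω i ≤ k' := by
    by_contra hc
    have := pH.2.2.2 _ _ (not_le.1 hc).le l1
    linarith [(abs_le.1 a1).2]
  have k2 : k' ≤ g.kH j ω (i + 1) := by
    by_contra hc
    have := pH.2.2.2 _ _ (not_le.1 hc).le hk'
    linarith [(abs_le.1 a2).1]
  have e5 : |B (pos (g.xH j) (st (g.H j ω)) k') - B (pos (g.xH j) (st (g.H j ω)) (g.kH j ω i))|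
      ≤ h := by
    by_contra hc
    exact g4 ⟨k', k1, k2, not_le.1 hc⟩
  have e6 := abs_le.1 e5
  set β := B (pos (g.xH j) (st (g.H j ω)) (g.kH j ω i))
  have f1 := Int.floor_le (β / h)
  have f2 := Int.lt_floor_add_one (β / h)
  rw [le_div_iff₀ h0] at f1
  rw [div_lt_iff₀ h0] at f2
  rw [mem_Icc]
  constructor
  · have : ((⌊β / h⌋ : ℝ) - 3) * h ≤ b * h := by linarith
    have := le_of_mul_le_mul_right this h0
    exact_mod_cast this
  · have : b * h ≤ ((⌊β / h⌋ : ℝ) + 3) * h := by linarith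
    have := le_of_mul_le_mul_right this h0
    exact_mod_cast this

lemma GD.EH_meas (g : GD) (t : ℝ) (i j : ℕ) : MeasurableSet (g.EH t i j) :=
  excE_meas (kk := g.kH j) (fun i => g.kH_DM j i) t i (i + 1)

lemma GD.EV_meas (g : GD) (t : ℝ) (i j : ℕ) : MeasurableSet (g.EV t i j) :=
  excE_meas (kk := g.kV i) (fun j => g.kV_DM i j) t j (j + 1)

lemma GD.EX_meas (g : GD) (h : ℝ) (i j : ℕ) : MeasurableSet (g.EX B h i j) :=
  extE_meas (kk := g.kH j) (fun i => g.kH_DM j i) h i (i + 1)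

lemma GD.Vis_meas (g : GD) (S : Finset Ed) (j : ℕ) : MeasurableSet (g.Vis S j) :=
  (sel_DM (g.CH j) (g.xH j)).set (fun l => ∃ k < l.length, ed (g.xH j) (st l) k ∈ S)

lemma block_prob {ν : Measure ℝ} [IsProbabilityMeasure ν] {U : ℝ → V} {κ c : ℝ}
    (G : Geo ν A B U κ c) (o : g.Ok A B) {r1 r2 t h ε η nb : ℝ} {R n m i j : ℕ}
    (hr1 : 0 ≤ r1) (h12 : r1 < r2) (hp : 0 < ν.real (Set.Iic r1)) (hε : 0 ≤ ε)
    (hm : (m + 1) * ε ≤ ν.real (Set.Iic r1)) (ht : 0 < t)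
    (hq : 6 * t ≤ (r2 - r1) * (ε * (n / 2) / 4)) (hq2 : 1 ≤ ε * (n / 2) / 4)
    (h0 : 0 < h) (hhW : h ≤ g.W) (hn : c * (n + 1) ≤ g.W)
    (hη : Real.exp (2 * ((4 * c * g.W + 1) * (6 * c * h + 1))
      * ((m + 1) * ε / ν.real (Set.Iic r1)) ^ 2 - m) ≤ η)
    (hnb : 4 * g.W / h + 2 ≤ nb)
    (hQ : (PP Ed ν).real (BadQ r2 R n) / 2 + nb * η ≤ 1 / 4)
    (i1 : 1 ≤ i) (i2 : i + 1 ≤ g.M) (j1 : 1 ≤ j) (j2 : j + 2 ≤ g.M)
    (hR : ∀ l ∈ g.CH (j + 1), ‖g.xH (j + 1)‖ + l.length ≤ R) :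
    1 / 4 ≤ 22 * ((PP Ed ν).real (g.EV t i j) + (PP Ed ν).real (g.EH t i (j + 1))
        + (PP Ed ν).real (g.EV t (i + 1) (j + 1)) + (PP Ed ν).real (g.EV t i (j + 1))
        + (PP Ed ν).real (g.EH t i (j + 2)))
      + (3 * nb + 1) * (PP Ed ν).real (g.EX B h i (j + 1)) := by
  classical
  have hW := o.W0
  have hc := G.c1
  set P := PP Ed ν with hP
  set β : Om → ℝ := fun ω => B (pos (g.xH (j + 1)) (st (g.H (j + 1) ω)) (g.kH (j + 1) ω i))
    with hβ
  set I := Icc ⌊(((j : ℝ) + 1) * (10 * g.W) - 2 * g.W) / h⌋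
    ⌊(((j : ℝ) + 1) * (10 * g.W) + 2 * g.W) / h⌋ with hI
  have hIc : (I.card : ℝ) ≤ nb := by
    refine le_trans ?_ hnb
    rw [hI, Int.card_Icc]
    set lo := (((j : ℝ) + 1) * (10 * g.W) - 2 * g.W) / h
    set hi := (((j : ℝ) + 1) * (10 * g.W) + 2 * g.W) / h
    have e0 : hi - lo = 4 * g.W / h := by simp only [lo, hi]; ring
    have e00 : 0 ≤ 4 * g.W / h := by positivity
    have e1 : ⌊lo⌋ ≤ ⌊hi⌋ := Int.floor_mono (by linarith)
    have e2 : (((⌊hi⌋ + 1 - ⌊lo⌋).toNat : ℕ) : ℤ) = ⌊hi⌋ + 1 - ⌊lo⌋ := by omega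
    have e3 : (((⌊hi⌋ + 1 - ⌊lo⌋).toNat : ℕ) : ℝ) = ⌊hi⌋ + 1 - ⌊lo⌋ := by exact_mod_cast e2
    rw [e3]; linarith [Int.floor_le hi, Int.lt_floor_add_one lo]
  set S : ℤ → Finset Ed := fun b => band A B R g.W h i b ×ˢ univ with hS
  set E3 := g.EV t i j ∪ g.EV t i (j + 1) ∪ g.EH t i (j + 2) with hE3
  have E3m : MeasurableSet E3 :=
    ((g.EV_meas _ _ _).union (g.EV_meas _ _ _)).union (g.EH_meas _ _ _)
  set Ab : ℤ → Set Om := fun b => E3 ∩ g.Vis (S b) (j + 1) with hAb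
  have Abm : ∀ b, MeasurableSet (Ab b) := fun b => E3m.inter (g.Vis_meas _ _)
  set Bad := g.EV t i j ∪ g.EH t i (j + 1) ∪ g.EV t (i + 1) (j + 1) ∪ g.EX B h i (j + 1)
    ∪ BadQ r2 R n with hBad
  set Bb : ℤ → Set Om := fun b => {ω | ω ∉ Bad ∧ ⌊β ω / h⌋ = b} with hBb
  have hη0 : 0 ≤ η := (Real.exp_pos _).le.trans hη
  have s1 : ∀ b, P.real (Bb b) / 2 ≤ 3 * P.real (Ab b) + η := by
    intro b
    have := tilt ν r1 r2 h12 hp (S b) ε hε m hm (n / 2) (Ab b) (Bb b) (Abm b) (by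
      rintro ω ⟨e1, e2⟩
      simp only [hBad, Set.mem_union, not_or] at e1
      have f1 := Int.floor_le (β ω / h)
      have f2 := Int.lt_floor_add_one (β ω / h)
      rw [le_div_iff₀ h0, e2] at f1
      rw [div_lt_iff₀ h0, e2] at f2
      exact block_det o (by linarith) G.hA hr1 h12.le ht hq hhW hn i1 i2 j1 j2 hR
        e1.1.1.1.1 e1.1.1.1.2 e1.1.1.2 e1.1.2 e1.2 f1 f2.le)
    have e1 : Real.exp (-(ε * (n / 2) / 4)) ≤ 1 / 2 := by
      have a1 := Real.add_one_le_exp (ε * (n / 2) / 4)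
      rw [Real.exp_neg, inv_le_comm₀ (Real.exp_pos _) (by norm_num)]; linarith
    have e2 : Real.exp 1 ≤ 3 := by linarith [Real.exp_one_lt_d9]
    have e3 : ((S b).card : ℝ) ≤ 2 * ((4 * c * g.W + 1) * (6 * c * h + 1)) := by
      have := card_par G (band A B R g.W h i b) (a := i * (10 * g.W) + 4 * g.W) (b := (b - 1) * h)
        (p := 2 * g.W) (q := 3 * h) (by positivity) (by positivity) (fun z hz => by
          have := (mem_band (A := A) (B := B) (e := (z, 0))).1 (mem_product.2 ⟨hz, mem_univ _⟩)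
          exact ⟨this.2.1, by linarith [this.2.2.1], this.2.2.2.1, by linarith [this.2.2.2.2]⟩)
      simp only [hS, card_product, card_univ, Fintype.card_fin]
      push_cast
      have e : (2 * c * (2 * g.W) + 1) * (2 * c * (3 * h) + 1)
          = (4 * c * g.W + 1) * (6 * c * h + 1) := by ring
      linarith
    have e4 : Real.exp ((S b).card * ((m + 1) * ε / ν.real (Set.Iic r1)) ^ 2 - m) ≤ η := by
      refine le_trans (Real.exp_le_exp.2 ?_) hη
      gcongr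
    have e5 : 0 ≤ P.real (Bb b) := measureReal_nonneg
    have e6 : 0 ≤ P.real (Ab b) := measureReal_nonneg
    have e7 := mul_le_mul_of_nonneg_right e1 e5
    have e8 := mul_le_mul_of_nonneg_right e2 e6
    linarith
  have s2 : 1 ≤ ∑ b ∈ I, P.real (Bb b) + P.real Bad := by
    have e1 : P.real Set.univ ≤ P.real ((⋃ b ∈ I, Bb b) ∪ Bad) := by
      refine measureReal_mono (fun ω _ => ?_) (measure_ne_top _ _)
      by_cases hω : ω ∈ Bad
      · exact Or.inr hω
      · left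
        simp only [Set.mem_iUnion]
        refine ⟨⌊β ω / h⌋, ?_, hω, rfl⟩
        have tb := abs_le.1 (o.fH.tube (j := j + 1) (by omega) (by omega)
          (o.memH (by omega) (by omega) ω)
          ((o.marksH (j := j + 1) (by omega) (by omega) ω).2.2 i (by omega)).1)
        push_cast at tb
        rw [hI, mem_Icc]
        constructor <;> refine Int.floor_mono (div_le_div_of_nonneg_right ?_ h0.le) <;>
          simp only [hβ] <;> linarith
    rw [probReal_univ] at e1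
    have e2 := measureReal_union_le (μ := P) (⋃ b ∈ I, Bb b) Bad
    have e3 := measureReal_biUnion_finset_le (μ := P) I Bb
    linarith
  have s3 : P.real Bad ≤ P.real (g.EV t i j) + P.real (g.EH t i (j + 1))
      + P.real (g.EV t (i + 1) (j + 1)) + P.real (g.EX B h i (j + 1)) + P.real (BadQ r2 R n) := by
    refine (measureReal_union_le _ _).trans (add_le_add ?_ le_rfl)
    refine (measureReal_union_le _ _).trans (add_le_add ?_ le_rfl)
    refine (measureReal_union_le _ _).trans (add_le_add ?_ le_rfl)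
    exact measureReal_union_le _ _
  have s4 : P.real E3 ≤ P.real (g.EV t i j) + P.real (g.EV t i (j + 1))
      + P.real (g.EH t i (j + 2)) := by
    refine (measureReal_union_le _ _).trans (add_le_add ?_ le_rfl)
    exact measureReal_union_le _ _
  have hnb0 : 0 ≤ nb := le_trans (by positivity) hIc
  have s5 : ∑ b ∈ I, P.real (Ab b) ≤ 7 * P.real E3 + nb * P.real (g.EX B h i (j + 1)) := by
    have i1' : Integrable (E3.indicator (fun _ => (7 : ℝ))) P := (integrable_const _).indicator E3m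
    have i2' : Integrable ((g.EX B h i (j + 1)).indicator (fun _ => nb)) P :=
      (integrable_const _).indicator (g.EX_meas _ _ _)
    refine (count_le I Ab (fun b _ => Abm b) (i1'.add i2') fun ω => ?_).trans (le_of_eq ?_)
    · have e0 : ∑ b ∈ I, (Ab b).indicator (fun _ => (1 : ℝ)) ω
          = ((I.filter (fun b => ω ∈ Ab b)).card : ℝ) := by
        simp only [Set.indicator]; rw [sum_boole]
      rw [e0]
      simp only [Pi.add_apply]
      by_cases e1 : ω ∈ g.EX B h i (j + 1)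
      · rw [Set.indicator_of_mem e1]
        have a1 : ((I.filter (fun b => ω ∈ Ab b)).card : ℝ) ≤ I.card := by
          exact_mod_cast card_filter_le _ _
        have a2 : 0 ≤ E3.indicator (fun _ => (7 : ℝ)) ω :=
          Set.indicator_nonneg (fun _ _ => by norm_num) ω
        linarith
      · rw [Set.indicator_of_notMem e1, add_zero]
        by_cases e2 : ω ∈ E3
        · rw [Set.indicator_of_mem e2]
          have a1 : (I.filter (fun b => ω ∈ Ab b)).card
              ≤ (Icc (⌊β ω / h⌋ - 3) (⌊β ω / h⌋ + 3)).card :=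
            card_le_card fun b hb =>
              vis_range o h0 (by omega) (by omega) (by omega) e1 (mem_filter.1 hb).2.2
          rw [Int.card_Icc] at a1
          have a2 : (I.filter (fun b => ω ∈ Ab b)).card ≤ 7 := by omega
          exact_mod_cast a2
        · rw [Set.indicator_of_notMem e2, filter_eq_empty_iff.2 fun b _ hb => e2 hb.1]
          simp
    · simp only [Pi.add_apply]
      rw [integral_add i1' i2', integral_indicator_const _ E3m,
        integral_indicator_const _ (g.EX_meas _ _ _)]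
      simp [mul_comm]
  have s6 : ∑ b ∈ I, P.real (Bb b) / 2 ≤ ∑ b ∈ I, (3 * P.real (Ab b) + η) :=
    sum_le_sum fun b _ => s1 b
  rw [← sum_div, sum_add_distrib, ← mul_sum, sum_const, nsmul_eq_mul] at s6
  have s7 := mul_le_mul_of_nonneg_right hIc hη0
  have n1 : 0 ≤ P.real (g.EV t i j) := measureReal_nonneg
  have n2 : 0 ≤ P.real (g.EH t i (j + 1)) := measureReal_nonneg
  have n3 : 0 ≤ P.real (g.EV t (i + 1) (j + 1)) := measureReal_nonneg
  have n4 : 0 ≤ P.real (g.EV t i (j + 1)) := measureReal_nonneg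
  have n5 : 0 ≤ P.real (g.EH t i (j + 2)) := measureReal_nonneg
  have n6 : 0 ≤ P.real (g.EX B h i (j + 1)) := measureReal_nonneg
  linarith

lemma shift_sum (f : ℕ → ℝ) (hf : ∀ j, 0 ≤ f j) (M0 b : ℕ) (hb : b ≤ 3) :
    ∑ j ∈ range M0, f (j + b) ≤ ∑ j ∈ range (M0 + 2 + 1), f j := by
  have : ∑ j ∈ range M0, f (j + b) = ∑ j ∈ Ico b (b + M0), f j := by
    rw [sum_Ico_eq_sum_range]; simp [add_comm]
  rw [this]
  refine sum_le_sum_of_subset_of_nonneg (fun j hj => ?_) fun j _ _ => hf j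
  have := mem_Ico.1 hj
  exact mem_range.2 (by omega)

lemma grid_sum (pH pV pX : ℕ → ℕ → ℝ) (hH : ∀ i j, 0 ≤ pH i j) (hV : ∀ i j, 0 ≤ pV i j)
    (hX : ∀ i j, 0 ≤ pX i j) (M0 : ℕ) (a a' w : ℝ) (hw : 0 ≤ w)
    (rH : ∀ j, 1 ≤ j → j ≤ M0 + 2 → ∑ i ∈ range (M0 + 2 + 1), pH i j ≤ a)
    (rV : ∀ i, 1 ≤ i → i ≤ M0 + 2 → ∑ j ∈ range (M0 + 2 + 1), pV i j ≤ a)
    (rX : ∀ j, 1 ≤ j → j ≤ M0 + 2 → ∑ i ∈ range (M0 + 2 + 1), pX i j ≤ a')
    (bl : ∀ i j, 1 ≤ i → i + 1 ≤ M0 + 2 → 1 ≤ j → j + 2 ≤ M0 + 2 →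
      1 / 4 ≤ 22 * (pV i j + pH i (j + 1) + pV (i + 1) (j + 1) + pV i (j + 1) + pH i (j + 2))
        + w * pX i (j + 1)) (hM : 1 ≤ M0) :
    (M0 : ℝ) / 4 ≤ 110 * a + w * a' := by
  have kV : ∀ p q, 1 ≤ p → p ≤ 3 → q ≤ 3 →
      ∑ i ∈ range M0, ∑ j ∈ range M0, pV (i + p) (j + q) ≤ M0 * a := by
    intro p q h1 h2 h3
    refine (sum_le_card_nsmul _ _ a fun i hi => ?_).trans (by simp)
    have := mem_range.1 hi
    exact (shift_sum (pV (i + p)) (hV _) M0 q h3).trans (rV _ (by omega) (by omega))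
  have kH : ∀ (f : ℕ → ℕ → ℝ) (a : ℝ), (∀ i j, 0 ≤ f i j) →
      (∀ j, 1 ≤ j → j ≤ M0 + 2 → ∑ i ∈ range (M0 + 2 + 1), f i j ≤ a) → ∀ q, 1 ≤ q → q ≤ 3 →
      ∑ i ∈ range M0, ∑ j ∈ range M0, f (i + 1) (j + q) ≤ M0 * a := by
    intro f a hf r q h1 h2
    rw [sum_comm]
    refine (sum_le_card_nsmul _ _ a fun j hj => ?_).trans (by simp)
    have := mem_range.1 hj
    exact (shift_sum (fun i => f i (j + q)) (fun _ => hf _ _) M0 1 (by omega)).trans
      (r _ (by omega) (by omega))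
  have h1 : ∑ _i ∈ range M0, ∑ _j ∈ range M0, (1 / 4 : ℝ) ≤ ∑ i ∈ range M0, ∑ j ∈ range M0,
      (22 * (pV (i + 1) (j + 1) + pH (i + 1) (j + 2) + pV (i + 2) (j + 2) + pV (i + 1) (j + 2)
        + pH (i + 1) (j + 3)) + w * pX (i + 1) (j + 2)) := by
    refine sum_le_sum fun i hi => sum_le_sum fun j hj => ?_
    have := mem_range.1 hi
    have := mem_range.1 hj
    exact bl (i + 1) (j + 1) (by omega) (by omega) (by omega) (by omega)
  simp only [sum_add_distrib, ← mul_sum, sum_const, card_range, nsmul_eq_mul] at h1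
  have a1 := kV 1 1 (by omega) (by omega) (by omega)
  have a2 := kV 2 2 (by omega) (by omega) (by omega)
  have a3 := kV 1 2 (by omega) (by omega) (by omega)
  have a4 := kH pH a hH rH 2 (by omega) (by omega)
  have a5 := kH pH a hH rH 3 (by omega) (by omega)
  have a6 := mul_le_mul_of_nonneg_left (kH pX a' hX rX 2 (by omega) (by omega)) hw
  have hM' : (0 : ℝ) < M0 := by exact_mod_cast hM
  have : (M0 : ℝ) * (M0 / 4) ≤ M0 * (110 * a + w * a') := by linarith
  exact le_of_mul_le_mul_left this hM'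

end Pool.Agent.P.MP_dcd5d0_pr
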