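import Pool.Agent.P.MP_dcd5d0_pr.Prod

/-! Tilting the weights on a finite set of edges by independent marks. -/

set_option autoImplicit false

open MeasureTheory ProbabilityTheory Function
open scoped ENNReal

namespace Pool.Agent.P.MP_dcd5d0_pr

variable {ι : Type}

lemma chern (μ : Measure ℝ) [IsProbabilityMeasure μ] (F : Finset ι) (w : ℝ → ℝ≥0∞)
    (hw : Measurable w) (c : ℝ≥0∞) :
    c * PP ι μ {ξ | c ≤ ∏ e ∈ F, w (ξ e)} ≤ (∫⁻ y, w y ∂μ) ^ F.card := by
  have h := mul_meas_ge_le_lintegral (μ := PP ι μ) (f := fun ξ : ι → ℝ => ∏ e ∈ F, w (ξ e))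
    (Finset.measurable_prod _ fun e _ => hw.comp (measurable_pi_apply e)) c
  rwa [lprod μ F (fun _ => w) (fun _ => hw), Finset.prod_const] at h

/-- law of the marks -/
noncomputable def markLaw (ν : Measure ℝ) (r1 ε : ℝ) : Measure ℝ :=
  ENNReal.ofReal (1 - ε) • Measure.dirac (r1 + 1)
    + (ENNReal.ofReal ε * (ν (Set.Iic r1))⁻¹) • ν.restrict (Set.Iic r1)

lemma markLaw_apply (ν : Measure ℝ) (r1 ε : ℝ) (t : Set ℝ) (ht : MeasurableSet t) :
    markLaw ν r1 ε t = ENNReal.ofReal (1 - ε) * t.indicator 1 (r1 + 1)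
      + ENNReal.ofReal ε * (ν (Set.Iic r1))⁻¹ * ν (t ∩ Set.Iic r1) := by
  simp [markLaw, Measure.dirac_apply' _ ht, Measure.restrict_apply ht]

lemma markLaw_prob (ν : Measure ℝ) [IsProbabilityMeasure ν] (r1 ε : ℝ) (h0 : 0 ≤ ε) (h1 : ε ≤ 1)
    (hp : ν (Set.Iic r1) ≠ 0) : IsProbabilityMeasure (markLaw ν r1 ε) := by
  constructor
  rw [markLaw_apply _ _ _ _ MeasurableSet.univ, Set.univ_inter, mul_assoc,
    ENNReal.inv_mul_cancel hp (measure_ne_top _ _)]
  simp only [Set.indicator_univ, Pi.one_apply, mul_one]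
  rw [← ENNReal.ofReal_add (by linarith) h0]; simp

/-- one-edge density -/
noncomputable def dens (ν : Measure ℝ) (r1 r2 ε : ℝ) (x : ℝ) : ℝ≥0∞ :=
  (if r2 < x then ENNReal.ofReal (1 - ε) else 1)
    + (Set.Iic r1).indicator (fun _ => ENNReal.ofReal ε * (ν (Set.Iic r1))⁻¹ * ν (Set.Ioi r2)) x

lemma dens_meas (ν : Measure ℝ) (r1 r2 ε : ℝ) : Measurable (dens ν r1 r2 ε) := by
  unfold dens
  refine Measurable.add (Measurable.ite measurableSet_Ioi measurable_const measurable_const) ?_
  exact measurable_const.indicator measurableSet_Iic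

/-- one-edge modification -/
noncomputable def phi (r1 r2 : ℝ) (x y : ℝ) : ℝ := if r2 < x ∧ y ≤ r1 then y else x

lemma phi_meas (r1 r2 : ℝ) : Measurable (fun p : ℝ × ℝ => phi r1 r2 p.1 p.2) := by
  unfold phi
  refine Measurable.ite ?_ measurable_snd measurable_fst
  exact (measurableSet_lt measurable_const measurable_fst).inter
    (measurableSet_le measurable_snd measurable_const)

lemma one_edge (ν : Measure ℝ) [IsProbabilityMeasure ν] (r1 r2 ε : ℝ) (h0 : 0 ≤ ε) (h1 : ε ≤ 1)
    (hp : ν (Set.Iic r1) ≠ 0) (t : Set ℝ) (ht : MeasurableSet t) :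
    ∫⁻ x, markLaw ν r1 ε {y | phi r1 r2 x y ∈ t} ∂ν
      = ∫⁻ x, t.indicator 1 x * dens ν r1 r2 ε x ∂ν := by
  have hpr := markLaw_prob ν r1 ε h0 h1 hp
  set c := ENNReal.ofReal ε * (ν (Set.Iic r1))⁻¹ with hc
  have key : ∀ x, markLaw ν r1 ε {y | phi r1 r2 x y ∈ t}
      = t.indicator 1 x * (if r2 < x then ENNReal.ofReal (1 - ε) else 1)
        + (Set.Ioi r2).indicator (fun _ => c * ν (t ∩ Set.Iic r1)) x := by
    intro x
    by_cases hx : r2 < x
    · have hm : MeasurableSet {y | phi r1 r2 x y ∈ t} :=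
        ((phi_meas r1 r2).comp (measurable_const.prodMk measurable_id)) ht
      rw [markLaw_apply _ _ _ _ hm, if_pos hx, Set.indicator_of_mem (show x ∈ Set.Ioi r2 from hx)]
      have e1 : {y | phi r1 r2 x y ∈ t} ∩ Set.Iic r1 = t ∩ Set.Iic r1 := by
        ext y
        simp only [phi, Set.mem_inter_iff, Set.mem_ofPred_eq, Set.mem_Iic]
        constructor
        · rintro ⟨h, hy⟩; rw [if_pos ⟨hx, hy⟩] at h; exact ⟨h, hy⟩
        · rintro ⟨h, hy⟩; rw [if_pos ⟨hx, hy⟩]; exact ⟨h, hy⟩
      have e2 : {y | phi r1 r2 x y ∈ t}.indicator (1 : ℝ → ℝ≥0∞) (r1 + 1) = t.indicator 1 x := by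
        have : phi r1 r2 x (r1 + 1) = x := by
          unfold phi; rw [if_neg]; intro h; linarith [h.2]
        by_cases hxt : x ∈ t
        · rw [Set.indicator_of_mem hxt, Set.indicator_of_mem (by simpa [this] using hxt)]; rfl
        · rw [Set.indicator_of_notMem hxt, Set.indicator_of_notMem (by simpa [this] using hxt)]
      rw [e1, e2, mul_comm]
    · have e1 : ∀ y, phi r1 r2 x y = x := fun y => by
        unfold phi; rw [if_neg]; exact fun h => hx h.1
      simp only [e1, if_neg hx, mul_one]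
      rw [Set.indicator_of_notMem (show x ∉ Set.Ioi r2 from hx), add_zero]
      by_cases hxt : x ∈ t <;> simp [hxt]
  have hm1 : Measurable (fun x => t.indicator (1 : ℝ → ℝ≥0∞) x
      * (if r2 < x then ENNReal.ofReal (1 - ε) else 1)) :=
    (measurable_const.indicator ht).mul
      (Measurable.ite measurableSet_Ioi measurable_const measurable_const)
  simp_rw [key, dens, mul_add]
  rw [lintegral_add_left hm1, lintegral_add_left hm1, lintegral_indicator_const measurableSet_Ioi]
  congr 1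
  have : ∀ x, t.indicator (1 : ℝ → ℝ≥0∞) x * (Set.Iic r1).indicator
      (fun _ => c * ν (Set.Ioi r2)) x
      = (t ∩ Set.Iic r1).indicator (fun _ => c * ν (Set.Ioi r2)) x := by
    intro x
    by_cases h1 : x ∈ t <;> by_cases h2 : x ∈ Set.Iic r1 <;> simp [Set.indicator, h1, h2]
  simp_rw [← hc, this]
  rw [lintegral_indicator_const (ht.inter measurableSet_Iic)]
  ring

lemma dens_int (ν : Measure ℝ) [IsProbabilityMeasure ν] (r1 r2 ε : ℝ) (h0 : 0 ≤ ε) (h1 : ε ≤ 1)
    (hp : ν (Set.Iic r1) ≠ 0) : ∫⁻ x, dens ν r1 r2 ε x ∂ν = 1 := by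
  have hpr := markLaw_prob ν r1 ε h0 h1 hp
  have := one_edge ν r1 r2 ε h0 h1 hp Set.univ MeasurableSet.univ
  simpa using this.symm

lemma dens_real (ν : Measure ℝ) [IsProbabilityMeasure ν] (r1 r2 ε : ℝ) (h12 : r1 < r2)
    (h0 : 0 ≤ ε) (hp : 0 < ν.real (Set.Iic r1)) (x : ℝ) :
    ∃ u : ℝ, |u| ≤ ε / ν.real (Set.Iic r1) ∧ dens ν r1 r2 ε x = ENNReal.ofReal (1 + u) := by
  set p := ν.real (Set.Iic r1) with hpd
  have hp1 : p ≤ 1 := measureReal_le_one
  have hεp : ε ≤ ε / p := by rw [le_div_iff₀ hp]; nlinarith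
  unfold dens
  by_cases hx : r2 < x
  · refine ⟨-ε, by rw [abs_neg, abs_of_nonneg h0]; exact hεp, ?_⟩
    rw [if_pos hx, Set.indicator_of_notMem (show x ∉ Set.Iic r1 by simp; linarith), add_zero,
      sub_eq_add_neg]
  · rw [if_neg hx]
    by_cases hx1 : x ≤ r1
    · have hq0 : 0 ≤ ν.real (Set.Ioi r2) := measureReal_nonneg
      have hq1 : ν.real (Set.Ioi r2) ≤ 1 := measureReal_le_one
      refine ⟨ε / p * ν.real (Set.Ioi r2), ?_, ?_⟩
      · rw [abs_of_nonneg (by positivity)]
        exact mul_le_of_le_one_right (by positivity) hq1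
      · rw [Set.indicator_of_mem (show x ∈ Set.Iic r1 from hx1),
          ENNReal.ofReal_add zero_le_one (by positivity), ENNReal.ofReal_one,
          ENNReal.ofReal_mul (by positivity), ENNReal.ofReal_div_of_pos hp, hpd,
          ofReal_measureReal, ofReal_measureReal, div_eq_mul_inv]
    · refine ⟨0, by simp; positivity, ?_⟩
      rw [Set.indicator_of_notMem (show x ∉ Set.Iic r1 from hx1)]; simp

lemma dens_pow (ν : Measure ℝ) [IsProbabilityMeasure ν] (r1 r2 ε : ℝ) (h12 : r1 < r2)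
    (h0 : 0 ≤ ε) (hp : 0 < ν.real (Set.Iic r1)) (k : ℕ) (hk : 1 ≤ k)
    (hε : k * ε ≤ ν.real (Set.Iic r1)) :
    ∫⁻ x, dens ν r1 r2 ε x ^ k ∂ν
      ≤ ENNReal.ofReal (Real.exp ((k * ε / ν.real (Set.Iic r1)) ^ 2)) := by
  set p := ν.real (Set.Iic r1) with hpd
  have hp1 : p ≤ 1 := measureReal_le_one
  have hk' : (1 : ℝ) ≤ k := by exact_mod_cast hk
  have hεp : ε ≤ p := by nlinarith
  have hp' : ν (Set.Iic r1) ≠ 0 := by
    intro h; rw [hpd, Measure.real, h] at hp; simp at hp
  set c := (k * ε / p) ^ 2 with hc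
  have hpt : ∀ x, dens ν r1 r2 ε x ^ k + k
      ≤ (1 + ENNReal.ofReal c) + k * dens ν r1 r2 ε x := by
    intro x
    obtain ⟨u, hu, hd⟩ := dens_real ν r1 r2 ε h12 h0 hp x
    have hu1 : ε / p ≤ 1 := (div_le_one hp).2 hεp
    have hu2 : 0 ≤ 1 + u := by linarith [(abs_le.1 hu).1]
    have hku : |k * u| ≤ k * ε / p := by
      rw [abs_mul, abs_of_nonneg (by positivity : (0 : ℝ) ≤ k), mul_div_assoc]
      exact mul_le_mul_of_nonneg_left hu (by positivity)
    have hku1 : |k * u| ≤ 1 := hku.trans ((div_le_one hp).2 hε)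
    have e1 : (1 + u) ^ k ≤ Real.exp (k * u) := by
      rw [Real.exp_nat_mul]
      exact pow_le_pow_left₀ hu2 (by linarith [Real.add_one_le_exp u]) k
    have e2 := (abs_le.1 (Real.abs_exp_sub_one_sub_id_le hku1)).2
    have e3 : (k * u) ^ 2 ≤ c := by
      rw [hc, ← sq_abs (k * u)]
      exact pow_le_pow_left₀ (abs_nonneg _) hku 2
    rw [hd, ← ENNReal.ofReal_pow hu2, ← ENNReal.ofReal_natCast,
      ← ENNReal.ofReal_add (by positivity) (by positivity), ← ENNReal.ofReal_one,
      ← ENNReal.ofReal_add zero_le_one (by positivity), ← ENNReal.ofReal_mul (by positivity),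
      ← ENNReal.ofReal_add (by positivity) (by positivity)]
    exact ENNReal.ofReal_le_ofReal (by nlinarith)
  have h := lintegral_mono (μ := ν) hpt
  rw [lintegral_add_right _ measurable_const, lintegral_add_left measurable_const,
    lintegral_const_mul _ (dens_meas ν r1 r2 ε), dens_int ν r1 r2 ε h0 (hεp.trans hp1) hp'] at h
  simp only [lintegral_const, measure_univ, mul_one] at h
  have h' := (ENNReal.add_le_add_iff_right (ENNReal.natCast_ne_top k)).1 h
  refine h'.trans ?_
  rw [← ENNReal.ofReal_one, ← ENNReal.ofReal_add zero_le_one (by positivity)]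
  exact ENNReal.ofReal_le_ofReal (by linarith [Real.add_one_le_exp c])

/-- the modified configuration -/
noncomputable def Psi [DecidableEq ι] (S : Finset ι) (r1 r2 : ℝ) (p : (ι → ℝ) × (ι → ℝ)) :
    ι → ℝ :=
  fun e => if e ∈ S then phi r1 r2 (p.1 e) (p.2 e) else p.1 e

lemma Psi_meas [DecidableEq ι] (S : Finset ι) (r1 r2 : ℝ) : Measurable (Psi S r1 r2) := by
  refine measurable_pi_lambda _ fun e => ?_
  unfold Psi
  split_ifs
  · have : Measurable (fun p : (ι → ℝ) × (ι → ℝ) => (p.1 e, p.2 e)) := by fun_prop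
    exact (phi_meas r1 r2).comp this
  · exact (measurable_pi_apply e).comp measurable_fst

lemma indicator_pi (s : Finset ι) (t : ι → Set ℝ) (ω : ι → ℝ) :
    ((s : Set ι).pi t).indicator (1 : (ι → ℝ) → ℝ≥0∞) ω = ∏ e ∈ s, (t e).indicator 1 (ω e) := by
  by_cases h : ω ∈ (s : Set ι).pi t
  · rw [Set.indicator_of_mem h, Finset.prod_eq_one]
    · rfl
    · intro e he
      rw [Set.indicator_of_mem (h e he)]; rfl
  · rw [Set.indicator_of_notMem h]
    simp only [Set.mem_pi, Finset.mem_coe, not_forall] at h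
    obtain ⟨e, he, h⟩ := h
    exact (Finset.prod_eq_zero he (Set.indicator_of_notMem h _)).symm

lemma law_Psi [DecidableEq ι] (ν : Measure ℝ) [IsProbabilityMeasure ν] (S : Finset ι)
    (r1 r2 ε : ℝ) (h0 : 0 ≤ ε) (h1 : ε ≤ 1) (hp : ν (Set.Iic r1) ≠ 0) :
    ((PP ι ν).prod (PP ι (markLaw ν r1 ε))).map (Psi S r1 r2)
      = (PP ι ν).withDensity (fun ω => ∏ e ∈ S, dens ν r1 r2 ε (ω e)) := by
  have hpr := markLaw_prob ν r1 ε h0 h1 hp
  set de : ι → ℝ → ℝ≥0∞ := fun e x => if e ∈ S then dens ν r1 r2 ε x else 1 with hde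
  have hdem : ∀ e, Measurable (de e) := by
    intro e; simp only [hde]; split_ifs
    · exact dens_meas ν r1 r2 ε
    · exact measurable_const
  have hde1 : ∀ e, ∫⁻ x, de e x ∂ν = 1 := by
    intro e; simp only [hde]; split_ifs
    · exact dens_int ν r1 r2 ε h0 h1 hp
    · simp
  have hwd : ∀ e t, MeasurableSet t →
      ν.withDensity (de e) t = ∫⁻ x, t.indicator 1 x * de e x ∂ν := by
    intro e t ht
    rw [withDensity_apply _ ht, ← lintegral_indicator ht]
    refine lintegral_congr fun x => ?_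
    by_cases hx : x ∈ t <;> simp [hx]
  have hpe : ∀ e, IsProbabilityMeasure (ν.withDensity (de e)) := fun e =>
    ⟨by rw [withDensity_apply _ MeasurableSet.univ, Measure.restrict_univ, hde1]⟩
  trans Measure.infinitePi (fun e => ν.withDensity (de e))
  · refine Measure.eq_infinitePi _ fun s t ht => ?_
    have hms : MeasurableSet ((s : Set ι).pi t) := .pi s.countable_toSet fun _ _ => ht _
    rw [Measure.map_apply (Psi_meas S r1 r2) hms, Measure.prod_apply (Psi_meas S r1 r2 hms)]
    set ph : ι → ℝ → ℝ → ℝ := fun e x y => if e ∈ S then phi r1 r2 x y else x with hph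
    have hphm : ∀ e, Measurable (fun p : ℝ × ℝ => ph e p.1 p.2) := by
      intro e; simp only [hph]; split_ifs
      · exact phi_meas r1 r2
      · exact measurable_fst
    have e1 : ∀ ω : ι → ℝ, PP ι (markLaw ν r1 ε) (Prod.mk ω ⁻¹' (Psi S r1 r2 ⁻¹' (s : Set ι).pi t))
        = ∏ e ∈ s, markLaw ν r1 ε {y | ph e (ω e) y ∈ t e} := by
      intro ω
      rw [← Measure.infinitePi_pi (fun _ : ι => markLaw ν r1 ε)]
      · rfl
      · intro e _
        exact ((hphm e).comp (measurable_const.prodMk measurable_id)) (ht e)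
    simp_rw [e1]
    rw [lprod ν s (fun e x => markLaw ν r1 ε {y | ph e x y ∈ t e})]
    · refine Finset.prod_congr rfl fun e _ => ?_
      rw [hwd e _ (ht e)]
      simp only [hph, hde]
      split_ifs
      · exact one_edge ν r1 r2 ε h0 h1 hp _ (ht e)
      · refine lintegral_congr fun x => ?_
        by_cases hx : x ∈ t e <;> simp [hx]
    · intro e
      have hs : MeasurableSet ((fun p : ℝ × ℝ => ph e p.1 p.2) ⁻¹' t e) := (hphm e) (ht e)
      have := measurable_measure_prodMk_left (ν := markLaw ν r1 ε) hs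
      exact this
  · refine (Measure.eq_infinitePi _ fun s t ht => ?_).symm
    have hms : MeasurableSet ((s : Set ι).pi t) := .pi s.countable_toSet fun _ _ => ht _
    rw [withDensity_apply _ hms, ← lintegral_indicator hms]
    set g : ι → ℝ → ℝ≥0∞ := fun e x => (if e ∈ s then (t e).indicator 1 x else 1) * de e x with hg
    have e1 : ∀ ω : ι → ℝ, ((s : Set ι).pi t).indicator
        (fun ω => ∏ e ∈ S, dens ν r1 r2 ε (ω e)) ω = ∏ e ∈ s ∪ S, g e (ω e) := by
      intro ω
      simp only [hg, hde]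
      rw [Finset.prod_mul_distrib, Finset.prod_ite_mem, Finset.prod_ite_mem,
        Finset.union_inter_cancel_left, Finset.union_inter_cancel_right, ← indicator_pi]
      by_cases hω : ω ∈ (s : Set ι).pi t <;> simp [hω]
    simp_rw [e1]
    rw [lprod ν (s ∪ S) g]
    · rw [← Finset.prod_subset (Finset.subset_union_left (s₁ := s) (s₂ := S))]
      · refine Finset.prod_congr rfl fun e he => ?_
        rw [hwd e _ (ht e)]; simp only [hg, if_pos he]
      · intro e _ he
        simp only [hg, if_neg he, one_mul]; exact hde1 e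
    · intro e
      refine Measurable.mul ?_ (hdem e)
      split_ifs
      · exact measurable_const.indicator (ht e)
      · exact measurable_const

theorem tilt [DecidableEq ι] (ν : Measure ℝ) [IsProbabilityMeasure ν] (r1 r2 : ℝ) (h12 : r1 < r2)
    (hp : 0 < ν.real (Set.Iic r1)) (S : Finset ι) (ε : ℝ) (h0 : 0 ≤ ε) (m : ℕ)
    (hm : (m + 1) * ε ≤ ν.real (Set.Iic r1)) (l : ℝ) (A B : Set (ι → ℝ)) (hA : MeasurableSet A)
    (hB : ∀ ω ∈ B, ∃ F : Finset ι, F ⊆ S ∧ l ≤ F.card ∧ (∀ e ∈ F, r2 < ω e) ∧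
      ∀ ω' : ι → ℝ, (∀ e, e ∉ S → ω' e = ω e) → (∀ e, ω' e ≤ ω e) →
        ε * l / 4 ≤ ((F.filter (fun e => ω' e ≤ r1)).card : ℝ) → ω' ∈ A) :
    (1 - Real.exp (-(ε * l / 4))) * (PP ι ν).real B ≤ Real.exp 1 * (PP ι ν).real A
      + Real.exp (S.card * ((m + 1) * ε / ν.real (Set.Iic r1)) ^ 2 - m) := by
  set p := ν.real (Set.Iic r1) with hpd
  have hp1 : p ≤ 1 := measureReal_le_one
  have hm0 : (0 : ℝ) ≤ m := by positivity
  have h1 : ε ≤ 1 := by nlinarith
  have hp' : ν (Set.Iic r1) ≠ 0 := by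
    intro h; rw [hpd, Measure.real, h] at hp; simp at hp
  have hpr := markLaw_prob ν r1 ε h0 h1 hp'
  have hdm := dens_meas ν r1 r2 ε
  set R : (ι → ℝ) → ℝ≥0∞ := fun ω => ∏ e ∈ S, dens ν r1 r2 ε (ω e) with hR
  have hRm : Measurable R := Finset.measurable_prod _ fun e _ => hdm.comp (measurable_pi_apply e)
  set E1 : ℝ≥0∞ := ENNReal.ofReal (Real.exp 1) with hE1
  set E2 : ℝ≥0∞ := ENNReal.ofReal (Real.exp (-m)) with hE2
  have hE12 : E2 * E1 ^ m = 1 := by
    rw [hE1, hE2, ← ENNReal.ofReal_pow (Real.exp_pos _).le, ← ENNReal.ofReal_mul (Real.exp_pos _).le,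
      ← Real.exp_nat_mul, ← Real.exp_add]; simp
  have up : (PP ι ν).withDensity R A ≤ E1 * PP ι ν A
      + ENNReal.ofReal (Real.exp (S.card * ((m + 1) * ε / p) ^ 2 - m)) := by
    rw [withDensity_apply _ hA]
    calc ∫⁻ ω in A, R ω ∂(PP ι ν) ≤ ∫⁻ ω in A, (E1 + E2 * R ω ^ (m + 1)) ∂(PP ι ν) := by
          refine lintegral_mono fun ω => ?_
          rcases le_total (R ω) E1 with h | h
          · exact h.trans le_self_add
          · refine le_trans ?_ le_add_self
            calc R ω = E2 * E1 ^ m * R ω := by rw [hE12, one_mul]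
              _ ≤ E2 * R ω ^ m * R ω := by gcongr
              _ = _ := by ring
      _ = E1 * PP ι ν A + ∫⁻ ω in A, E2 * R ω ^ (m + 1) ∂(PP ι ν) := by
          rw [lintegral_add_left measurable_const]; simp
      _ ≤ E1 * PP ι ν A + ∫⁻ ω, E2 * R ω ^ (m + 1) ∂(PP ι ν) := by
          gcongr; exact Measure.restrict_le_self
      _ ≤ _ := by
          gcongr
          rw [lintegral_const_mul _ (hRm.pow_const _)]
          simp only [hR, ← Finset.prod_pow]
          rw [lprod ν S (fun _ x => dens ν r1 r2 ε x ^ (m + 1)) (fun _ => hdm.pow_const _),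
            Finset.prod_const]
          have := dens_pow ν r1 r2 ε h12 h0 hp (m + 1) (by omega) (by exact_mod_cast hm)
          calc E2 * (∫⁻ x, dens ν r1 r2 ε x ^ (m + 1) ∂ν) ^ S.card
              ≤ E2 * ENNReal.ofReal (Real.exp ((((m + 1 : ℕ) : ℝ) * ε / p) ^ 2)) ^ S.card := by
                gcongr
            _ = _ := by
                rw [hE2, ← ENNReal.ofReal_pow (Real.exp_pos _).le,
                  ← ENNReal.ofReal_mul (Real.exp_pos _).le, ← Real.exp_nat_mul, ← Real.exp_add]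
                congr 2; push_cast; ring
  set η := Real.exp (-(ε * l / 4)) with hη
  have low : ENNReal.ofReal (1 - η) * PP ι ν B
      ≤ ((PP ι ν).prod (PP ι (markLaw ν r1 ε))).map (Psi S r1 r2) A := by
    have hmA := Psi_meas S r1 r2 hA
    rw [Measure.map_apply (Psi_meas S r1 r2) hA, Measure.prod_apply hmA]
    refine le_trans ?_ (mul_meas_ge_le_lintegral (measurable_measure_prodMk_left hmA)
      (ENNReal.ofReal (1 - η)))
    gcongr
    intro ω hω
    obtain ⟨F, hFS, hFl, hFr, hF⟩ := hB ω hω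
    simp only [Set.mem_ofPred_eq]
    set w : ℝ → ℝ≥0∞ := fun y => if y ≤ r1 then ENNReal.ofReal (Real.exp (-1)) else 1 with hw
    have hwm : Measurable w := Measurable.ite measurableSet_Iic measurable_const measurable_const
    have hwi : ∫⁻ y, w y ∂(markLaw ν r1 ε) ≤ ENNReal.ofReal (Real.exp (-(ε / 2))) := by
      have a1 : ∫⁻ y in Set.Iic r1, w y ∂ν = ENNReal.ofReal (Real.exp (-1)) * ν (Set.Iic r1) := by
        rw [← setLIntegral_const]
        refine setLIntegral_congr_fun measurableSet_Iic fun y hy => ?_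
        simp only [hw]; rw [if_pos (show y ≤ r1 from hy)]
      have a2 : w (r1 + 1) = 1 := by simp only [hw]; rw [if_neg]; linarith
      rw [markLaw, lintegral_add_measure, lintegral_smul_measure, lintegral_smul_measure,
        lintegral_dirac' _ hwm, a1, a2]
      simp only [smul_eq_mul, mul_one]
      have a3 : ENNReal.ofReal ε * (ν (Set.Iic r1))⁻¹
          * (ENNReal.ofReal (Real.exp (-1)) * ν (Set.Iic r1))
          = ENNReal.ofReal (ε * Real.exp (-1)) := by
        rw [ENNReal.ofReal_mul h0]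
        calc _ = ENNReal.ofReal ε * ENNReal.ofReal (Real.exp (-1))
            * ((ν (Set.Iic r1))⁻¹ * ν (Set.Iic r1)) := by ring
          _ = _ := by rw [ENNReal.inv_mul_cancel hp' (measure_ne_top _ _), mul_one]
      rw [a3, ← ENNReal.ofReal_add (by linarith) (by positivity)]
      refine ENNReal.ofReal_le_ofReal ?_
      have a4 : Real.exp (-1) ≤ 1 / 2 := by
        have := Real.add_one_le_exp 1
        rw [Real.exp_neg, inv_le_comm₀ (Real.exp_pos _) (by norm_num)]; linarith
      have a5 := Real.add_one_le_exp (-(ε / 2))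
      nlinarith
    have hch := chern (markLaw ν r1 ε) F w hwm (ENNReal.ofReal η)
    set Bd : Set (ι → ℝ) := {ξ | ENNReal.ofReal η ≤ ∏ e ∈ F, w (ξ e)} with hBd
    have hBdm : MeasurableSet Bd := measurableSet_le measurable_const
      (Finset.measurable_prod _ fun e _ => hwm.comp (measurable_pi_apply e))
    have hBd1 : PP ι (markLaw ν r1 ε) Bd ≤ ENNReal.ofReal η := by
      have b1 : ENNReal.ofReal η * PP ι (markLaw ν r1 ε) Bd
          ≤ ENNReal.ofReal η * ENNReal.ofReal η := by
        refine hch.trans ((pow_le_pow_left' hwi _).trans ?_)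
        rw [← ENNReal.ofReal_pow (Real.exp_pos _).le, ← ENNReal.ofReal_mul (Real.exp_pos _).le,
          ← Real.exp_nat_mul, ← Real.exp_add]
        refine ENNReal.ofReal_le_ofReal (Real.exp_le_exp.2 ?_)
        nlinarith
      exact (ENNReal.mul_le_mul_iff_right (by simp [hη, Real.exp_pos]) ENNReal.ofReal_ne_top).1 b1
    have hsub : Bdᶜ ⊆ Prod.mk ω ⁻¹' (Psi S r1 r2 ⁻¹' A) := by
      intro ξ hξ
      simp only [hBd, Set.mem_compl_iff, Set.mem_ofPred_eq, not_le] at hξ
      have c1 : ∏ e ∈ F, w (ξ e)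
          = ENNReal.ofReal (Real.exp (-((F.filter (fun e => ξ e ≤ r1)).card : ℝ))) := by
        simp only [hw]
        rw [Finset.prod_ite, Finset.prod_const, Finset.prod_const_one, mul_one,
          ← ENNReal.ofReal_pow (Real.exp_pos _).le, ← Real.exp_nat_mul]
        simp
      rw [c1, ENNReal.ofReal_lt_ofReal_iff (Real.exp_pos _), Real.exp_lt_exp] at hξ
      refine hF (Psi S r1 r2 (ω, ξ)) (fun e he => by simp [Psi, he]) (fun e => ?_) ?_
      · unfold Psi phi; split_ifs with a b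
        · linarith [b.1, b.2]
        · exact le_rfl
        · exact le_rfl
      · have : (F.filter (fun e => ξ e ≤ r1)).card
            ≤ (F.filter (fun e => Psi S r1 r2 (ω, ξ) e ≤ r1)).card := by
          refine Finset.card_le_card fun e he => ?_
          rw [Finset.mem_filter] at he ⊢
          refine ⟨he.1, ?_⟩
          unfold Psi phi
          rw [if_pos (hFS he.1), if_pos ⟨hFr e he.1, he.2⟩]; exact he.2
        have : ((F.filter (fun e => ξ e ≤ r1)).card : ℝ)
            ≤ (F.filter (fun e => Psi S r1 r2 (ω, ξ) e ≤ r1)).card := by exact_mod_cast this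
        linarith
    refine le_trans ?_ (measure_mono hsub)
    rw [prob_compl_eq_one_sub hBdm, ENNReal.ofReal_sub _ (Real.exp_pos _).le, ENNReal.ofReal_one]
    exact tsub_le_tsub_left hBd1 1
  rw [law_Psi ν S r1 r2 ε h0 h1 hp'] at low
  have fin := low.trans up
  rw [← ofReal_measureReal (μ := PP ι ν) (s := A), ← ofReal_measureReal (μ := PP ι ν) (s := B),
    hE1, ← ENNReal.ofReal_mul (Real.exp_pos _).le,
    ← ENNReal.ofReal_add (by positivity) (Real.exp_pos _).le,
    ← ENNReal.ofReal_mul' measureReal_nonneg] at fin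
  exact (ENNReal.ofReal_le_ofReal_iff (by positivity)).1 fin

end Pool.Agent.P.MP_dcd5d0_pr
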