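import Pool.Agent.P.MP_dcd5d0_pr.Dbl

/-! Lanes: optimal paths in a tube in a corner direction. -/

set_option autoImplicit false

open MeasureTheory ProbabilityTheory Finset Function Filter Topology
open scoped ENNReal

namespace Pool.Agent.P.MP_dcd5d0_pr

def LaneP (A B : V →+ ℝ) (x y : V) (W : ℝ) (l : List Dir) : Prop :=
  pos x (st l) l.length = y ∧ Set.InjOn (ed x (st l)) (Set.Iio l.length) ∧
    (∀ j ≤ l.length, |B (pos x (st l) j) - B x| ≤ W) ∧
    (∀ i j, i ≤ j → j ≤ l.length → A (pos x (st l) i) - A (pos x (st l) j) ≤ W)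

lemma conc_small (ν : Measure ℝ) (C : ℝ) (hC : 1 ≤ C) :
    ∀ᶠ t : ℝ in atTop, ∀ K : ℕ, (K : ℝ) ≤ C * t →
      ∃ a : ℝ, 0 ≤ a ∧ a ^ 2 * (K * m2 ν) ≤ 1 ∧ Real.exp (2 - a * t ^ th) ≤ 1 / 4 := by
  have hm2 := m2_nonneg ν
  set C2 := 1 + C * m2 ν with hC2
  have hC2' : 1 ≤ C2 := by rw [hC2]; have : 0 ≤ C * m2 ν := by positivity
                           linarith
  have hs : 1 ≤ √C2 := Real.one_le_sqrt.2 hC2'
  filter_upwards [small_exp (4 * Real.exp 2) (√C2)⁻¹ (1 / 100) (by positivity)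
    (by norm_num) 0, eventually_ge_atTop 1] with t ht h1 K hK
  have h0 : 0 < t := by linarith
  have hst : 0 < √t := Real.sqrt_pos.2 h0
  refine ⟨(√C2 * √t)⁻¹, by positivity, ?_, ?_⟩
  · rw [inv_pow, mul_pow, Real.sq_sqrt (by linarith), Real.sq_sqrt h0.le,
      inv_mul_le_iff₀ (by positivity)]
    nlinarith
  · have e1 : (√C2 * √t)⁻¹ * t ^ th = (√C2)⁻¹ * t ^ (1 / 100 : ℝ) := by
      have : t ^ th = √t * t ^ (1 / 100 : ℝ) := by
        rw [Real.sqrt_eq_rpow, ← Real.rpow_add h0]; unfold th; norm_num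
      rw [this]; field_simp
    rw [e1, sub_eq_add_neg, Real.exp_add]
    simp only [pow_zero, mul_one] at ht
    linarith

lemma rpow_th_le_self {t : ℝ} (ht : 1 ≤ t) : t ^ th ≤ t := by
  conv_rhs => rw [← Real.rpow_one t]
  exact Real.rpow_le_rpow_of_exponent_le ht (by unfold th; norm_num)

lemma not_BadT {ν : Measure ℝ} {R D : ℕ} {s : ℝ} {ω : Om} (h : ω ∉ BadT ν R D s) {z z' : V}
    (h1 : ‖z‖ ≤ R) (h2 : ‖z' - z‖ ≤ D) : hh ν (z' - z) - s ≤ T ω z z' := by
  by_contra hc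
  exact h ⟨z, z', h1, h2, not_le.1 hc⟩

variable {ν : Measure ℝ} {A B : V →+ ℝ} {U : ℝ → V} {κ c : ℝ}

lemma lane_det (G : Geo ν A B U κ c) {r : ℝ} (hr0 : 0 ≤ r) {N s C' W : ℝ} {R K : ℕ} {x : V}
    (hs : 1 ≤ s) (hC' : 0 ≤ C') (hx : ‖x‖ + K ≤ R) (hK : N + C' * s ≤ r * K / 2)
    (hW : 3 * (C' + 2 * c + 2) / κ * s ≤ W) {ω : Om} (g1 : ω ∉ BadT ν R K s)
    (g2 : ω ∉ BadQ r R K) (hT : T ω x (x + U N) < N + C' * s) :
    ∃ l ∈ Cls K (LaneP A B x (x + U N) W), tt ω x l < N + C' * s := by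
  have hc := G.c1
  have hκ := G.k0
  obtain ⟨k, σ, e1, e2, e3⟩ := exists_trail_lt hT
  have hK0 : (0 : ℝ) ≤ K := by positivity
  have hk : k ≤ K := by
    by_contra hc
    have := long_trail hr0 (fun h => g2 ⟨x, by linarith, h⟩) e2 (not_le.1 hc).le
    linarith
  have hkK : (k : ℝ) ≤ K := by exact_mod_cast hk
  have n1 : ∀ j ≤ k, ‖pos x σ j - x‖ ≤ K := fun j hj =>
    (norm_pos_sub0 x σ j).trans (by exact_mod_cast hj.trans hk)
  have n2 : ∀ j ≤ k, ‖x + U N - pos x σ j‖ ≤ K := fun j hj => by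
    obtain ⟨d, rfl⟩ := Nat.exists_eq_add_of_le hj
    rw [← e1]
    refine (norm_pos_sub x σ j d).trans ?_
    push_cast at hkK
    have : (0 : ℝ) ≤ j := by positivity
    linarith
  have f1 : ∀ j ≤ k, hh ν (pos x σ j - x) - s ≤ tm ω x σ 0 j := fun j hj =>
    (not_BadT g1 (by linarith) (n1 j hj)).trans (T_le0 ω rfl)
  have f2 : ∀ j ≤ k, hh ν (x + U N - pos x σ j) - s ≤ tm ω x σ j k := fun j hj => by
    have a1 : ‖pos x σ j‖ ≤ R := by
      have := norm_add_le (pos x σ j - x) x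
      rw [sub_add_cancel] at this
      linarith [n1 j hj]
    refine (not_BadT g1 a1 (n2 j hj)).trans ?_
    rw [← e1]; exact T_le ω x σ hj
  have hU := (abs_le.1 (G.phiU N)).1
  set E := (C' + 2 * c + 2) * s / κ with hE
  have hE1 : (C' + 2 * c + 2) * s ≤ E := by
    rw [hE, le_div_iff₀ hκ]
    exact mul_le_of_le_one_right (by positivity) G.k1
  have hE2 : C' * s + 2 * c + 2 * s ≤ (C' + 2 * c + 2) * s := by nlinarith
  have hE3 : 3 * E ≤ W := by
    refine le_trans (le_of_eq ?_) hW; rw [hE]; ring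
  have hE0 : 0 ≤ E := by positivity
  have b1 : ∀ j ≤ k, |B (pos x σ j) - B x| ≤ E := by
    intro j hj
    have a1 := G.low (pos x σ j - x)
    have a2 := G.low' (x + U N - pos x σ j)
    have a3 := tm_add ω x σ (Nat.zero_le j) hj
    have a4 := f1 j hj
    have a5 := f2 j hj
    simp only [map_sub, map_add] at a1 a2
    rw [hE, le_div_iff₀ hκ]
    linarith
  obtain ⟨l, rfl, hl⟩ := exists_list σ k
  have hp : ∀ j ≤ l.length, pos x (st l) j = pos x σ j := fun j hj => pos_congr x hl hj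
  refine ⟨l, mem_Cls.2 ⟨hk, by rw [hp _ le_rfl, e1], injOn_congr hl e2, fun j hj => ?_,
    fun i j hij hj => ?_⟩, ?_⟩
  · rw [hp j hj]; linarith [b1 j hj]
  · rw [hp j hj, hp i (hij.trans hj)]
    have a1 := G.low' (pos x σ i - x)
    have a2 := G.low' (x + U N - pos x σ j)
    have a3 := tm_add ω x σ (Nat.zero_le j) hj
    have a4 := f1 i (hij.trans hj)
    have a5 := f2 j hj
    have a6 := tm_sub ω x σ (le_refl 0) hij
    have a7 := abs_le.1 (G.absB (pos x σ i - pos x σ j))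
    have a8 := abs_le.1 (b1 j hj)
    have a9 := abs_le.1 (b1 i (hij.trans hj))
    have a10 : |B (pos x σ i - pos x σ j)| ≤ 2 * E := by
      rw [map_sub, abs_le]; constructor <;> linarith
    simp only [map_sub, map_add] at a1 a2 a7 a10
    linarith
  · unfold tt
    rw [tm_congr ω x hl le_rfl]; exact e3

theorem lane_mean [IsProbabilityMeasure ν] (hν : Integrable (fun y => y ^ 2) ν) {r : ℝ}
    (hr0 : 0 < r) (hr : ν.real (Set.Iic r) ≤ 1 / 1024) (G : Geo ν A B U κ c) :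
    ∃ C : ℝ, 1 ≤ C ∧ ∀ᶠ N : ℝ in atTop, ∃ K : ℕ, (K : ℝ) ≤ N ^ 2 ∧ ∀ x : V, ‖x‖ ≤ N ^ 2 →
      ∀ W : ℝ, C * N ^ th ≤ W → (Cls K (LaneP A B x (x + U N) W)).Nonempty ∧
        ∫ ω, Zc (Cls K (LaneP A B x (x + U N) W)) x ω ∂(PP Ed ν) ≤ N + C * N ^ th := by
  have hc := G.c1
  have hκ := G.k0
  obtain ⟨C0, hC0, hcb⟩ := corner_bound hν hr0 hr G
  set C' := 4 * (C0 + 2 * c + 2) with hC'
  have hC'0 : 0 ≤ C' := by positivity
  set C3 := 1 + 2 * (1 + C') / r + 3 * c ^ 2 with hC3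
  have p1 : 0 ≤ 2 * (1 + C') / r := by positivity
  have p2 : 0 ≤ 3 * c ^ 2 := by positivity
  have hC31 : 1 ≤ C3 := by linarith
  have hCC : C' + 2 * c + 2 ≤ 3 * (C' + 2 * c + 2) / κ := by
    rw [le_div_iff₀ hκ]; nlinarith [G.k1]
  refine ⟨3 * (C' + 2 * c + 2) / κ, by linarith, ?_⟩
  filter_upwards [hcb, BadT_small hν hr0 hr (2 * C3) (by linarith) 3, BadQ_small hr 3,
    conc_small ν (2 * C3) (by linarith), eventually_ge_atTop (2 * C3), eventually_ge_atTop 3]
    with N h0 hT hQ hZ h1 h2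
  have hN1 : 1 ≤ N := by linarith
  have hs1 := one_le_rpow_th hN1
  have hsN := rpow_th_le_self hN1
  set s := N ^ th with hs
  set K := ⌈C3 * N⌉₊ with hK
  have hK1 : C3 * N ≤ K := Nat.le_ceil _
  have hK2 : (K : ℝ) ≤ 2 * C3 * N := by
    have := Nat.ceil_lt_add_one (a := C3 * N) (by positivity)
    nlinarith
  have hKt : (K : ℝ) ≤ N ^ 2 := by nlinarith
  refine ⟨K, hKt, fun x hx W hW => ?_⟩
  set R := ⌈2 * N ^ 2⌉₊ with hR
  have hR1 : 2 * N ^ 2 ≤ R := Nat.le_ceil _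
  have hR2 : (R : ℝ) ≤ N ^ 3 := by
    have := Nat.ceil_lt_add_one (a := 2 * N ^ 2) (by positivity)
    nlinarith
  have b1 := hT R K hR2 hK2
  have b2 := hQ R K hR2 (by nlinarith)
  obtain ⟨a, ha0, ha1, ha2⟩ := hZ K hK2
  have hrK : N + C' * s ≤ r * K / 2 := by
    have e2 : r * (2 * (1 + C') / r * N) = 2 * (1 + C') * N := by field_simp
    have e3 : r * (2 * (1 + C') / r * N) ≤ r * K := by
      refine mul_le_mul_of_nonneg_left (le_trans ?_ hK1) hr0.le
      gcongr; linarith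
    nlinarith
  set C := Cls K (LaneP A B x (x + U N) W) with hC
  set P := PP Ed ν with hP
  have hN3 : 27 ≤ N ^ 3 := by
    have := pow_le_pow_left₀ (by norm_num) h2 3
    linarith
  have hp1 : 0 ≤ P.real (BadT ν R K s) := measureReal_nonneg
  have hp2 : 0 ≤ P.real (BadQ r R K) := measureReal_nonneg
  have q1 : P.real (BadT ν R K s) ≤ 1 / 27 := by nlinarith
  have q2 : P.real (BadQ r R K) ≤ 1 / 27 := by nlinarith
  have q3 : P.real {ω | (N - 2 * c - s) + C' * s ≤ T ω x (x + U N)} ≤ 1 / 4 := by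
    have m := markov2 (P := P) (T_meas x (x + U N)) (T_int hν x (x + U N))
      (fun ω => T_nonneg ω _ _) (a := N - 2 * c - s) (b := C' * s) (by positivity)
    rw [int_T, add_sub_cancel_left] at m
    have hsub : P.real {ω | T ω x (x + U N) < N - 2 * c - s} ≤ P.real (BadT ν R K s) := by
      refine measureReal_mono (fun ω hω => ?_) (measure_ne_top _ _)
      refine ⟨x, x + U N, by nlinarith [sq_nonneg N], ?_, ?_⟩
      · rw [add_sub_cancel_left]
        refine (G.normU N (by linarith)).trans (le_trans ?_ hK1)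
        have : c * (N + 2 * c) ≤ 3 * c ^ 2 * N := by nlinarith [mul_nonneg (sub_nonneg.2 hc) (sub_nonneg.2 hN1)]
        nlinarith
      · rw [add_sub_cancel_left]
        have := G.low' (U N)
        have := (abs_le.1 (G.phiU N)).1
        simp only [Set.mem_ofPred_eq] at hω
        linarith
    have hp3 : 0 ≤ P.real {ω | T ω x (x + U N) < N - 2 * c - s} := measureReal_nonneg
    have e1 : (N - 2 * c - s) * P.real {ω | T ω x (x + U N) < N - 2 * c - s} ≤ 1 := by
      calc _ ≤ N ^ 3 * P.real {ω | T ω x (x + U N) < N - 2 * c - s} := by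
            refine mul_le_mul_of_nonneg_right ?_ hp3
            have : N ≤ N ^ 3 := le_self_pow₀ hN1 (by norm_num)
            linarith
        _ ≤ N ^ 3 * P.real (BadT ν R K s) := by gcongr
        _ ≤ 1 := by linarith
    have e2 : (C0 + 2 * c + 2) * s * (4 * P.real {ω | (N - 2 * c - s) + C' * s ≤ T ω x (x + U N)})
        ≤ (C0 + 2 * c + 2) * s * 1 := by
      have : 2 * c ≤ 2 * c * s := by nlinarith
      rw [hC'] at m ⊢
      linarith
    have := le_of_mul_le_mul_left e2 (by positivity)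
    linarith
  have q4 : 1 / 4 < P.real {ω | ∃ l ∈ C, tt ω x l < N + C' * s} := by
    have hsub : P.real Set.univ ≤ P.real ((({ω | ∃ l ∈ C, tt ω x l < N + C' * s}
        ∪ {ω | (N - 2 * c - s) + C' * s ≤ T ω x (x + U N)}) ∪ BadT ν R K s) ∪ BadQ r R K) := by
      refine measureReal_mono (fun ω _ => ?_) (measure_ne_top _ _)
      by_contra hω
      simp only [Set.mem_union, not_or, Set.mem_ofPred_eq, not_le] at hω
      exact hω.1.1.1 (lane_det G hr0.le hs1 hC'0 (by linarith) hrK hW hω.1.2 hω.2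
        (by linarith [hω.1.1.2]))
    rw [probReal_univ] at hsub
    have u1 := measureReal_union_le (μ := P) (({ω | ∃ l ∈ C, tt ω x l < N + C' * s}
        ∪ {ω | (N - 2 * c - s) + C' * s ≤ T ω x (x + U N)}) ∪ BadT ν R K s) (BadQ r R K)
    have u2 := measureReal_union_le (μ := P) ({ω | ∃ l ∈ C, tt ω x l < N + C' * s}
        ∪ {ω | (N - 2 * c - s) + C' * s ≤ T ω x (x + U N)}) (BadT ν R K s)
    have u3 := measureReal_union_le (μ := P) {ω | ∃ l ∈ C, tt ω x l < N + C' * s}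
        {ω | (N - 2 * c - s) + C' * s ≤ T ω x (x + U N)}
    linarith
  have hne : C.Nonempty := by
    by_contra hc
    rw [Finset.not_nonempty_iff_eq_empty] at hc
    simp [hc] at q4
    norm_num at q4
  refine ⟨hne, ?_⟩
  have h5 := Zc_conc hν hne x K (fun l hl => ⟨(mem_Cls.1 hl).1, (mem_Cls.1 hl).2.2.1⟩) a s ha0 ha1
  by_contra hcon
  have : P.real {ω | ∃ l ∈ C, tt ω x l < N + C' * s}
      ≤ P.real {ω | Zc C x ω ≤ ∫ ω, Zc C x ω ∂P - s} := by
    refine measureReal_mono (fun ω hω => ?_) (measure_ne_top _ _)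
    obtain ⟨l, hl, h3⟩ := hω
    have := (sel_spec hne x ω).2 l hl
    show tt ω x (sel C x ω) ≤ _
    have h4 : (C' + 2 * c + 2) * s ≤ 3 * (C' + 2 * c + 2) / κ * s := by gcongr
    nlinarith
  linarith

end Pool.Agent.P.MP_dcd5d0_pr
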