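import Pool.Agent.P.MP_dcd5d0_pr.Tail

/-! The time constant as the limit of mean passage times; it is a norm-like function. -/

set_option autoImplicit false

open MeasureTheory ProbabilityTheory Finset Function Filter Topology
open scoped ENNReal

namespace Pool.Agent.P.MP_dcd5d0_pr

noncomputable def rd (x : Fin 2 → ℝ) : V := fun i => round (x i)

lemma norm_le_of_close (z : V) (w : Fin 2 → ℝ) {a : ℝ} (ha : 0 ≤ a)
    (h : ∀ i, |(z i : ℝ) - w i| ≤ a) : ‖z‖ ≤ ‖w‖ + a := by
  rw [pi_norm_le_iff_of_nonneg (by positivity)]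
  intro i
  have h1 := norm_le_pi_norm w i
  rw [Real.norm_eq_abs] at h1
  rw [Int.norm_eq_abs]
  have := abs_sub_abs_le_abs_sub (z i : ℝ) (w i)
  linarith [h i]

lemma rd_close (x : Fin 2 → ℝ) (i : Fin 2) : |(rd x i : ℝ) - x i| ≤ 1 / 2 := by
  rw [abs_sub_comm]; exact abs_sub_round (x i)

lemma norm_rd (x : Fin 2 → ℝ) : ‖rd x‖ ≤ ‖x‖ + 1 :=
  norm_le_of_close _ _ zero_le_one fun i => (rd_close x i).trans (by norm_num)

lemma norm_rd_sub (x y : Fin 2 → ℝ) : ‖rd x - rd y‖ ≤ ‖x - y‖ + 1 := by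
  refine norm_le_of_close _ _ zero_le_one fun i => ?_
  have h1 := abs_le.1 (rd_close x i)
  have h2 := abs_le.1 (rd_close y i)
  simp only [Pi.sub_apply, Int.cast_sub]
  rw [abs_le]; constructor <;> linarith

lemma norm_rd_add (x y : Fin 2 → ℝ) : ‖rd (x + y) - (rd x + rd y)‖ ≤ 2 := by
  have := norm_le_of_close (rd (x + y) - (rd x + rd y)) 0 (a := 2) (by norm_num) fun i => by
    have h1 := abs_le.1 (rd_close x i)
    have h2 := abs_le.1 (rd_close y i)
    have h3 := abs_le.1 (rd_close (x + y) i)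
    simp only [Pi.sub_apply, Pi.add_apply, Int.cast_sub, Int.cast_add, Pi.zero_apply] at h3 ⊢
    rw [abs_le]; constructor <;> linarith
  simpa using this

lemma mean_of_prob {P : Measure Om} [IsProbabilityMeasure P] (X : ℕ → Om → ℝ)
    (hm : ∀ n, Measurable (X n)) (h1 : ∀ n, Integrable (X n) P)
    (h2 : ∀ n, Integrable (fun ω => X n ω ^ 2) P) (Q c : ℝ) (hQ : ∀ n, ∫ ω, X n ω ^ 2 ∂P ≤ Q)
    (hp : ∀ ε : ℝ, 0 < ε → Tendsto (fun n => P {ω | ε < |X n ω - c|}) atTop (𝓝 0)) :
    Tendsto (fun n => ∫ ω, X n ω ∂P) atTop (𝓝 c) := by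
  have hQ0 : 0 ≤ Q := (integral_nonneg fun ω => sq_nonneg _).trans (hQ 0)
  rw [Metric.tendsto_atTop]
  intro η hη
  set Q' := 2 * Q + 2 * c ^ 2 + 1 with hQ'
  have hQ'0 : 0 < Q' := by positivity
  set δ := η / 4 / Q' with hδ
  have hδ0 : 0 < δ := by positivity
  have hp' : Tendsto (fun n => P.real {ω | η / 4 < |X n ω - c|}) atTop (𝓝 0) := by
    have := (ENNReal.tendsto_toReal ENNReal.zero_ne_top).comp (hp (η / 4) (by positivity))
    simpa [Measure.real, Function.comp_def] using this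
  obtain ⟨N, hN⟩ := eventually_atTop.1 (hp'.eventually (gt_mem_nhds (show 0 < η / 4 * δ by positivity)))
  refine ⟨N, fun n hn => ?_⟩
  have hs : MeasurableSet {ω | η / 4 < |X n ω - c|} :=
    measurableSet_lt measurable_const ((hm n).sub_const c).abs
  have i1 : Integrable (fun ω => X n ω - c) P := (h1 n).sub (integrable_const c)
  have i2 : Integrable (fun ω => η / 4 + δ * (2 * X n ω ^ 2 + 2 * c ^ 2)) P :=
    (integrable_const _).add ((((h2 n).const_mul 2).add (integrable_const _)).const_mul δ)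
  have i3 : Integrable ({ω | η / 4 < |X n ω - c|}.indicator (fun _ => δ⁻¹)) P :=
    (integrable_const _).indicator hs
  have e1 : ∫ ω, X n ω ∂P - c = ∫ ω, (X n ω - c) ∂P := by
    rw [integral_sub (h1 n) (integrable_const c)]; simp
  have e2 := integral_mono i1.abs (i2.add i3) (fun ω => by
    simp only [Pi.add_apply, Set.indicator, Set.mem_ofPred_eq]
    have a1 : 0 ≤ δ * (2 * X n ω ^ 2 + 2 * c ^ 2) := by positivity
    split_ifs with h
    · have a2 : |X n ω - c| ≤ δ * |X n ω - c| ^ 2 + δ⁻¹ := by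
        have a3 : δ * |X n ω - c| ^ 2 + δ⁻¹ - |X n ω - c|
            = δ⁻¹ * ((δ * |X n ω - c| - 1 / 2) ^ 2 + 3 / 4) := by field_simp; ring
        have a4 : 0 ≤ δ⁻¹ * ((δ * |X n ω - c| - 1 / 2) ^ 2 + 3 / 4) := by positivity
        linarith
      rw [sq_abs] at a2
      have a5 : δ * (X n ω - c) ^ 2 ≤ δ * (2 * X n ω ^ 2 + 2 * c ^ 2) :=
        mul_le_mul_of_nonneg_left (by nlinarith [sq_nonneg (X n ω + c)]) hδ0.le
      linarith
    · linarith [not_lt.1 h])
  simp only [Pi.add_apply] at e2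
  have i4 : Integrable (fun ω => 2 * X n ω ^ 2) P := (h2 n).const_mul 2
  have i5 : Integrable (fun ω => δ * (2 * X n ω ^ 2 + 2 * c ^ 2)) P :=
    (i4.add (integrable_const _)).const_mul δ
  rw [integral_add i2 i3, integral_indicator_const _ hs, integral_add (integrable_const _) i5,
    integral_const_mul, integral_add i4 (integrable_const _), integral_const_mul] at e2
  simp only [integral_const, probReal_univ, smul_eq_mul, one_mul] at e2
  rw [Real.dist_eq, e1]
  refine lt_of_le_of_lt (abs_integral_le_integral_abs.trans e2) ?_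
  have a1 : δ * (2 * ∫ ω, X n ω ^ 2 ∂P + 2 * c ^ 2) ≤ δ * Q' :=
    mul_le_mul_of_nonneg_left (by linarith [hQ n]) hδ0.le
  have a2 : δ * Q' = η / 4 := by rw [hδ]; field_simp
  have a3 : P.real {ω | η / 4 < |X n ω - c|} * δ⁻¹ ≤ η / 4 := by
    rw [← div_eq_mul_inv, div_le_iff₀ hδ0]; exact (hN n hn).le
  linarith

/-- `g` is the limit in probability of the rescaled passage times -/
def IsTC (ν : Measure ℝ) (g : (Fin 2 → ℝ) → ℝ) : Prop :=
  ∀ x : Fin 2 → ℝ, ∀ ε : ℝ, 0 < ε →
    Tendsto (fun n : ℕ => PP Ed ν {ω | ε < |T ω 0 (rd ((n : ℝ) • x)) / n - g x|}) atTop (𝓝 0)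

variable {ν : Measure ℝ} [IsProbabilityMeasure ν] {g : (Fin 2 → ℝ) → ℝ}

lemma IsTC.nat (hν : Integrable (fun y => y ^ 2) ν) (H : IsTC ν g) (x : Fin 2 → ℝ) :
    Tendsto (fun n : ℕ => hh ν (rd ((n : ℝ) • x)) / n) atTop (𝓝 (g x)) := by
  have := mean_of_prob (P := PP Ed ν) (fun n ω => T ω 0 (rd ((n : ℝ) • x)) / n)
    (fun n => (T_meas _ _).div_const _) (fun n => (T_int hν _ _).div_const _)
    (fun n => by simp only [div_pow]; exact (T_sq hν _ _).1.div_const _)
    (4 * (‖x‖ + 1) ^ 2 * m2 ν) (g x) (fun n => by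
      simp only [div_pow]
      rw [integral_div]
      have hm := m2_nonneg ν
      rcases Nat.eq_zero_or_pos n with rfl | hn
      · simp only [Nat.cast_zero, ne_eq, OfNat.ofNat_ne_zero, not_false_eq_true, zero_pow, div_zero]
        positivity
      · have hn1 : (1 : ℝ) ≤ n := by exact_mod_cast hn
        rw [div_le_iff₀ (by positivity)]
        refine (T_sq hν _ _).2.1.trans ?_
        have a1 : ‖rd ((n : ℝ) • x) - 0‖ ≤ (‖x‖ + 1) * n := by
          rw [sub_zero]
          refine (norm_rd _).trans ?_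
          rw [norm_smul, Real.norm_natCast]; linarith
        have a2 := pow_le_pow_left₀ (norm_nonneg _) a1 2
        calc _ ≤ 4 * ((‖x‖ + 1) * n) ^ 2 * m2 ν := by gcongr
          _ = _ := by ring) (H x)
  simpa only [integral_div, hh] using this

lemma IsTC.real (hν : Integrable (fun y => y ^ 2) ν) (H : IsTC ν g) (x : Fin 2 → ℝ) :
    Tendsto (fun t : ℝ => hh ν (rd (t • x)) / t) atTop (𝓝 (g x)) := by
  have h1 := (H.nat hν x).comp (tendsto_nat_floor_atTop (α := ℝ))
  have h2 := h1.mul (tendsto_nat_floor_div_atTop (R := ℝ))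
  have h3 : Tendsto (fun t : ℝ => (hh ν (rd (t • x)) - hh ν (rd ((⌊t⌋₊ : ℝ) • x))) / t) atTop
      (𝓝 0) := by
    refine squeeze_zero_norm' (a := fun t => m1 ν * (‖x‖ + 1) / t) ?_
      (tendsto_const_nhds.div_atTop tendsto_id)
    filter_upwards [eventually_gt_atTop 0] with t ht
    rw [norm_div, Real.norm_eq_abs, Real.norm_eq_abs, abs_of_pos ht]
    refine div_le_div_of_nonneg_right ?_ ht.le
    have a0 : ‖t • x - (⌊t⌋₊ : ℝ) • x‖ ≤ ‖x‖ := by
      rw [← sub_smul, norm_smul, Real.norm_eq_abs]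
      refine mul_le_of_le_one_left (norm_nonneg _) ?_
      have := Nat.floor_le ht.le
      have := Nat.lt_floor_add_one t
      rw [abs_le]; constructor <;> linarith
    have a1 := mul_le_mul_of_nonneg_left
      ((norm_rd_sub (t • x) ((⌊t⌋₊ : ℝ) • x)).trans (add_le_add a0 le_rfl)) (m1_pos ν).le
    have a2 := hh_lip hν (rd (t • x)) (rd ((⌊t⌋₊ : ℝ) • x))
    have a3 := hh_lip hν (rd ((⌊t⌋₊ : ℝ) • x)) (rd (t • x))
    rw [norm_sub_rev] at a3
    rw [abs_le]; constructor <;> linarith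
  have h4 := h2.add h3
  rw [mul_one, add_zero] at h4
  refine h4.congr' ?_
  filter_upwards [eventually_ge_atTop 1] with t ht
  have : (0 : ℝ) < ⌊t⌋₊ := by exact_mod_cast Nat.floor_pos.2 ht
  simp only [Function.comp]
  field_simp
  ring

lemma IsTC.add (hν : Integrable (fun y => y ^ 2) ν) (H : IsTC ν g) (x y : Fin 2 → ℝ) :
    g (x + y) ≤ g x + g y := by
  have h := ((H.real hν x).add (H.real hν y)).add
    (tendsto_const_nhds (x := m1 ν * 2).div_atTop tendsto_id)
  rw [add_zero] at h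
  refine le_of_tendsto_of_tendsto (H.real hν (x + y)) h ?_
  filter_upwards [eventually_gt_atTop 0] with t ht
  simp only [id]
  rw [← add_div, ← add_div]
  refine div_le_div_of_nonneg_right ?_ ht.le
  have a1 := hh_lip hν (rd (t • x + t • y)) (rd (t • x) + rd (t • y))
  have a2 := hh_add hν (rd (t • x)) (rd (t • y))
  have a3 := mul_le_mul_of_nonneg_left (norm_rd_add (t • x) (t • y)) (m1_pos ν).le
  rw [smul_add]; linarith

lemma IsTC.smul (hν : Integrable (fun y => y ^ 2) ν) (H : IsTC ν g) {a : ℝ} (ha : 0 < a)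
    (x : Fin 2 → ℝ) : g (a • x) = a * g x := by
  have h := ((H.real hν x).comp (tendsto_id.atTop_mul_const ha)).const_mul a
  refine tendsto_nhds_unique (H.real hν (a • x)) (h.congr' ?_)
  filter_upwards [eventually_gt_atTop 0] with t ht
  simp only [Function.comp, id, smul_smul]
  field_simp

lemma IsTC.le_hh (hν : Integrable (fun y => y ^ 2) ν) (H : IsTC ν g) (z : V) :
    g (fun i => (z i : ℝ)) ≤ hh ν z := by
  have key : ∀ n : ℕ, hh ν (n • z) ≤ n * hh ν z := by
    intro n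
    induction n with
    | zero => simpa using hh_le hν 0
    | succ n ih =>
      rw [succ_nsmul]; push_cast
      linarith [hh_add hν (n • z) z]
  refine le_of_tendsto (H.nat hν _) ?_
  filter_upwards [eventually_gt_atTop 0] with n hn
  have : rd ((n : ℝ) • fun i => (z i : ℝ)) = n • z := by
    ext i
    simp only [rd, Pi.smul_apply, smul_eq_mul, nsmul_eq_mul]
    rw [← Int.cast_natCast (R := ℝ), ← Int.cast_mul, round_intCast]
  rw [this, div_le_iff₀ (by exact_mod_cast hn)]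
  linarith [key n]

lemma IsTC.le_norm (hν : Integrable (fun y => y ^ 2) ν) (H : IsTC ν g) (x : Fin 2 → ℝ) :
    g x ≤ m1 ν * ‖x‖ := by
  have h := (tendsto_const_nhds (x := m1 ν * ‖x‖) (f := atTop)).add
    (tendsto_const_nhds (x := m1 ν).div_atTop (tendsto_id (α := ℝ)))
  rw [add_zero] at h
  refine le_of_tendsto_of_tendsto (H.real hν x) h ?_
  filter_upwards [eventually_gt_atTop 0] with t ht
  simp only [id]
  rw [div_le_iff₀ ht]
  have a1 := hh_le hν (rd (t • x))
  have a2 := mul_le_mul_of_nonneg_left (norm_rd (t • x)) (m1_pos ν).le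
  rw [norm_smul, Real.norm_eq_abs, abs_of_pos ht] at a2
  have : (m1 ν * ‖x‖ + m1 ν / t) * t = m1 ν * (t * ‖x‖ + 1) := by field_simp
  linarith

lemma hh_coer (hν : Integrable (fun y => y ^ 2) ν) {r : ℝ} (hr0 : 0 ≤ r)
    (hr : ν.real (Set.Iic r) ≤ 1 / 1024) (z : V) : r / 4 * ‖z‖ ≤ hh ν z := by
  rcases eq_or_lt_of_le (norm_nonneg z) with h | h
  · rw [← h, mul_zero]; exact hh_nonneg z
  set k := ⌈‖z‖⌉₊ with hk
  have hk1 : 1 ≤ k := Nat.ceil_pos.2 h
  have hk2 : ‖z‖ ≤ k := Nat.le_ceil _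
  have h1 := markov1 (P := PP Ed ν) (T_int hν 0 z) (fun ω => T_nonneg ω 0 z) (a := r * k / 2)
    (by positivity) (Bad := BadP r 0 k) (fun ω hω => by
      by_contra hc
      obtain ⟨j, σ, e1, e2, e3⟩ := exists_trail_lt (not_le.1 hc)
      have e4 := norm_pos_sub0 0 σ j
      rw [e1, sub_zero] at e4
      have := long_trail hr0 hω e2 (Nat.ceil_le.2 e4)
      linarith)
  have h2 := peierls hr 0 k
  have h3 : Real.exp (-k) ≤ 1 / 2 := by
    have a0 : (1 : ℝ) ≤ k := by exact_mod_cast hk1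
    have a1 := Real.add_one_le_exp k
    rw [Real.exp_neg, inv_le_comm₀ (Real.exp_pos _) (by norm_num)]; linarith
  have h4 : r * k / 2 * (1 / 2) ≤ r * k / 2 * (1 - (PP Ed ν).real (BadP r 0 k)) :=
    mul_le_mul_of_nonneg_left (by linarith) (by positivity)
  have h5 := mul_le_mul_of_nonneg_left hk2 hr0
  unfold hh
  linarith

lemma IsTC.coer (hν : Integrable (fun y => y ^ 2) ν) (H : IsTC ν g) {r : ℝ} (hr0 : 0 ≤ r)
    (hr : ν.real (Set.Iic r) ≤ 1 / 1024) (x : Fin 2 → ℝ) : r / 4 * ‖x‖ ≤ g x := by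
  have h := (tendsto_const_nhds (x := r / 4 * ‖x‖) (f := atTop)).sub
    (tendsto_const_nhds (x := r / 4).div_atTop (tendsto_id (α := ℝ)))
  rw [sub_zero] at h
  refine le_of_tendsto_of_tendsto h (H.real hν x) ?_
  filter_upwards [eventually_gt_atTop 0] with t ht
  simp only [id]
  rw [le_div_iff₀ ht]
  have a1 := hh_coer hν hr0 hr (rd (t • x))
  have a2 : ‖t • x‖ ≤ ‖rd (t • x)‖ + 1 := by
    rw [pi_norm_le_iff_of_nonneg (by positivity)]
    intro i
    have b1 := norm_le_pi_norm (rd (t • x)) i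
    rw [Int.norm_eq_abs] at b1
    have b2 := rd_close (t • x) i
    have b3 := abs_sub_abs_le_abs_sub ((t • x) i) (rd (t • x) i)
    rw [abs_sub_comm] at b3
    rw [Real.norm_eq_abs]
    linarith
  rw [norm_smul, Real.norm_eq_abs, abs_of_pos ht] at a2
  have a3 := mul_le_mul_of_nonneg_left a2 (show 0 ≤ r / 4 by positivity)
  have : (r / 4 * ‖x‖ - r / 4 / t) * t = r / 4 * (t * ‖x‖) - r / 4 := by field_simp
  linarith

end Pool.Agent.P.MP_dcd5d0_pr
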