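import Pool.Agent.P.MP_dcd5d0_pr.Core
import Pool.Agent.P.MP_dcd5d0_pr.Norm
import Pool.Agent.P.MP_dcd5d0_pr.Corner

/-! No boundary segment of the limit shape has a corner at both ends. -/

set_option autoImplicit false

open MeasureTheory ProbabilityTheory Finset Function Filter Topology
open scoped ENNReal

namespace Pool.Agent.P.MP_dcd5d0_pr

lemma exists_levels (ν : Measure ℝ) [IsProbabilityMeasure ν] (h0 : ∀ a : ℝ, ν {a} = 0)
    (h1 : ν (Set.Iio 0) = 0) : ∃ r1 r2 : ℝ, 0 ≤ r1 ∧ r1 < r2 ∧ 0 < ν.real (Set.Iic r1) ∧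
      ν.real (Set.Iic r2) ≤ 1 / 1024 := by
  set S := {x : ℝ | 0 < cdf ν x} with hS
  have hne : S.Nonempty :=
    ((tendsto_cdf_atTop ν).eventually (lt_mem_nhds zero_lt_one)).exists
  have hlb : ∀ x ∈ S, 0 ≤ x := by
    intro x hx
    by_contra hc
    have : ν (Set.Iic x) = 0 := measure_mono_null (fun y hy => lt_of_le_of_lt hy (not_le.1 hc)) h1
    have hx' : 0 < cdf ν x := hx
    rw [cdf_eq_real, Measure.real, this] at hx'
    simp at hx'
  have hbd : BddBelow S := ⟨0, hlb⟩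
  set r0 := sInf S with hr0
  have e1 : ν (Set.Iio r0) = 0 := by
    have : Set.Iio r0 ⊆ ⋃ n : ℕ, Set.Iic (r0 - 1 / ((n : ℝ) + 1)) := by
      intro x hx
      obtain ⟨n, hn⟩ := exists_nat_one_div_lt (sub_pos.2 (show x < r0 from hx))
      exact Set.mem_iUnion.2 ⟨n, show x ≤ _ by linarith⟩
    refine measure_mono_null this (measure_iUnion_null fun n => ?_)
    by_contra hc
    have a1 : r0 - 1 / ((n : ℝ) + 1) ∈ S := by
      show 0 < cdf ν _
      rw [cdf_eq_real]
      exact ENNReal.toReal_pos hc (measure_ne_top _ _)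
    have a2 := csInf_le hbd a1
    have : (0 : ℝ) < 1 / ((n : ℝ) + 1) := by positivity
    linarith
  have e2 : cdf ν r0 = 0 := by
    rw [cdf_eq_real, Measure.real, ← Set.Iio_union_right, measure_union_null e1 (h0 r0)]
    simp
  have e3 := ((cdf ν).right_continuous r0).mono Set.Ioi_subset_Ici_self
  have e4 : ∀ᶠ x in 𝓝[>] r0, cdf ν x < 1 / 1024 :=
    e3.eventually (gt_mem_nhds (by rw [e2]; norm_num))
  obtain ⟨r2, e5, e6⟩ := (e4.and self_mem_nhdsWithin).exists
  replace e6 : r0 < r2 := e6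
  obtain ⟨r1, e7, e8⟩ := exists_lt_of_csInf_lt hne e6
  exact ⟨r1, r2, hlb r1 e7, e8, by rw [← cdf_eq_real]; exact e7, by rw [← cdf_eq_real]; exact e5.le⟩

noncomputable def toZ (α : (Fin 2 → ℝ) →L[ℝ] ℝ) : V →+ ℝ where
  toFun z := α (fun i => (z i : ℝ))
  map_zero' := by
    have : (fun i => ((0 : V) i : ℝ)) = 0 := by ext i; simp
    rw [this, map_zero]
  map_add' x y := by
    have : (fun i => ((x + y) i : ℝ)) = (fun i => (x i : ℝ)) + fun i => (y i : ℝ) := by
      ext i; simp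
    rw [this, map_add]

lemma norm_cast_V (z : V) : ‖(fun i => (z i : ℝ))‖ = ‖z‖ := by
  simp only [Pi.norm_def]
  rfl

variable {ν : Measure ℝ} [IsProbabilityMeasure ν] {g : (Fin 2 → ℝ) → ℝ}

lemma mk_geo (hν : Integrable (fun y => y ^ 2) ν) (H : IsTC ν g) {u v : Fin 2 → ℝ}
    (α β : (Fin 2 → ℝ) →L[ℝ] ℝ) (hz : ∀ z, z = α z • u + β z • v) (αu : α u = 1) (βu : β u = 0)
    (hu : g u = 1) {κ c : ℝ} (k0 : 0 < κ) (k1 : κ ≤ 1)
    (hk : ∀ z, α z + (1 - κ) * β z + κ * |β z| ≤ g z) (c1 : 1 ≤ c) (c2 : ‖α‖ ≤ c) (c3 : ‖β‖ ≤ c)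
    (c4 : ‖u‖ ≤ c) (c5 : ‖v‖ ≤ c) : Geo ν (toZ α) (toZ β) (fun t => rd (t • u)) κ c := by
  have key : ∀ γ : (Fin 2 → ℝ) →L[ℝ] ℝ, ‖γ‖ ≤ c → ∀ x, |γ x| ≤ c * ‖x‖ := fun γ h x =>
    (γ.le_opNorm x).trans (mul_le_mul_of_nonneg_right h (norm_nonneg _))
  have close : ∀ γ : (Fin 2 → ℝ) →L[ℝ] ℝ, ‖γ‖ ≤ c → ∀ x, |toZ γ (rd x) - γ x| ≤ c := by
    intro γ h x
    have : ‖(fun i => (rd x i : ℝ)) - x‖ ≤ 1 := by
      rw [pi_norm_le_iff_of_nonneg zero_le_one]
      intro i
      exact (rd_close x i).trans (by norm_num)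
    have e : toZ γ (rd x) - γ x = γ ((fun i => (rd x i : ℝ)) - x) := by rw [map_sub]; rfl
    rw [e]
    exact (key γ h _).trans (mul_le_of_le_one_right (by linarith) this)
  refine ⟨k0, k1, c1, fun z => ?_, fun z => ?_, fun z => ?_, fun t => ?_, fun t => ?_,
    fun z => (hk _).trans (H.le_hh hν z), ?_⟩
  · rw [← norm_cast_V]; exact key α c2 _
  · rw [← norm_cast_V]; exact key β c3 _
  · rw [← norm_cast_V, hz (fun i => (z i : ℝ))]
    refine (norm_add_le _ _).trans ?_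
    rw [norm_smul, norm_smul, Real.norm_eq_abs, Real.norm_eq_abs]
    have a1 := mul_le_mul_of_nonneg_left c4 (abs_nonneg (toZ α z))
    have a2 := mul_le_mul_of_nonneg_left c5 (abs_nonneg (toZ β z))
    show |toZ α z| * ‖u‖ + |toZ β z| * ‖v‖ ≤ _
    linarith
  · simpa [αu] using close α c2 (t • u)
  · simpa [βu] using close β c3 (t • u)
  · simpa [hu] using H.real hν u

theorem two_corners (hν : Integrable (fun y => y ^ 2) ν) (h0 : ∀ a : ℝ, ν {a} = 0)
    (h1 : ν (Set.Iio 0) = 0) (H : IsTC ν g) (u v : Fin 2 → ℝ) (huv : u ≠ v)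
    (hs : segment ℝ u v ⊆ frontier {x | g x ≤ 1}) :
    DifferentiableAt ℝ g u ∨ DifferentiableAt ℝ g v := by
  by_contra hc
  rw [not_or] at hc
  have S : Sub g := ⟨H.add hν, fun a ha x => H.smul hν ha x⟩
  have h : ∀ z ∈ segment ℝ u v, g z = 1 := fun z hz =>
    frontier_le_subset_eq (S.continuous (H.le_norm hν)) continuous_const (hs hz)
  have hd := S.det huv h
  set d := u 0 * v 1 - u 1 * v 0 with hdd
  set α : (Fin 2 → ℝ) →L[ℝ] ℝ :=
    (v 1 / d) • ContinuousLinearMap.proj 0 - (v 0 / d) • ContinuousLinearMap.proj 1 with hα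
  set β : (Fin 2 → ℝ) →L[ℝ] ℝ :=
    (u 0 / d) • ContinuousLinearMap.proj 1 - (u 1 / d) • ContinuousLinearMap.proj 0 with hβ
  have eα : ∀ z, α z = v 1 / d * z 0 - v 0 / d * z 1 := fun z => by simp [hα]
  have eβ : ∀ z, β z = u 0 / d * z 1 - u 1 / d * z 0 := fun z => by simp [hβ]
  have hz : ∀ z, z = α z • u + β z • v := by
    intro z
    ext i
    simp only [Pi.add_apply, Pi.smul_apply, smul_eq_mul, eα, eβ]
    fin_cases i
    · simp only [Fin.zero_eta]; field_simp; rw [hdd]; ring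
    · simp only [Fin.mk_one]; field_simp; rw [hdd]; ring
  have hz' : ∀ z, z = β z • v + α z • u := fun z => by rw [add_comm]; exact hz z
  have αu : α u = 1 := by rw [eα]; field_simp; rw [hdd]; ring
  have βu : β u = 0 := by rw [eβ]; ring
  have αv : α v = 0 := by rw [eα]; ring
  have βv : β v = 1 := by rw [eβ]; field_simp; rw [hdd]
  obtain ⟨k1, a1, a2, a3⟩ := S.corner h α β hz αu βu hc.1
  obtain ⟨k2, b1, b2, b3⟩ := S.corner (by rwa [segment_symm]) β α hz' βv αv hc.2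
  have mono : ∀ (k k' a b y : ℝ), k' ≤ k → a + (1 - k) * b + k * |b| ≤ y →
      a + (1 - k') * b + k' * |b| ≤ y := by
    intro k k' a b y h1 h2
    have := mul_le_mul_of_nonneg_right h1 (sub_nonneg.2 (le_abs_self b))
    linarith
  obtain ⟨r1, r2, e1, e2, e3, e4⟩ := exists_levels ν h0 h1
  have n1 := norm_nonneg α
  have n2 := norm_nonneg β
  have n3 := norm_nonneg u
  have n4 := norm_nonneg v
  refine core hν e1 e2 e3 e4
    (mk_geo hν H α β hz αu βu (h u (left_mem_segment ℝ u v)) (κ := min k1 k2)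
      (c := 1 + ‖α‖ + ‖β‖ + ‖u‖ + ‖v‖) (lt_min a1 b1) ((min_le_left _ _).trans a2)
      (fun z => mono _ _ _ _ _ (min_le_left _ _) (a3 z)) (by linarith) (by linarith)
      (by linarith) (by linarith) (by linarith))
    (mk_geo hν H β α hz' βv αv (h v (right_mem_segment ℝ u v)) (lt_min a1 b1)
      ((min_le_left _ _).trans a2)
      (fun z => mono _ _ _ _ _ (min_le_right _ _) (b3 z)) (by linarith) (by linarith)
      (by linarith) (by linarith) (by linarith)) ⟨u, v, fun z i => ?_⟩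
  exact congrFun (hz (fun i => (z i : ℝ))) i

theorem not_polygon (hν : Integrable (fun y => y ^ 2) ν) (h0 : ∀ a : ℝ, ν {a} = 0)
    (h1 : ν (Set.Iio 0) = 0) (H : IsTC ν g) : (Set.extremePoints ℝ {x | g x ≤ 1}).Infinite := by
  have S : Sub g := ⟨H.add hν, fun a ha x => H.smul hν ha x⟩
  obtain ⟨r1, r2, e1, e2, _, e4⟩ := exists_levels ν h0 h1
  exact S.infinite_extreme (H.le_norm hν) (c := r2 / 4) (by linarith)
    (H.coer hν (by linarith) e4) (two_corners hν h0 h1 H)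

lemma edge_sum (ω : Om) (a : V) (d : Dir) :
    ∑ i : Fin 2, ((if a + stp d = a + Pi.single i 1 then ω (a, i) else 0) +
      (if a = a + stp d + Pi.single i 1 then ω (a + stp d, i) else 0))
      = ω (if d.2 then a else a + stp d, d.1) := by
  obtain ⟨i, b⟩ := d
  fin_cases i <;> cases b <;>
    simp [stp, Fin.sum_univ_two, funext_iff, Fin.forall_fin_two, add_assoc]

lemma T_eq (ω : Om) (h : ∀ e, 0 ≤ ω e) (y : V) :
    sInf {s : ℝ | ∃ (k : ℕ) (p : ℕ → Fin 2 → ℤ), p 0 = 0 ∧ p k = y ∧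
      (∀ j < k, ∃ i : Fin 2, p (j+1) = p j + Pi.single i 1 ∨ p j = p (j+1) + Pi.single i 1) ∧
      s = ∑ j ∈ Finset.range k, ∑ i : Fin 2,
        ((if p (j+1) = p j + Pi.single i 1 then ω (p j, i) else 0) +
         (if p j = p (j+1) + Pi.single i 1 then ω (p (j+1), i) else 0))} = T ω 0 y := by
  have key : ∀ (σ : ℕ → Dir) (k : ℕ), tm ω 0 σ 0 k = ∑ j ∈ Finset.range k, ∑ i : Fin 2,
      ((if pos 0 σ (j+1) = pos 0 σ j + Pi.single i 1 then ω (pos 0 σ j, i) else 0) +
       (if pos 0 σ j = pos 0 σ (j+1) + Pi.single i 1 then ω (pos 0 σ (j+1), i) else 0)) := by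
    intro σ k
    unfold tm
    rw [← range_eq_Ico]
    refine sum_congr rfl fun j _ => ?_
    rw [max_eq_left (h _), pos_succ, edge_sum]
    unfold ed
    rw [pos_succ]
  unfold T
  congr 1
  ext s
  simp only [Set.mem_ofPred_eq]
  constructor
  · rintro ⟨k, p, h0, hk, hp, rfl⟩
    have : ∀ j, ∃ d : Dir, j < k → p (j + 1) = p j + stp d := by
      intro j
      by_cases hj : j < k
      · obtain ⟨i, hi | hi⟩ := hp j hj
        · exact ⟨(i, true), fun _ => by simpa [stp] using hi⟩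
        · exact ⟨(i, false), fun _ => by rw [hi]; simp [stp]⟩
      · exact ⟨default, fun h => absurd h hj⟩
    choose σ hσ using this
    have e : ∀ j ≤ k, pos 0 σ j = p j := by
      intro j hj
      induction j with
      | zero => simp [h0]
      | succ j ih => rw [pos_succ, ih (by omega), hσ j hj]
    refine ⟨k, σ, by rw [e k le_rfl, hk], ?_⟩
    rw [key]
    refine sum_congr rfl fun j hj => ?_
    have := mem_range.1 hj
    rw [e j this.le, e (j + 1) this]
  · rintro ⟨k, σ, hk, rfl⟩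
    refine ⟨k, pos 0 σ, pos_zero _ _, hk, fun j _ => ⟨(σ j).1, ?_⟩, key σ k⟩
    rw [pos_succ]
    unfold stp
    split_ifs
    · exact Or.inl rfl
    · right; simp

omit [IsProbabilityMeasure ν] in
theorem isTC_of {Ω : Type} [MeasurableSpace Ω] (P : Measure Ω) [IsProbabilityMeasure P]
    (h1 : ν (Set.Iio 0) = 0) (w : (Fin 2 → ℤ) × Fin 2 → Ω → ℝ) (hm : ∀ e, Measurable (w e))
    (hl : ∀ e, Measure.map (w e) P = ν) (hi : iIndepFun w P)
    (hg : ∀ x : Fin 2 → ℝ, ∀ ε : ℝ, 0 < ε →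
      Filter.Tendsto (fun n : ℕ => P {ω | ε < |sInf {s : ℝ | ∃ (k : ℕ) (p : ℕ → Fin 2 → ℤ),
          p 0 = 0 ∧ p k = (fun i => round ((n : ℝ) * x i)) ∧
          (∀ j < k, ∃ i : Fin 2, p (j+1) = p j + Pi.single i 1 ∨ p j = p (j+1) + Pi.single i 1) ∧
          s = ∑ j ∈ Finset.range k, ∑ i : Fin 2,
            ((if p (j+1) = p j + Pi.single i 1 then w (p j, i) ω else 0) +
             (if p j = p (j+1) + Pi.single i 1 then w (p (j+1), i) ω else 0))} / (n : ℝ) - g x|})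
        Filter.atTop (nhds 0)) : IsTC ν g := by
  intro x ε hε
  have hW : Measurable (fun ω e => w e ω) := measurable_pi_lambda _ hm
  have hlaw : P.map (fun ω e => w e ω) = PP Ed ν := by
    rw [hi.map_fun_eq_infinitePi_map hm]
    simp only [hl, PP]
  have hae : ∀ᵐ ω ∂P, ∀ e, 0 ≤ w e ω := by
    refine ae_all_iff.2 fun e => ?_
    rw [ae_iff]
    have := Measure.map_apply (μ := P) (hm e) (measurableSet_Iio (a := (0 : ℝ)))
    rw [hl, h1] at this
    simpa [Set.preimage] using this.symm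
  refine (hg x ε hε).congr fun n => ?_
  rw [← hlaw, Measure.map_apply hW (measurableSet_lt measurable_const
    (((T_meas _ _).div_const _).sub_const _).abs)]
  refine measure_congr ?_
  filter_upwards [hae] with ω hω
  have := T_eq (fun e => w e ω) hω (rd ((n : ℝ) • x))
  refine congrArg (fun t : ℝ => ε < |t / (n : ℝ) - g x|) this

end Pool.Agent.P.MP_dcd5d0_pr
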