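import Pool.Agent.P.MP_dcd5d0_pr.Path
import Pool.Agent.P.MP_dcd5d0_pr.Conc
import Pool.Agent.P.MP_dcd5d0_pr.Tilt

/-! Mean passage times, measurable selection of minimisers. -/

set_option autoImplicit false

open MeasureTheory ProbabilityTheory Finset Function
open scoped ENNReal

namespace Pool.Agent.P.MP_dcd5d0_pr

/-- mean passage time -/
noncomputable def hh (ν : Measure ℝ) (z : V) : ℝ := ∫ ω, T ω 0 z ∂(PP Ed ν)

noncomputable def m2 (ν : Measure ℝ) : ℝ := ∫ y, y ^ 2 ∂ν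

noncomputable def m1 (ν : Measure ℝ) : ℝ := 2 * (1 + m2 ν)

lemma m2_nonneg (ν : Measure ℝ) : 0 ≤ m2 ν := integral_nonneg fun y => sq_nonneg y

lemma m1_pos (ν : Measure ℝ) : 0 < m1 ν := by unfold m1; have := m2_nonneg ν; positivity

section
variable {ν : Measure ℝ} [IsProbabilityMeasure ν]

lemma edge_sq (hν : Integrable (fun y => y ^ 2) ν) (e : Ed) :
    Integrable (fun ω : Om => ω e ^ 2) (PP Ed ν) ∧ ∫ ω, ω e ^ 2 ∂(PP Ed ν) = m2 ν := by
  have hmp := measurePreserving_eval_infinitePi (fun _ : Ed => ν) e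
  refine ⟨hmp.integrable_comp_of_integrable hν, ?_⟩
  unfold m2
  conv_rhs => rw [← hmp.map_eq]
  rw [integral_map hmp.measurable.aemeasurable (by fun_prop)]
  rfl

lemma tm_sq_le (ω : Om) (x : V) (σ : ℕ → Dir) (k : ℕ) :
    tm ω x σ 0 k ^ 2 ≤ k * ∑ j ∈ Ico 0 k, ω (ed x σ j) ^ 2 := by
  have h := sq_sum_le_card_mul_sum_sq (s := Ico 0 k) (f := fun j => max (ω (ed x σ j)) 0)
  simp only [Nat.card_Ico, Nat.sub_zero] at h
  refine h.trans (mul_le_mul_of_nonneg_left (sum_le_sum fun j _ => ?_) (by positivity))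
  rcases le_total (ω (ed x σ j)) 0 with h | h
  · rw [max_eq_right h]; nlinarith [sq_nonneg (ω (ed x σ j))]
  · rw [max_eq_left h]

lemma dom_sq (hν : Integrable (fun y => y ^ 2) ν) (X : Om → ℝ) (hX : Measurable X)
    (h0 : ∀ ω, 0 ≤ X ω) (x : V) (σ : ℕ → Dir) (k : ℕ) (hle : ∀ ω, X ω ≤ tm ω x σ 0 k) :
    Integrable (fun ω => X ω ^ 2) (PP Ed ν) ∧ ∫ ω, X ω ^ 2 ∂(PP Ed ν) ≤ k ^ 2 * m2 ν
      ∧ Integrable X (PP Ed ν) ∧ ∫ ω, X ω ∂(PP Ed ν) ≤ k * (1 + m2 ν) := by
  have i0 : Integrable (fun ω : Om => ∑ j ∈ Ico 0 k, ω (ed x σ j) ^ 2) (PP Ed ν) :=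
    integrable_finsetSum _ fun j _ => (edge_sq hν _).1
  have e0 : ∫ ω, ∑ j ∈ Ico 0 k, ω (ed x σ j) ^ 2 ∂(PP Ed ν) = k * m2 ν := by
    rw [integral_finsetSum _ fun j _ => (edge_sq hν _).1, sum_congr rfl fun j _ => (edge_sq hν _).2]
    simp
  have p1 : ∀ ω, X ω ^ 2 ≤ k * ∑ j ∈ Ico 0 k, ω (ed x σ j) ^ 2 := fun ω =>
    (pow_le_pow_left₀ (h0 ω) (hle ω) 2).trans (tm_sq_le ω x σ k)
  have p2 : ∀ ω, X ω ≤ k + ∑ j ∈ Ico 0 k, ω (ed x σ j) ^ 2 := fun ω => by
    refine (hle ω).trans ?_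
    have : (k : ℝ) = ∑ _ ∈ Ico 0 k, (1 : ℝ) := by simp
    rw [this, ← sum_add_distrib]
    refine sum_le_sum fun j _ => max_le ?_ (by positivity)
    nlinarith [sq_nonneg (ω (ed x σ j) - 1)]
  have i1 : Integrable (fun ω => X ω ^ 2) (PP Ed ν) :=
    Integrable.mono' (i0.const_mul k) (hX.pow_const 2).aestronglyMeasurable
      (Filter.Eventually.of_forall fun ω => by
        rw [Real.norm_eq_abs, abs_of_nonneg (sq_nonneg _)]; exact p1 ω)
  have i3 : Integrable (fun ω : Om => k + ∑ j ∈ Ico 0 k, ω (ed x σ j) ^ 2) (PP Ed ν) :=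
    (integrable_const _).add i0
  have i2 : Integrable X (PP Ed ν) :=
    Integrable.mono' i3 hX.aestronglyMeasurable
      (Filter.Eventually.of_forall fun ω => by
        rw [Real.norm_eq_abs, abs_of_nonneg (h0 _)]; exact p2 ω)
  refine ⟨i1, ?_, i2, ?_⟩
  · refine (integral_mono i1 (i0.const_mul k) p1).trans ?_
    rw [integral_const_mul, e0]; apply le_of_eq; ring
  · refine (integral_mono i2 i3 p2).trans ?_
    rw [integral_add (integrable_const _) i0, e0]; simp; apply le_of_eq; ring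

lemma T_sq (hν : Integrable (fun y => y ^ 2) ν) (x y : V) :
    Integrable (fun ω => T ω x y ^ 2) (PP Ed ν)
      ∧ ∫ ω, T ω x y ^ 2 ∂(PP Ed ν) ≤ 4 * ‖y - x‖ ^ 2 * m2 ν
      ∧ Integrable (fun ω => T ω x y) (PP Ed ν)
      ∧ ∫ ω, T ω x y ∂(PP Ed ν) ≤ m1 ν * ‖y - x‖ := by
  obtain ⟨k, σ, h, hk⟩ := exists_path x y
  obtain ⟨h1, h2, h3, h4⟩ := dom_sq hν _ (T_meas x y) (fun ω => T_nonneg ω x y) x σ k
    (fun ω => T_le0 ω h)
  have := m2_nonneg ν
  refine ⟨h1, h2.trans ?_, h3, h4.trans ?_⟩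
  · have : (k : ℝ) ^ 2 ≤ (2 * ‖y - x‖) ^ 2 := pow_le_pow_left₀ (by positivity) hk 2
    nlinarith
  · unfold m1; nlinarith

lemma T_int (hν : Integrable (fun y => y ^ 2) ν) (x y : V) :
    Integrable (fun ω => T ω x y) (PP Ed ν) := (T_sq hν x y).2.2.1

lemma hh_le (hν : Integrable (fun y => y ^ 2) ν) (z : V) : hh ν z ≤ m1 ν * ‖z‖ := by
  simpa [hh] using (T_sq hν 0 z).2.2.2

omit [IsProbabilityMeasure ν] in
lemma hh_nonneg (z : V) : 0 ≤ hh ν z := integral_nonneg fun ω => T_nonneg ω 0 z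

lemma int_T (x y : V) : ∫ ω, T ω x y ∂(PP Ed ν) = hh ν (y - x) := by
  have hinj : Function.Injective (fun e : Ed => ((e.1 + x, e.2) : Ed)) := by
    intro e e' h
    simp only [Prod.mk.injEq, add_left_inj] at h
    exact Prod.ext h.1 h.2
  have hmap := Measure.map_infinitePi_infinitePi_of_inj (P := fun _ : Ed => ν) hinj
  unfold hh PP
  conv_rhs => rw [← hmap]
  rw [integral_map (Measurable.aemeasurable (by fun_prop)) (T_meas _ _).aestronglyMeasurable]
  refine integral_congr_ae (Filter.Eventually.of_forall fun ω => ?_)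
  have := T_shift ω 0 (y - x) x
  simpa using this

lemma hh_add (hν : Integrable (fun y => y ^ 2) ν) (z z' : V) :
    hh ν (z + z') ≤ hh ν z + hh ν z' := by
  have h1 := int_T (ν := ν) z (z + z')
  rw [add_sub_cancel_left] at h1
  rw [← h1]
  unfold hh
  rw [← integral_add (T_int hν _ _) (T_int hν _ _)]
  exact integral_mono (T_int hν _ _) ((T_int hν _ _).add (T_int hν _ _)) fun ω => T_tri ω _ _ _

lemma hh_lip (hν : Integrable (fun y => y ^ 2) ν) (z z' : V) :
    hh ν z ≤ hh ν z' + m1 ν * ‖z - z'‖ := by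
  have := hh_add hν z' (z - z')
  rw [add_sub_cancel] at this
  linarith [hh_le hν (z - z')]

end

/-- discrete measurability -/
def DM {κ : Type} (γ : Om → κ) : Prop := ∀ c, MeasurableSet {ω | γ ω = c}

lemma DM.sel {κ β : Type} [Countable κ] [MeasurableSpace β] {γ : Om → κ} (h : DM γ)
    (F : κ → Om → β) (hF : ∀ c, Measurable (F c)) : Measurable (fun ω => F (γ ω) ω) := by
  intro s hs
  have : (fun ω => F (γ ω) ω) ⁻¹' s = ⋃ c, {ω | γ ω = c} ∩ F c ⁻¹' s := by
    ext ω; simp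
  rw [this]
  exact MeasurableSet.iUnion fun c => (h c).inter (hF c hs)

lemma DM.set {κ : Type} [Countable κ] {γ : Om → κ} (h : DM γ) (p : κ → Prop) :
    MeasurableSet {ω | p (γ ω)} := by
  have : {ω | p (γ ω)} = ⋃ c, ⋃ _ : p c, {ω | γ ω = c} := by
    ext ω; simp
  rw [this]
  exact MeasurableSet.iUnion fun c => MeasurableSet.iUnion fun _ => h c

lemma DM.comp {κ κ' : Type} [Countable κ] {γ : Om → κ} (h : DM γ) (f : κ → κ') :
    DM (fun ω => f (γ ω)) := fun c => h.set (fun a => f a = c)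

lemma DM.prod {κ κ' : Type} {γ : Om → κ} {γ' : Om → κ'} (h : DM γ) (h' : DM γ') :
    DM (fun ω => (γ ω, γ' ω)) := by
  intro c
  have : {ω | (γ ω, γ' ω) = c} = {ω | γ ω = c.1} ∩ {ω | γ' ω = c.2} := by
    ext ω; simp [Prod.ext_iff]
  rw [this]; exact (h _).inter (h' _)

lemma DM.const {κ : Type} (c : κ) : DM (fun _ => c) := fun c' => by
  by_cases h : c = c' <;> simp [h]

/-- time of a list of steps -/
noncomputable def tt (ω : Om) (x : V) (l : List Dir) : ℝ := tm ω x (st l) 0 l.length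

noncomputable def pick (S : Finset (List Dir)) : List Dir :=
  if h : S.Nonempty then h.choose else []

open Classical in
noncomputable def mins (C : Finset (List Dir)) (x : V) (ω : Om) : Finset (List Dir) :=
  C.filter (fun l => ∀ l' ∈ C, tt ω x l ≤ tt ω x l')

/-- selected minimiser in the class `C` -/
noncomputable def sel (C : Finset (List Dir)) (x : V) (ω : Om) : List Dir := pick (mins C x ω)

lemma sel_spec {C : Finset (List Dir)} (hC : C.Nonempty) (x : V) (ω : Om) :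
    sel C x ω ∈ C ∧ ∀ l ∈ C, tt ω x (sel C x ω) ≤ tt ω x l := by
  have h : (mins C x ω).Nonempty := by
    obtain ⟨l, h1, h2⟩ := C.exists_min_image (tt ω x) hC
    exact ⟨l, by unfold mins; rw [mem_filter]; exact ⟨h1, h2⟩⟩
  have := h.choose_spec
  unfold sel pick
  rw [dif_pos h]
  unfold mins at this
  rw [mem_filter] at this
  exact this

lemma sel_congr {C : Finset (List Dir)} {x : V} {ω ω' : Om}
    (h : ∀ l ∈ C, tt ω x l = tt ω' x l) : sel C x ω = sel C x ω' := by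
  unfold sel mins
  congr 1
  refine filter_congr fun l hl => forall_congr' fun l' => forall_congr' fun hl' => ?_
  rw [h l hl, h l' hl']

lemma tt_meas (x : V) (l : List Dir) : Measurable (fun ω => tt ω x l) := tm_meas _ _ _ _

lemma sel_DM (C : Finset (List Dir)) (x : V) : DM (sel C x) := by
  have : DM (mins C x) := by
    intro S
    have : {ω | mins C x ω = S}
        = ⋂ l, {ω | (l ∈ C ∧ ∀ l' ∈ C, tt ω x l ≤ tt ω x l') ↔ l ∈ S} := by
      ext ω; simp [mins, Finset.ext_iff]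
    rw [this]
    refine MeasurableSet.iInter fun l => ?_
    refine measurableSet_setOfPred.2 (Measurable.iff (Measurable.and measurable_const ?_)
      measurable_const)
    refine Measurable.forall fun l' => Measurable.imp measurable_const ?_
    exact measurableSet_setOfPred.1 (measurableSet_le (tt_meas x l) (tt_meas x l'))
  exact this.comp pick

/-- minimal time in the class `C` -/
noncomputable def Zc (C : Finset (List Dir)) (x : V) (ω : Om) : ℝ := tt ω x (sel C x ω)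

lemma Zc_meas (C : Finset (List Dir)) (x : V) : Measurable (Zc C x) :=
  (sel_DM C x).sel (fun l ω => tt ω x l) (tt_meas x)

lemma Zc_int {ν : Measure ℝ} [IsProbabilityMeasure ν] (hν : Integrable (fun y => y ^ 2) ν)
    {C : Finset (List Dir)} (hC : C.Nonempty) (x : V) :
    Integrable (fun ω => Zc C x ω ^ 2) (PP Ed ν) ∧ Integrable (Zc C x) (PP Ed ν) := by
  obtain ⟨l, hl⟩ := hC
  have := dom_sq hν (Zc C x) (Zc_meas C x) (fun ω => tm_nonneg _ _ _ _ _) x (st l) l.length
    (fun ω => (sel_spec ⟨l, hl⟩ x ω).2 l hl)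
  exact ⟨this.1, this.2.2.1⟩

theorem Zc_conc {ν : Measure ℝ} [IsProbabilityMeasure ν] (hν : Integrable (fun y => y ^ 2) ν)
    {C : Finset (List Dir)} (hC : C.Nonempty) (x : V) (K : ℕ)
    (hK : ∀ l ∈ C, l.length ≤ K ∧ Set.InjOn (ed x (st l)) (Set.Iio l.length))
    (a s : ℝ) (ha : 0 ≤ a) (haK : a ^ 2 * (K * m2 ν) ≤ 1) :
    (PP Ed ν).real {ω | Zc C x ω ≤ ∫ ω, Zc C x ω ∂(PP Ed ν) - s} ≤ Real.exp (2 - a * s) := by
  classical
  refine conc ν hν (C.biUnion fun l => (range l.length).image (ed x (st l))) (Zc C x)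
    (Zc_meas C x) (fun ω => tm_nonneg _ _ _ _ _) (Zc_int hν hC x).1 ?_ K ?_ a s ha haK
  · intro ω ω' h
    have h1 : ∀ l ∈ C, tt ω x l = tt ω' x l := by
      intro l hl
      unfold tt tm
      refine sum_congr rfl fun j hj => ?_
      rw [h _ (mem_biUnion.2 ⟨l, hl, mem_image_of_mem _ (mem_range.2 (mem_Ico.1 hj).2)⟩)]
    unfold Zc
    rw [← sel_congr h1, h1 _ (sel_spec hC x ω).1]
  · intro ω
    obtain ⟨h1, _⟩ := sel_spec hC x ω
    set l := sel C x ω with hl
    refine ⟨(range l.length).image (ed x (st l)), card_image_le.trans (by simpa using (hK l h1).1),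
      fun e y => ?_⟩
    refine ((sel_spec hC x (update ω e y)).2 l h1).trans ?_
    have h2 : (if e ∈ (range l.length).image (ed x (st l)) then max y 0 else 0)
        = ∑ j ∈ Ico 0 l.length, if ed x (st l) j = e then max y 0 else 0 := by
      rw [← sum_ite_eq' _ e (fun _ => max y 0), sum_image, range_eq_Ico]
      simpa using (hK l h1).2
    rw [h2]
    unfold Zc tt tm
    rw [← hl, ← sum_add_distrib]
    refine sum_le_sum fun j _ => ?_
    by_cases hj : ed x (st l) j = e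
    · rw [if_pos hj, hj, update_self]
      have := le_max_right (ω e) 0
      linarith
    · rw [if_neg hj, update_of_ne hj, add_zero]

end Pool.Agent.P.MP_dcd5d0_pr
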