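import Mathlib

/-! Lattice paths in the plane given by step sequences; passage times. -/

set_option autoImplicit false

open Finset

namespace Pool.Agent.P.MP_dcd5d0_pr

abbrev V := Fin 2 → ℤ
abbrev Ed := V × Fin 2
abbrev Dir := Fin 2 × Bool
abbrev Om := Ed → ℝ

def stp (a : Dir) : V := if a.2 then Pi.single a.1 1 else -Pi.single a.1 1

def pos (x : V) (σ : ℕ → Dir) (j : ℕ) : V := x + ∑ i ∈ range j, stp (σ i)

def ed (x : V) (σ : ℕ → Dir) (j : ℕ) : Ed :=
  (if (σ j).2 then pos x σ j else pos x σ (j + 1), (σ j).1)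

noncomputable def tm (ω : Om) (x : V) (σ : ℕ → Dir) (a b : ℕ) : ℝ :=
  ∑ j ∈ Ico a b, max (ω (ed x σ j)) 0

noncomputable def T (ω : Om) (x y : V) : ℝ :=
  sInf {t | ∃ (k : ℕ) (σ : ℕ → Dir), pos x σ k = y ∧ t = tm ω x σ 0 k}

@[simp] lemma pos_zero (x : V) (σ : ℕ → Dir) : pos x σ 0 = x := by simp [pos]

lemma pos_succ (x : V) (σ : ℕ → Dir) (j : ℕ) : pos x σ (j + 1) = pos x σ j + stp (σ j) := by
  simp [pos, sum_range_succ, add_assoc]

lemma pos_shift (x : V) (σ : ℕ → Dir) (a j : ℕ) :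
    pos (pos x σ a) (fun i => σ (a + i)) j = pos x σ (a + j) := by
  simp [pos, sum_range_add, add_assoc]

lemma ed_shift (x : V) (σ : ℕ → Dir) (a j : ℕ) :
    ed (pos x σ a) (fun i => σ (a + i)) j = ed x σ (a + j) := by
  simp only [ed, pos_shift, add_assoc]

lemma tm_shift (ω : Om) (x : V) (σ : ℕ → Dir) (a k : ℕ) :
    tm ω (pos x σ a) (fun i => σ (a + i)) 0 k = tm ω x σ a (a + k) := by
  simp only [tm, ed_shift]
  rw [sum_Ico_eq_sum_range, sum_Ico_eq_sum_range]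
  simp

lemma pos_congr (x : V) {σ σ' : ℕ → Dir} {k j : ℕ} (h : ∀ i < k, σ i = σ' i) (hj : j ≤ k) :
    pos x σ j = pos x σ' j := by
  unfold pos
  rw [sum_congr rfl fun i hi => by rw [h i (lt_of_lt_of_le (mem_range.1 hi) hj)]]

lemma ed_congr (x : V) {σ σ' : ℕ → Dir} {k j : ℕ} (h : ∀ i < k, σ i = σ' i) (hj : j < k) :
    ed x σ j = ed x σ' j := by
  unfold ed
  rw [pos_congr x h hj.le, pos_congr x h (Nat.succ_le_of_lt hj), h j hj]

lemma tm_congr (ω : Om) (x : V) {σ σ' : ℕ → Dir} {k a b : ℕ} (h : ∀ i < k, σ i = σ' i)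
    (hb : b ≤ k) : tm ω x σ a b = tm ω x σ' a b :=
  sum_congr rfl fun j hj => by rw [ed_congr x h (lt_of_lt_of_le (mem_Ico.1 hj).2 hb)]

lemma tm_nonneg (ω : Om) (x : V) (σ : ℕ → Dir) (a b : ℕ) : 0 ≤ tm ω x σ a b :=
  sum_nonneg fun _ _ => le_max_right _ _

lemma tm_add (ω : Om) (x : V) (σ : ℕ → Dir) {a b c : ℕ} (hab : a ≤ b) (hbc : b ≤ c) :
    tm ω x σ a b + tm ω x σ b c = tm ω x σ a c :=
  sum_Ico_consecutive _ hab hbc

lemma tm_sub (ω : Om) (x : V) (σ : ℕ → Dir) {a b c d : ℕ} (hab : a ≤ b) (hcd : c ≤ d) :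
    tm ω x σ b c ≤ tm ω x σ a d :=
  sum_le_sum_of_subset_of_nonneg (Ico_subset_Ico hab hcd) fun _ _ _ => le_max_right _ _

lemma tm_meas (x : V) (σ : ℕ → Dir) (a b : ℕ) : Measurable (fun ω : Om => tm ω x σ a b) := by
  unfold tm
  exact Finset.measurable_sum _ fun j _ => (measurable_pi_apply _).max measurable_const

def cat (σ : ℕ → Dir) (k : ℕ) (σ' : ℕ → Dir) : ℕ → Dir := fun j => if j < k then σ j else σ' (j - k)

lemma cat_left (σ : ℕ → Dir) (k : ℕ) (σ' : ℕ → Dir) : ∀ i < k, cat σ k σ' i = σ i :=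
  fun _ hi => if_pos hi

lemma cat_right (σ : ℕ → Dir) (k : ℕ) (σ' : ℕ → Dir) : (fun i => cat σ k σ' (k + i)) = σ' := by
  funext i; simp [cat]

lemma pos_cat (x : V) (σ : ℕ → Dir) (k : ℕ) (σ' : ℕ → Dir) (j : ℕ) :
    pos x (cat σ k σ') (k + j) = pos (pos x σ k) σ' j := by
  rw [← pos_shift, cat_right, pos_congr x (cat_left σ k σ') le_rfl]

lemma tm_cat (ω : Om) (x : V) (σ : ℕ → Dir) (k : ℕ) (σ' : ℕ → Dir) (j : ℕ) :
    tm ω x (cat σ k σ') 0 (k + j) = tm ω x σ 0 k + tm ω (pos x σ k) σ' 0 j := by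
  rw [← tm_add ω x _ (Nat.zero_le k) (Nat.le_add_right k j), ← tm_shift, cat_right,
    pos_congr x (cat_left σ k σ') le_rfl, tm_congr ω x (cat_left σ k σ') le_rfl]

lemma exists_line (x : V) (i : Fin 2) (n : ℤ) :
    ∃ σ : ℕ → Dir, pos x σ n.natAbs = x + Pi.single i n := by
  have key : ∀ (b : Bool) (k : ℕ), pos x (fun _ => (i, b)) k = x + (k : ℤ) • stp (i, b) := by
    intro b k; simp [pos]
  rcases Int.natAbs_eq n with h | h
  · refine ⟨fun _ => (i, true), ?_⟩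
    rw [key, ← h]; congr 1; ext j; simp [stp, Pi.single_apply]
  · refine ⟨fun _ => (i, false), ?_⟩
    rw [key]; congr 1
    conv_rhs => rw [h]
    ext j; simp [stp, Pi.single_apply]; split_ifs <;> simp

lemma exists_path (x y : V) : ∃ (k : ℕ) (σ : ℕ → Dir), pos x σ k = y ∧ (k : ℝ) ≤ 2 * ‖y - x‖ := by
  obtain ⟨σ, h⟩ := exists_line x 0 ((y - x) 0)
  obtain ⟨σ', h'⟩ := exists_line (x + Pi.single 0 ((y - x) 0)) 1 ((y - x) 1)
  refine ⟨((y - x) 0).natAbs + ((y - x) 1).natAbs, cat σ ((y - x) 0).natAbs σ', ?_, ?_⟩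
  · rw [pos_cat, h, h']
    ext j; fin_cases j <;> simp
  · have h0 := norm_le_pi_norm (y - x) 0
    have h1 := norm_le_pi_norm (y - x) 1
    rw [Int.norm_eq_abs] at h0 h1
    push_cast
    rw [Nat.cast_natAbs, Nat.cast_natAbs]
    push_cast at h0 h1 ⊢
    linarith

lemma T_bdd (ω : Om) (x y : V) :
    BddBelow {t | ∃ (k : ℕ) (σ : ℕ → Dir), pos x σ k = y ∧ t = tm ω x σ 0 k} :=
  ⟨0, by rintro t ⟨k, σ, _, rfl⟩; exact tm_nonneg _ _ _ _ _⟩

lemma T_ne (ω : Om) (x y : V) :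
    {t | ∃ (k : ℕ) (σ : ℕ → Dir), pos x σ k = y ∧ t = tm ω x σ 0 k}.Nonempty := by
  obtain ⟨k, σ, h, _⟩ := exists_path x y
  exact ⟨_, k, σ, h, rfl⟩

lemma le_T {ω : Om} {x y : V} {c : ℝ} (h : ∀ k σ, pos x σ k = y → c ≤ tm ω x σ 0 k) :
    c ≤ T ω x y :=
  le_csInf (T_ne ω x y) (by rintro t ⟨k, σ, h1, rfl⟩; exact h k σ h1)

lemma T_nonneg (ω : Om) (x y : V) : 0 ≤ T ω x y := le_T fun _ _ _ => tm_nonneg _ _ _ _ _

lemma T_le0 (ω : Om) {x y : V} {σ : ℕ → Dir} {k : ℕ} (h : pos x σ k = y) :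
    T ω x y ≤ tm ω x σ 0 k :=
  csInf_le (T_bdd ω x y) ⟨k, σ, h, rfl⟩

lemma T_le (ω : Om) (x : V) (σ : ℕ → Dir) {a b : ℕ} (hab : a ≤ b) :
    T ω (pos x σ a) (pos x σ b) ≤ tm ω x σ a b := by
  obtain ⟨k, rfl⟩ := Nat.exists_eq_add_of_le hab
  rw [← tm_shift]
  exact T_le0 ω (pos_shift x σ a k)

lemma exists_lt {ω : Om} {x y : V} {c : ℝ} (h : T ω x y < c) :
    ∃ k σ, pos x σ k = y ∧ tm ω x σ 0 k < c := by
  by_contra hc
  push Not at hc
  exact absurd (le_T hc) (not_le.2 h)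

lemma T_tri (ω : Om) (x y z : V) : T ω x z ≤ T ω x y + T ω y z := by
  have : T ω x z - T ω y z ≤ T ω x y := by
    refine le_T fun k σ h => ?_
    have : T ω x z - tm ω x σ 0 k ≤ T ω y z := by
      refine le_T fun k' σ' h' => ?_
      have := T_le0 ω (x := x) (y := z) (σ := cat σ k σ') (k := k + k') (by rw [pos_cat, h, h'])
      rw [tm_cat, h] at this
      linarith
    linarith
  linarith

lemma stp_ne (a : Dir) : stp a ≠ 0 := by
  intro h
  have := congrFun h a.1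
  unfold stp at this
  split_ifs at this <;> simp at this

lemma ed_eq {x : V} {σ : ℕ → Dir} {a b : ℕ} (h : ed x σ a = ed x σ b) :
    pos x σ a = pos x σ b ∨ pos x σ a = pos x σ (b + 1) := by
  unfold ed at h
  rw [Prod.mk.injEq] at h
  obtain ⟨h1, h2⟩ := h
  by_cases ha : (σ a).2 <;> by_cases hb : (σ b).2 <;> simp only [ha, hb, if_true] at h1
  · exact Or.inl h1
  · exact Or.inr h1
  · right
    simp only [Bool.false_eq_true, if_false] at h1
    rw [pos_succ] at h1 ⊢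
    rw [← h1]; simp [stp, ha, hb, h2]
  · left
    simp only [Bool.false_eq_true, if_false] at h1
    rw [pos_succ, pos_succ] at h1
    have : stp (σ a) = stp (σ b) := by simp [stp, ha, hb, h2]
    rw [this] at h1
    exact add_right_cancel h1

lemma exists_trail (ω : Om) (x y : V) (k : ℕ) : ∀ σ : ℕ → Dir, pos x σ k = y →
    ∃ (k' : ℕ) (σ' : ℕ → Dir), pos x σ' k' = y ∧ Set.InjOn (ed x σ') (Set.Iio k') ∧
      tm ω x σ' 0 k' ≤ tm ω x σ 0 k := by
  induction k using Nat.strong_induction_on with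
  | _ k ih =>
    intro σ hσ
    by_cases hinj : Set.InjOn (ed x σ) (Set.Iio k)
    · exact ⟨k, σ, hσ, hinj, le_rfl⟩
    · have : ∃ a b, a < b ∧ b ≤ k ∧ pos x σ a = pos x σ b := by
        unfold Set.InjOn at hinj
        push Not at hinj
        obtain ⟨a, ha, b, hb, hab, hne⟩ := hinj
        simp only [Set.mem_Iio] at ha hb
        rcases lt_or_gt_of_ne hne with h | h
        · rcases ed_eq hab with h1 | h1
          · exact ⟨a, b, h, hb.le, h1⟩
          · exact ⟨a, b + 1, by omega, hb, h1⟩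
        · rcases ed_eq hab.symm with h1 | h1
          · exact ⟨b, a, h, ha.le, h1⟩
          · exact ⟨b, a + 1, by omega, ha, h1⟩
      obtain ⟨a, b, hab, hbk, hp⟩ := this
      obtain ⟨d, rfl⟩ := Nat.exists_eq_add_of_le hbk
      obtain ⟨k', σ', h1, h2, h3⟩ := ih (a + d) (by omega) (cat σ a (fun i => σ (b + i)))
        (by rw [pos_cat, hp, pos_shift, hσ])
      refine ⟨k', σ', h1, h2, h3.trans ?_⟩
      rw [tm_cat, hp, tm_shift, ← tm_add ω x σ (Nat.zero_le b) (Nat.le_add_right b d)]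
      have := tm_sub ω x σ (le_refl 0) hab.le
      linarith

lemma exists_trail_lt {ω : Om} {x y : V} {c : ℝ} (h : T ω x y < c) :
    ∃ (k : ℕ) (σ : ℕ → Dir), pos x σ k = y ∧ Set.InjOn (ed x σ) (Set.Iio k) ∧
      tm ω x σ 0 k < c := by
  obtain ⟨k, σ, h1, h2⟩ := exists_lt h
  obtain ⟨k', σ', h3, h4, h5⟩ := exists_trail ω x y k σ h1
  exact ⟨k', σ', h3, h4, h5.trans_lt h2⟩

/-- the step sequence of a list -/
def st (l : List Dir) : ℕ → Dir := fun j => l.getD j default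

lemma exists_list (σ : ℕ → Dir) (k : ℕ) : ∃ l : List Dir, l.length = k ∧ ∀ i < k, st l i = σ i := by
  refine ⟨List.ofFn (fun j : Fin k => σ j), by simp, fun i hi => ?_⟩
  simp [st, hi]

lemma T_meas (x y : V) : Measurable (fun ω : Om => T ω x y) := by
  refine measurable_of_Iio fun c => ?_
  have : (fun ω : Om => T ω x y) ⁻¹' Set.Iio c
      = ⋃ l : List Dir, ⋃ _ : pos x (st l) l.length = y, {ω | tm ω x (st l) 0 l.length < c} := by
    ext ω
    simp only [Set.mem_preimage, Set.mem_Iio, Set.mem_iUnion, Set.mem_ofPred_eq]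
    constructor
    · intro h
      obtain ⟨k, σ, h1, h2⟩ := exists_lt h
      obtain ⟨l, rfl, hl⟩ := exists_list σ k
      exact ⟨l, by rw [pos_congr x hl le_rfl, h1], by rw [tm_congr ω x hl le_rfl]; exact h2⟩
    · rintro ⟨l, h1, h2⟩
      exact (T_le0 ω h1).trans_lt h2
  rw [this]
  exact MeasurableSet.iUnion fun l => MeasurableSet.iUnion fun _ =>
    measurableSet_lt (tm_meas _ _ _ _) measurable_const

lemma pos_add (x z : V) (σ : ℕ → Dir) (j : ℕ) : pos (x + z) σ j = pos x σ j + z := by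
  unfold pos; abel

lemma T_shift (ω : Om) (x y z : V) :
    T ω (x + z) (y + z) = T (fun e : Ed => ω (e.1 + z, e.2)) x y := by
  unfold T
  congr 1
  ext t
  have : ∀ σ k, tm ω (x + z) σ 0 k = tm (fun e : Ed => ω (e.1 + z, e.2)) x σ 0 k := by
    intro σ k
    refine sum_congr rfl fun j _ => ?_
    simp only [ed, pos_add]
    split_ifs <;> rfl
  simp only [Set.mem_ofPred_eq, pos_add, add_left_inj, this]

lemma norm_stp (a : Dir) : ‖stp a‖ ≤ 1 := by
  have : ‖(Pi.single a.1 1 : V)‖ ≤ 1 := by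
    rw [Pi.norm_single]; simp
  unfold stp; split_ifs
  · exact this
  · rwa [norm_neg]

lemma norm_pos_sub (x : V) (σ : ℕ → Dir) (a k : ℕ) : ‖pos x σ (a + k) - pos x σ a‖ ≤ k := by
  induction k with
  | zero => simp
  | succ k ih =>
    rw [← add_assoc, pos_succ]
    have : pos x σ (a + k) + stp (σ (a + k)) - pos x σ a
        = (pos x σ (a + k) - pos x σ a) + stp (σ (a + k)) := by abel
    rw [this]
    push_cast
    exact (norm_add_le _ _).trans (add_le_add ih (norm_stp _))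

lemma norm_pos_sub0 (x : V) (σ : ℕ → Dir) (k : ℕ) : ‖pos x σ k - x‖ ≤ k := by
  simpa using norm_pos_sub x σ 0 k

/-- discrete intermediate values -/
lemma ivt (f : ℕ → ℝ) (c y : ℝ) (hf : ∀ j, f (j + 1) ≤ f j + c) (hc : 0 ≤ c) (a k : ℕ)
    (ha : f a ≤ y) (hb : y ≤ f (a + k)) : ∃ j, a ≤ j ∧ j ≤ a + k ∧ y ≤ f j ∧ f j ≤ y + c := by
  induction k with
  | zero => exact ⟨a, le_rfl, le_rfl, hb, by linarith⟩
  | succ k ih =>
    by_cases h : y ≤ f (a + k)
    · obtain ⟨j, h1, h2, h3⟩ := ih h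
      exact ⟨j, h1, by omega, h3⟩
    · refine ⟨a + (k + 1), by omega, le_rfl, hb, ?_⟩
      have := hf (a + k)
      rw [← add_assoc]; linarith [not_le.1 h]

lemma ed_base (x : V) (σ : ℕ → Dir) (j : ℕ) :
    (ed x σ j).1 = pos x σ j ∨ (ed x σ j).1 = pos x σ (j + 1) := by
  unfold ed; split_ifs <;> simp

end Pool.Agent.P.MP_dcd5d0_pr
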