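import Mathlib

/-! Product measure tools: resampling one coordinate, Efron-Stein inequality, lower tail. -/

set_option autoImplicit false

open MeasureTheory ProbabilityTheory Function
open scoped ENNReal

namespace Pool.Agent.P.MP_dcd5d0_pr

variable {ι : Type}

/-- The i.i.d. product measure. -/
noncomputable def PP (ι : Type) (ν : Measure ℝ) : Measure (ι → ℝ) :=
  Measure.infinitePi (fun _ : ι => ν)

instance PP_prob (ν : Measure ℝ) [IsProbabilityMeasure ν] : IsProbabilityMeasure (PP ι ν) := by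
  unfold PP; infer_instance

lemma lprod (ν : Measure ℝ) [IsProbabilityMeasure ν] (s : Finset ι) (f : ι → ℝ → ℝ≥0∞)
    (hf : ∀ e, Measurable (f e)) :
    ∫⁻ ω, ∏ e ∈ s, f e (ω e) ∂(PP ι ν) = ∏ e ∈ s, ∫⁻ x, f e x ∂ν := by
  have h1 : iIndepFun (fun e (ω : ι → ℝ) => f e (ω e)) (PP ι ν) :=
    iIndepFun_infinitePi (P := fun _ : ι => ν) (X := f) hf
  rw [lintegral_prod_eq_prod_lintegral_of_indepFun s _ h1
    (fun e => (hf e).comp (measurable_pi_apply e))]
  refine Finset.prod_congr rfl fun e _ => ?_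
  exact (measurePreserving_eval_infinitePi (fun _ : ι => ν) e).lintegral_comp (hf e)

lemma meas_update [DecidableEq ι] (e : ι) :
    Measurable (fun p : (ι → ℝ) × ℝ => update p.1 e p.2) := by
  fun_prop

lemma resample [DecidableEq ι] (ν : Measure ℝ) [IsProbabilityMeasure ν] (e : ι) :
    ((PP ι ν).prod ν).map (fun p : (ι → ℝ) × ℝ => update p.1 e p.2) = PP ι ν := by
  refine Measure.eq_infinitePi (fun _ : ι => ν) fun s t ht => ?_
  rw [Measure.map_apply (meas_update e) (.pi s.countable_toSet fun _ _ => ht _)]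
  by_cases he : e ∈ s
  · have : (fun p : (ι → ℝ) × ℝ => update p.1 e p.2) ⁻¹' ((s : Set ι).pi t)
        = (((s.erase e : Finset ι) : Set ι).pi t) ×ˢ t e := by
      ext p
      simp only [Set.mem_preimage, Set.mem_pi, Finset.mem_coe, Set.mem_prod, Finset.mem_erase]
      constructor
      · intro h
        refine ⟨fun i hi => ?_, ?_⟩
        · have := h i hi.2
          rwa [update_of_ne hi.1] at this
        · have := h e he
          rwa [update_self] at this
      · rintro ⟨h1, h2⟩ i hi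
        by_cases hie : i = e
        · subst hie; rwa [update_self]
        · rw [update_of_ne hie]; exact h1 i ⟨hie, hi⟩
    rw [this, Measure.prod_prod, PP, Measure.infinitePi_pi _ (fun i _ => ht i),
      Finset.prod_erase_mul s (fun i => ν (t i)) he]
  · have : (fun p : (ι → ℝ) × ℝ => update p.1 e p.2) ⁻¹' ((s : Set ι).pi t)
        = ((s : Set ι).pi t) ×ˢ Set.univ := by
      ext p
      simp only [Set.mem_preimage, Set.mem_pi, Finset.mem_coe, Set.mem_prod, Set.mem_univ,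
        and_true]
      refine forall_congr' fun i => forall_congr' fun hi => ?_
      have hie : i ≠ e := fun h => he (h ▸ hi)
      rw [update_of_ne hie]
    rw [this, Measure.prod_prod, PP, Measure.infinitePi_pi _ (fun i _ => ht i), measure_univ,
      mul_one]

lemma lint_update [DecidableEq ι] (ν : Measure ℝ) [IsProbabilityMeasure ν] (e : ι)
    (F : (ι → ℝ) → ℝ≥0∞) (hF : Measurable F) :
    ∫⁻ ω, ∫⁻ y, F (update ω e y) ∂ν ∂(PP ι ν) = ∫⁻ ω, F ω ∂(PP ι ν) := by
  conv_rhs => rw [← resample ν e]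
  rw [lintegral_map hF (meas_update e), lintegral_prod]
  exact (hF.comp (meas_update e)).aemeasurable

lemma enn_sq1 (a b : ℝ≥0∞) (ha : a ≠ ⊤) (hb : b ≠ ⊤) :
    a ^ 2 + b ^ 2 ≤ 2 * (a * b) + ((a - b) ^ 2 + (b - a) ^ 2) := by
  rcases le_total a b with h | h
  · obtain ⟨d, rfl⟩ := exists_add_of_le h
    rw [ENNReal.add_sub_cancel_left ha, tsub_eq_zero_of_le h]
    apply le_of_eq; ring
  · obtain ⟨d, rfl⟩ := exists_add_of_le h
    rw [ENNReal.add_sub_cancel_left hb, tsub_eq_zero_of_le h]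
    apply le_of_eq; ring

lemma enn_sq2 (a b : ℝ≥0∞) : 2 * (a * b) ≤ a ^ 2 + b ^ 2 := by
  rcases le_total a b with h | h
  · obtain ⟨d, rfl⟩ := exists_add_of_le h
    calc 2 * (a * (a + d)) ≤ 2 * (a * (a + d)) + d ^ 2 := le_self_add
      _ = _ := by ring
  · obtain ⟨d, rfl⟩ := exists_add_of_le h
    calc 2 * ((b + d) * b) ≤ 2 * ((b + d) * b) + d ^ 2 := le_self_add
      _ = _ := by ring

lemma lint_two (ν : Measure ℝ) [IsProbabilityMeasure ν] (f : ℝ → ℝ≥0∞) (hf : Measurable f) :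
    ∫⁻ y, ∫⁻ y', (f y ^ 2 + f y' ^ 2) ∂ν ∂ν = 2 * ∫⁻ y, f y ^ 2 ∂ν := by
  have : ∀ y, ∫⁻ y', (f y ^ 2 + f y' ^ 2) ∂ν = f y ^ 2 + ∫⁻ y', f y' ^ 2 ∂ν := by
    intro y
    rw [lintegral_add_left measurable_const]; simp
  simp_rw [this]
  rw [lintegral_add_right _ measurable_const]; simp [two_mul]

lemma lint_mul (ν : Measure ℝ) [IsProbabilityMeasure ν] (f : ℝ → ℝ≥0∞) (hf : Measurable f) :
    ∫⁻ y, ∫⁻ y', 2 * (f y * f y') ∂ν ∂ν = 2 * (∫⁻ y, f y ∂ν) ^ 2 := by
  have : ∀ y, ∫⁻ y', 2 * (f y * f y') ∂ν = (2 * ∫⁻ y', f y' ∂ν) * f y := by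
    intro y
    rw [lintegral_const_mul _ (hf.const_mul _), lintegral_const_mul _ hf]; ring
  simp_rw [this]
  rw [lintegral_const_mul _ hf]; ring

lemma jensen_sq (ν : Measure ℝ) [IsProbabilityMeasure ν] (f : ℝ → ℝ≥0∞) (hf : Measurable f) :
    (∫⁻ y, f y ∂ν) ^ 2 ≤ ∫⁻ y, f y ^ 2 ∂ν := by
  have h : 2 * (∫⁻ y, f y ∂ν) ^ 2 ≤ 2 * ∫⁻ y, f y ^ 2 ∂ν := by
    rw [← lint_two ν f hf, ← lint_mul ν f hf]
    exact lintegral_mono fun y => lintegral_mono fun y' => enn_sq2 _ _
  exact (ENNReal.mul_le_mul_iff_right (by norm_num) (by norm_num)).1 h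

lemma var_one (ν : Measure ℝ) [IsProbabilityMeasure ν] (f : ℝ → ℝ≥0∞) (hf : Measurable f)
    (h1 : ∀ y, f y ≤ 1) :
    ∫⁻ y, f y ^ 2 ∂ν ≤ (∫⁻ y, f y ∂ν) ^ 2 + ∫⁻ y, ∫⁻ y', (f y - f y') ^ 2 ∂ν ∂ν := by
  have hne : ∀ y, f y ≠ ⊤ := fun y => ne_top_of_le_ne_top ENNReal.one_ne_top (h1 y)
  have hm : Measurable (fun p : ℝ × ℝ => (f p.1 - f p.2) ^ 2) := by fun_prop
  have hm' : Measurable (fun p : ℝ × ℝ => (f p.2 - f p.1) ^ 2) := by fun_prop
  have hsw : ∫⁻ y, ∫⁻ y', (f y' - f y) ^ 2 ∂ν ∂ν = ∫⁻ y, ∫⁻ y', (f y - f y') ^ 2 ∂ν ∂ν :=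
    lintegral_lintegral_swap hm'.aemeasurable
  have h : 2 * ∫⁻ y, f y ^ 2 ∂ν
      ≤ 2 * ((∫⁻ y, f y ∂ν) ^ 2 + ∫⁻ y, ∫⁻ y', (f y - f y') ^ 2 ∂ν ∂ν) := by
    rw [← lint_two ν f hf, mul_add, ← lint_mul ν f hf]
    calc ∫⁻ y, ∫⁻ y', (f y ^ 2 + f y' ^ 2) ∂ν ∂ν
        ≤ ∫⁻ y, ∫⁻ y', (2 * (f y * f y') + ((f y - f y') ^ 2 + (f y' - f y) ^ 2)) ∂ν ∂ν :=
          lintegral_mono fun y => lintegral_mono fun y' => enn_sq1 _ _ (hne _) (hne _)
      _ = ∫⁻ y, (∫⁻ y', 2 * (f y * f y') ∂ν + (∫⁻ y', (f y - f y') ^ 2 ∂ν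
            + ∫⁻ y', (f y' - f y) ^ 2 ∂ν)) ∂ν := by
          refine lintegral_congr fun y => ?_
          rw [lintegral_add_left (by fun_prop), lintegral_add_left (by fun_prop)]
      _ = _ := by
          rw [lintegral_add_left, lintegral_add_left, hsw, two_mul (∫⁻ y, ∫⁻ y', _ ∂ν ∂ν)]
          · exact hm.lintegral_prod_right'
          · have : Measurable (fun p : ℝ × ℝ => 2 * (f p.1 * f p.2)) := by fun_prop
            exact this.lintegral_prod_right'
  exact (ENNReal.mul_le_mul_iff_right (by norm_num) (by norm_num)).1 h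

theorem efron_stein [DecidableEq ι] (ν : Measure ℝ) [IsProbabilityMeasure ν] (S : Finset ι) :
    ∀ (F : (ι → ℝ) → ℝ≥0∞), Measurable F → (∀ ω, F ω ≤ 1) →
      (∀ ω ω', (∀ e ∈ S, ω e = ω' e) → F ω = F ω') →
      ∫⁻ ω, F ω ^ 2 ∂(PP ι ν) ≤ (∫⁻ ω, F ω ∂(PP ι ν)) ^ 2
        + ∑ e ∈ S, ∫⁻ ω, ∫⁻ y, (F ω - F (update ω e y)) ^ 2 ∂ν ∂(PP ι ν) := by
  induction S using Finset.induction_on with
  | empty =>
    intro F _ _ hdep
    have : F = fun _ => F 0 := funext fun ω => hdep ω 0 (by simp)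
    rw [this]; simp
  | insert e S he ih =>
    intro F hF h1 hdep
    have hFu : ∀ e', Measurable (fun p : (ι → ℝ) × ℝ => F (update p.1 e' p.2)) :=
      fun e' => hF.comp (meas_update e')
    set G : (ι → ℝ) → ℝ≥0∞ := fun ω => ∫⁻ y, F (update ω e y) ∂ν with hG
    have hGm : Measurable G := (hFu e).lintegral_prod_right'
    have hG1 : ∀ ω, G ω ≤ 1 := fun ω => by
      calc G ω ≤ ∫⁻ _, 1 ∂ν := lintegral_mono fun y => h1 _
        _ = 1 := by simp
    have hGdep : ∀ ω ω', (∀ e' ∈ S, ω e' = ω' e') → G ω = G ω' := by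
      intro ω ω' h
      refine lintegral_congr fun y => hdep _ _ fun e' he' => ?_
      by_cases hee : e' = e
      · subst hee; simp
      · rw [update_of_ne hee, update_of_ne hee]
        exact h e' ((Finset.mem_insert.1 he').resolve_left hee)
    have hD : ∀ e', Measurable (fun ω => ∫⁻ y, (F ω - F (update ω e' y)) ^ 2 ∂ν) := by
      intro e'
      have : Measurable (fun p : (ι → ℝ) × ℝ => (F p.1 - F (update p.1 e' p.2)) ^ 2) :=
        ((hF.comp measurable_fst).sub (hFu e')).pow_const 2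
      exact this.lintegral_prod_right'
    have hI := ih G hGm hG1 hGdep
    have hGF : ∫⁻ ω, G ω ∂(PP ι ν) = ∫⁻ ω, F ω ∂(PP ι ν) := lint_update ν e F hF
    have step1 : ∫⁻ ω, F ω ^ 2 ∂(PP ι ν) ≤ ∫⁻ ω, G ω ^ 2 ∂(PP ι ν)
        + ∫⁻ ω, ∫⁻ y, (F ω - F (update ω e y)) ^ 2 ∂ν ∂(PP ι ν) := by
      rw [← lint_update ν e (fun ω => F ω ^ 2) (hF.pow_const 2),
        ← lint_update ν e _ (hD e), ← lintegral_add_left (hGm.pow_const 2)]
      refine lintegral_mono fun ω => ?_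
      have := var_one ν (fun y => F (update ω e y)) (hF.comp (measurable_update ω)) (fun y => h1 _)
      simpa only [update_idem] using this
    have step2 : ∀ e' ∈ S, ∫⁻ ω, ∫⁻ y, (G ω - G (update ω e' y)) ^ 2 ∂ν ∂(PP ι ν)
        ≤ ∫⁻ ω, ∫⁻ y, (F ω - F (update ω e' y)) ^ 2 ∂ν ∂(PP ι ν) := by
      intro e' he'
      have hne : e' ≠ e := fun h => he (h ▸ he')
      rw [← lint_update ν e _ (hD e')]
      refine lintegral_mono fun ω => ?_
      have hm2 : Measurable (fun p : ℝ × ℝ =>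
          (F (update ω e p.2) - F (update (update ω e p.2) e' p.1)) ^ 2) := by
        refine Measurable.pow_const (Measurable.sub ?_ ?_) 2
        · exact hF.comp ((measurable_update ω).comp measurable_snd)
        · exact (hFu e').comp (((measurable_update ω).comp measurable_snd).prodMk measurable_fst)
      calc ∫⁻ y, (G ω - G (update ω e' y)) ^ 2 ∂ν
          ≤ ∫⁻ y, ∫⁻ z, (F (update ω e z) - F (update (update ω e z) e' y)) ^ 2 ∂ν ∂ν := by
            refine lintegral_mono fun y => ?_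
            have hm3 : Measurable (fun z => F (update (update ω e z) e' y)) :=
              (hFu e').comp ((measurable_update ω).prodMk measurable_const)
            have hm4 : Measurable (fun z => F (update ω e z)) := hF.comp (measurable_update ω)
            refine le_trans ?_ (jensen_sq ν _ (hm4.sub hm3))
            refine pow_le_pow_left' ?_ 2
            have : G (update ω e' y) = ∫⁻ z, F (update (update ω e z) e' y) ∂ν := by
              refine lintegral_congr fun z => ?_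
              rw [update_comm hne]
            rw [this]
            exact lintegral_sub_le _ _ hm3
        _ = _ := lintegral_lintegral_swap hm2.aemeasurable
    rw [Finset.sum_insert he]
    calc _ ≤ _ := step1
      _ ≤ ((∫⁻ ω, F ω ∂(PP ι ν)) ^ 2
          + ∑ e' ∈ S, ∫⁻ ω, ∫⁻ y, (F ω - F (update ω e' y)) ^ 2 ∂ν ∂(PP ι ν))
          + ∫⁻ ω, ∫⁻ y, (F ω - F (update ω e y)) ^ 2 ∂ν ∂(PP ι ν) := by
          gcongr
          rw [← hGF]
          exact hI.trans (add_le_add le_rfl (Finset.sum_le_sum step2))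
      _ = _ := by ring

end Pool.Agent.P.MP_dcd5d0_pr
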